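import Pool.Agent.H80.Prim

set_option autoImplicit false

namespace Pool.Agent.H80

open Equiv

section defs
variable {V : Type*} [AddCommGroup V]

/-- the affine permutations preserving a colouring -/
def vst {α : Type*} (Γ : V → α) : Subgroup (Perm V) where
  carrier := {σ | σ ∈ Aff V ∧ ∀ v, Γ (σ v) = Γ v}
  mul_mem' := by
    rintro σ τ ⟨hσ, hσ'⟩ ⟨hτ, hτ'⟩
    exact ⟨(Aff V).mul_mem hσ hτ, fun v => by rw [Perm.mul_apply, hσ', hτ']⟩
  one_mem' := ⟨(Aff V).one_mem, fun v => rfl⟩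
  inv_mem' := by
    rintro σ ⟨hσ, hσ'⟩
    refine ⟨(Aff V).inv_mem hσ, fun v => ?_⟩
    have := hσ' (σ⁻¹ v)
    rw [← Perm.mul_apply, mul_inv_cancel, Perm.one_apply] at this
    exact this.symm

theorem mem_vst {α : Type*} {Γ : V → α} {σ : Perm V} :
    σ ∈ vst Γ ↔ σ ∈ Aff V ∧ ∀ v, Γ (σ v) = Γ v := Iff.rfl

/-- `r` pairwise affinely inequivalent `q`-colourings with affine stabilisers of derived length
at most `d` -/
def NTaff (V : Type*) [AddCommGroup V] (q d r : ℕ) : Prop :=
  ∃ Γ : Fin r → V → Fin q,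
    (∀ i j, ∀ σ ∈ Aff V, (∀ v, Γ j (σ v) = Γ i v) → i = j) ∧ (∀ i, D (vst (Γ i)) d = ⊥)

end defs

theorem NT_of_aff {G : Type*} [Group G] {H L : Subgroup G}
    {V : Type*} [AddCommGroup V] (e : (H ⧸ L.subgroupOf H) ≃ V)
    (he : ∀ x : H, e.permCongr (MulAction.toPermHom H (H ⧸ L.subgroupOf H) x) ∈ Aff V)
    (hLH : L ≤ H) {q d r : ℕ} (h : NTaff V q d r) : NT H L q d r := by
  classical
  obtain ⟨Γ, h1, h2⟩ := h
  let θ : H →* Perm V := (Equiv.permCongrHom e).toMonoidHom.comp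
    (MulAction.toPermHom H (H ⧸ L.subgroupOf H))
  have hθ : ∀ x g : H, θ x (e (g : H ⧸ L.subgroupOf H)) = e ((x * g : H) : H ⧸ L.subgroupOf H) := by
    intro x g
    simp [θ, Equiv.permCongrHom, Equiv.permCongr_apply]
  have hθaff : ∀ x : H, θ x ∈ Aff V := he
  have hsurj : ∀ v, ∃ g : H, e (g : H ⧸ L.subgroupOf H) = v := by
    intro v
    obtain ⟨g, hg⟩ := QuotientGroup.mk_surjective (e.symm v)
    exact ⟨g, by rw [hg]; simp⟩
  let c : Fin r → G → Fin q := fun i g =>
    if hg : g ∈ H then Γ i (e ((⟨g, hg⟩ : H) : H ⧸ L.subgroupOf H)) else Γ i 0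
  have hc : ∀ i, ∀ g : H, c i g = Γ i (e (g : H ⧸ L.subgroupOf H)) := by
    intro i g
    simp only [c]
    rw [dif_pos g.2]
  refine ⟨c, ?_, ?_, ?_⟩
  · intro i g hg l hl
    have hl' : l ∈ H := hLH hl
    have e1 := hc i ⟨g, hg⟩
    have e2 := hc i (⟨g, hg⟩ * ⟨l, hl'⟩)
    simp only [Subgroup.coe_mul] at e1 e2
    rw [e1, e2]
    congr 2
    apply Eq.symm
    rw [QuotientGroup.eq]
    apply Subgroup.mem_subgroupOf.2
    simpa using hl
  · intro i j x hx hxx
    apply h1 i j (θ ⟨x, hx⟩) (hθaff _)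
    intro v
    obtain ⟨g, rfl⟩ := hsurj v
    rw [hθ, ← hc, ← hc]
    exact hxx g g.2
  · intro i x hx g hg
    set S := cst H (c i) with hS
    have hSH : S ≤ H := fun y hy => hy.1
    have hmap : (S.subgroupOf H).map H.subtype = S := by
      rw [Subgroup.map_subgroupOf_eq_of_le hSH]
    rw [← hmap, ← D_map] at hx
    obtain ⟨y, hy, rfl⟩ := hx
    have hy1 : θ y = 1 := by
      refine hom_eq_one (T := vst (Γ i)) θ ?_ (h2 i) hy
      intro z hz
      have hz' : (z : G) ∈ S := Subgroup.mem_subgroupOf.1 hz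
      refine ⟨hθaff z, fun v => ?_⟩
      obtain ⟨g, rfl⟩ := hsurj v
      rw [hθ, ← hc, ← hc]
      exact hz'.2 g g.2
    have h3 := hθ y ⟨g, hg⟩
    rw [hy1, Perm.one_apply] at h3
    have h4 := e.injective h3
    rw [QuotientGroup.eq] at h4
    have h5 := Subgroup.mem_subgroupOf.1 h4
    simpa [mul_assoc] using h5

/-- A cover `L ⋖ H` of subgroups of a finite solvable group gives an affine space. -/
theorem exists_aff_of_covBy {G : Type*} [Group G] [Finite G] [Group.IsSolvable G]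
    {H L : Subgroup G} (h : L ⋖ H) :
    ∃ (p k : ℕ), p.Prime ∧ 0 < k ∧
      (∀ q d r, NTaff (Fin k → ZMod p) q d r → NT H L q d r) := by
  have hco : IsCoatom (L.subgroupOf H) := by
    constructor
    · intro hcon
      exact h.lt.not_ge (Subgroup.subgroupOf_eq_top.1 hcon)
    · intro M hM
      have h1 : L < M.map H.subtype := by
        have : L = (L.subgroupOf H).map H.subtype := by
          rw [Subgroup.map_subgroupOf_eq_of_le h.le]
        rw [this]
        exact (Subgroup.map_lt_map_iff_of_injective H.subtype_injective).2 hM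
      have h2 : M.map H.subtype ≤ H := by
        rintro _ ⟨x, _, rfl⟩; exact x.2
      have h3 : M.map H.subtype = H := by
        by_contra hne
        exact h.2 h1 (lt_of_le_of_ne h2 hne)
      rw [eq_top_iff]
      intro x _
      have : (x : G) ∈ M.map H.subtype := by rw [h3]; exact x.2
      obtain ⟨y, hy, hyx⟩ := this
      have : y = x := Subtype.ext hyx
      rwa [← this]
  obtain ⟨p, k, hp, hk, e, he⟩ := prim_aff (L.subgroupOf H) hco
  exact ⟨p, k, hp, hk, fun q d r hN => NT_of_aff e he h.le hN⟩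

end Pool.Agent.H80
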