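import Pool.Agent.H80.Col345b

set_option autoImplicit false

namespace Pool.Agent.H80

open Equiv
open scoped commutatorElement

section
variable {V : Type*} [AddCommGroup V] [Fintype V] [DecidableEq V]

/-- two-colouring given by a set -/
def colX (X : Finset V) (v : V) : Fin 2 := if v ∈ X then 1 else 0

theorem colX_eq_one {X : Finset V} {v : V} : colX X v = 1 ↔ v ∈ X := by
  unfold colX; split_ifs with h <;> simp [h]

theorem colX_eq_zero {X : Finset V} {v : V} : colX X v = 0 ↔ v ∉ X := by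
  unfold colX; split_ifs with h <;> simp [h]

theorem colX_eq_iff {X : Finset V} {v w : V} : colX X v = colX X w ↔ (v ∈ X ↔ w ∈ X) := by
  unfold colX; split_ifs with h h' h' <;> simp [h, h']

theorem mem_vst_colX {X : Finset V} {σ : Perm V} :
    σ ∈ vst (colX X) ↔ σ ∈ Aff V ∧ ∀ v, (σ v ∈ X ↔ v ∈ X) := by
  simp only [mem_vst, colX_eq_iff]

theorem vst_compl (X : Finset V) : vst (colX Xᶜ) = vst (colX X) := by
  ext σ
  simp only [mem_vst_colX, Finset.mem_compl, not_iff_not]

theorem cnt_colX (X : Finset V) : cnt (colX X) 1 = X.card :=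
  cnt_eq_card _ _ X (fun _ => colX_eq_one)

/-- if the whole affine group has small derived length -/
theorem NTaff2_of_Aff {d r : ℕ} (hd : D (Aff V) d = ⊥) (hr : r ≤ Fintype.card V + 1) :
    NTaff V 2 d r := by
  have hex : ∀ i : Fin r, ∃ X : Finset V, X.card = i := by
    intro i
    have : (i : ℕ) ≤ (Finset.univ : Finset V).card := by
      rw [Finset.card_univ]; have := i.2; omega
    obtain ⟨X, _, hX⟩ := Finset.exists_subset_card_eq this
    exact ⟨X, hX⟩
  choose X hX using hex
  apply NTaff_of_cnt (fun i => colX (X i))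
  · intro i j h
    have := h 1
    rw [cnt_colX, cnt_colX, hX, hX] at this
    exact Fin.ext this.symm
  · intro i
    have h1 : vst (colX (X i)) ≤ Aff V := fun σ h => h.1
    have h2 := D_mono h1 d
    rw [hd] at h2
    exact le_bot_iff.1 h2

theorem NTaff2_of_three {A B C : Finset V} (hA : D (vst (colX A)) 3 = ⊥)
    (hB : D (vst (colX B)) 3 = ⊥) (hC : D (vst (colX C)) 3 = ⊥)
    (h : [A.card, B.card, C.card, Fintype.card V - A.card, Fintype.card V - B.card].Nodup) :
    NTaff V 2 3 5 := by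
  apply NTaff_of_cnt (![colX A, colX B, colX C, colX Aᶜ, colX Bᶜ] : Fin 5 → V → Fin 2)
  · intro i j hij
    have h1 := hij 1
    have e : ∀ i, cnt ((![colX A, colX B, colX C, colX Aᶜ, colX Bᶜ] : Fin 5 → V → Fin 2) i) 1 =
        [A.card, B.card, C.card, Fintype.card V - A.card, Fintype.card V - B.card].get i := by
      intro i
      fin_cases i <;> simp [cnt_colX, Finset.card_compl]
    rw [e, e] at h1
    exact (List.nodup_iff_injective_get.1 h h1).symm
  · intro i
    fin_cases i
    · exact hA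
    · exact hB
    · exact hC
    · exact (vst_compl A).symm ▸ hA
    · exact (vst_compl B).symm ▸ hB

theorem D_fix_colX {X : Finset V} {n : ℕ} (hn : n ≤ 3) (hX : X.card ≤ n + 1) {σ : Perm V}
    (hσ : σ ∈ D (vst (colX X)) n) : ∀ v ∈ X, σ v = v := by
  apply D_fix (MonoidHom.id (Perm V)) hn hX ?_ hσ
  intro s hs y hy
  exact ((mem_vst_colX.1 hs).2 y).2 hy

theorem aff_fix3 {σ : Perm V} (hσ : σ ∈ Aff V) {a b c : V} (ha : σ a = a) (hb : σ b = b)
    (hc : σ c = c) : σ (a - b + c) = a - b + c := by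
  rw [hσ, ha, hb, hc]

/-- linear part -/
def linHom (S : Subgroup (Perm V)) (hS : S ≤ Aff V) : S →* Perm V where
  toFun σ :=
    { toFun := fun v => (σ : Perm V) v - (σ : Perm V) 0
      invFun := fun v => (σ : Perm V)⁻¹ v - (σ : Perm V)⁻¹ 0
      left_inv := by
        intro v
        have h := (Aff V).inv_mem (hS σ.2) ((σ : Perm V) v) ((σ : Perm V) 0) 0
        rw [add_zero, ← Perm.mul_apply, ← Perm.mul_apply, inv_mul_cancel] at h
        change (σ : Perm V)⁻¹ ((σ : Perm V) v - (σ : Perm V) 0) - (σ : Perm V)⁻¹ 0 = v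
        rw [h]
        simp
      right_inv := by
        intro v
        have h := (hS σ.2) ((σ : Perm V)⁻¹ v) ((σ : Perm V)⁻¹ 0) 0
        rw [add_zero, ← Perm.mul_apply, ← Perm.mul_apply, mul_inv_cancel] at h
        change (σ : Perm V) ((σ : Perm V)⁻¹ v - (σ : Perm V)⁻¹ 0) - (σ : Perm V) 0 = v
        rw [h]
        simp }
  map_one' := by ext v; simp
  map_mul' := by
    intro a b
    ext v
    have h := (hS a.2) ((b : Perm V) v) ((b : Perm V) 0) 0
    rw [add_zero] at h
    change (a : Perm V) ((b : Perm V) v) - (a : Perm V) ((b : Perm V) 0) =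
      (a : Perm V) ((b : Perm V) v - (b : Perm V) 0) - (a : Perm V) 0
    rw [h]
    abel

theorem linHom_apply (S : Subgroup (Perm V)) (hS : S ≤ Aff V) (σ : S) (v : V) :
    linHom S hS σ v = (σ : Perm V) v - (σ : Perm V) 0 := rfl

end

section hyper
variable {p k : ℕ} [Fact p.Prime]

/-- hyperplane lemma -/
theorem D_hyper {S : Subgroup (Perm (Fin (k + 1) → ZMod p))} (hS : S ≤ Aff _) {n : ℕ}
    (hn : 1 ≤ n) (h0 : ∀ σ ∈ S, (σ 0) (Fin.last k) = 0)
    (hi : ∀ σ ∈ S, ∀ i, i ≠ Fin.last k → (σ (ev i)) (Fin.last k) = 0)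
    (hf0 : ∀ σ ∈ D S n, σ 0 = 0) (hfi : ∀ σ ∈ D S n, ∀ i, i ≠ Fin.last k → σ (ev i) = ev i) :
    D S (n + 1) = ⊥ := by
  let U : AddSubgroup (Fin (k + 1) → ZMod p) :=
    { carrier := {v | v (Fin.last k) = 0}
      add_mem' := by
        intro a b ha hb
        change a _ + b _ = 0
        rw [ha, hb, add_zero]
      zero_mem' := rfl
      neg_mem' := by
        intro a ha
        change - a _ = 0
        rw [ha, neg_zero] }
  apply D_flag U
  · intro σ hσ u hu v
    have hσA := hS (D_le _ _ hσ)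
    apply aff_shift hσA v 0 u
    rw [zero_add, aff_apply hσA, hf0 σ hσ]
    rw [add_zero, zero_add]
    have : ∀ i, u i • (σ (ev i) - 0) = u i • (ev i : Fin (k + 1) → ZMod p) := by
      intro i
      by_cases h : i = Fin.last k
      · have : u i = 0 := by rw [h]; exact hu
        rw [this, zero_smul, zero_smul]
      · rw [hfi σ hσ i h, sub_zero]
    rw [Finset.sum_congr rfl (fun i _ => this i)]
    ext l
    simp [ev_apply]
  · intro σ hσ v
    have hσ1 : σ ∈ D S 1 := D_anti S hn hσ
    have := D_one_scalar (S := S) (fun v : Fin (k + 1) → ZMod p => v (Fin.last k)) ?_ hσ1 v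
    · change σ v _ - v _ = 0
      rw [this, sub_self]
    · intro τ hτ
      refine ⟨(τ (ev (Fin.last k))) (Fin.last k), fun w => ?_⟩
      rw [aff_apply (hS hτ) w]
      simp only [Pi.add_apply, Finset.sum_apply, Pi.smul_apply, Pi.sub_apply, smul_eq_mul]
      rw [h0 τ hτ, Finset.sum_eq_single (Fin.last k)]
      · ring
      · intro i _ hil
        rw [hi τ hτ i hil]; ring
      · intro h; exact absurd (Finset.mem_univ _) h

/-- the hyperplane `x_last = 0` -/
def Wset (k p : ℕ) [Fact p.Prime] : Finset (Fin (k + 1) → ZMod p) :=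
  Finset.univ.filter (fun v => v (Fin.last k) = 0)

theorem mem_Wset {v : Fin (k + 1) → ZMod p} : v ∈ Wset k p ↔ v (Fin.last k) = 0 := by
  simp [Wset]

theorem card_Wset : (Wset k p).card = p ^ k := by
  have h1 : (Wset k p).card = (Finset.univ : Finset (Fin k → ZMod p)).card := by
    symm
    apply Finset.card_bij (fun (v : Fin k → ZMod p) _ => (Fin.snoc v 0 : Fin (k + 1) → ZMod p))
    · intro v _
      rw [mem_Wset]; simp
    · intro a _ b _ h
      have := congrArg (Fin.init) h
      simpa using this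
    · intro b hb
      refine ⟨Fin.init b, Finset.mem_univ _, ?_⟩
      rw [mem_Wset] at hb
      rw [← hb, Fin.snoc_init_self]
  rw [h1, Finset.card_univ, card_VV]

theorem rec_W {E F : Finset (Fin (k + 1) → ZMod p)}
    (hF : ∀ v ∈ F, v (Fin.last k) ≠ 0) (hcard : 2 * (E.card + F.card) < p ^ k)
    {σ : Perm (Fin (k + 1) → ZMod p)} (hσ : σ ∈ vst (colX ((Wset k p \ E) ∪ F))) :
    ∀ w ∈ Wset k p, σ w ∈ Wset k p := by
  obtain ⟨hA, hX⟩ := mem_vst_colX.1 hσ
  by_contra hcon
  push_neg at hcon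
  obtain ⟨w₁, hw₁, hσw₁⟩ := hcon
  rw [mem_Wset] at hw₁ hσw₁
  set A := (Wset k p).filter (fun w => σ w ∈ Wset k p) with hAdef
  -- 2 |A| ≤ |W|
  have h2A : 2 * A.card ≤ (Wset k p).card := by
    rcases A.eq_empty_or_nonempty with he | ⟨a₀, ha₀⟩
    · rw [he]; simp
    · have ha₀' := Finset.mem_filter.1 ha₀
      rw [mem_Wset, mem_Wset] at ha₀'
      have hle : A.card ≤ ((Wset k p) \ A).card := by
        apply Finset.card_le_card_of_injOn (fun a => a - a₀ + w₁)
        · intro a ha
          have ha' := Finset.mem_filter.1 (Finset.mem_coe.1 ha)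
          rw [mem_Wset, mem_Wset] at ha'
          apply Finset.mem_coe.2
          have e1 : (σ (a - a₀ + w₁)) (Fin.last k) = (σ w₁) (Fin.last k) := by
            rw [hA, Pi.add_apply, Pi.sub_apply, ha'.2, ha₀'.2]; ring
          have e2 : (a - a₀ + w₁) (Fin.last k) = 0 := by
            rw [Pi.add_apply, Pi.sub_apply, ha'.1, ha₀'.1, hw₁]; ring
          rw [Finset.mem_sdiff, hAdef, Finset.mem_filter, mem_Wset, mem_Wset]
          change (a - a₀ + w₁) (Fin.last k) = 0 ∧ ¬ (_ ∧ (σ (a - a₀ + w₁)) (Fin.last k) = 0)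
          exact ⟨e2, fun h => hσw₁ (by rw [← e1]; exact h.2)⟩
        · intro a _ b _ hab
          have : a - a₀ + w₁ = b - a₀ + w₁ := hab
          have := add_right_cancel this
          exact sub_left_inj.1 this
      have hsub : A ⊆ Wset k p := Finset.filter_subset _ _
      rw [Finset.card_sdiff_of_subset hsub] at hle
      have := Finset.card_le_card hsub
      omega
  -- |W \ E| ≤ |A| + |F|
  have hWE : (Wset k p \ E).card ≤ A.card + F.card := by
    have h1 : (Wset k p \ E) ⊆ A ∪ (F.image σ.symm) := by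
      intro w hw
      have hw' := Finset.mem_sdiff.1 hw
      by_cases hin : σ w ∈ Wset k p
      · exact Finset.mem_union_left _ (Finset.mem_filter.2 ⟨hw'.1, hin⟩)
      · apply Finset.mem_union_right
        have h3 : σ w ∈ (Wset k p \ E) ∪ F := (hX w).2 (Finset.mem_union_left _ hw)
        rcases Finset.mem_union.1 h3 with h4 | h4
        · exact absurd (Finset.mem_sdiff.1 h4).1 hin
        · exact Finset.mem_image.2 ⟨σ w, h4, by simp⟩
    exact (Finset.card_le_card h1).trans ((Finset.card_union_le _ _).trans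
      (Nat.add_le_add_left Finset.card_image_le _))
  have h5 := Finset.le_card_sdiff E (Wset k p)
  rw [card_Wset] at h2A h5
  omega

theorem rec_all {E F : Finset (Fin (k + 1) → ZMod p)} (hE : ∀ v ∈ E, v (Fin.last k) = 0)
    (hF : ∀ v ∈ F, v (Fin.last k) ≠ 0) (hcard : 2 * (E.card + F.card) < p ^ k)
    {σ : Perm (Fin (k + 1) → ZMod p)} (hσ : σ ∈ vst (colX ((Wset k p \ E) ∪ F))) :
    (∀ v, σ v ∈ Wset k p ↔ v ∈ Wset k p) ∧ (∀ v ∈ E, σ v ∈ E) ∧ (∀ v ∈ F, σ v ∈ F) := by
  have hX := (mem_vst_colX.1 hσ).2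
  have hW : ∀ v, σ v ∈ Wset k p ↔ v ∈ Wset k p := by
    intro v
    constructor
    · intro h
      have := rec_W hF hcard ((vst _).inv_mem hσ) (σ v) h
      rwa [← Perm.mul_apply, inv_mul_cancel, Perm.one_apply] at this
    · exact rec_W hF hcard hσ v
  refine ⟨hW, ?_, ?_⟩
  · intro v hv
    have h1 : v ∉ (Wset k p \ E) ∪ F := by
      rw [Finset.mem_union, Finset.mem_sdiff]
      rintro (h | h)
      · exact h.2 hv
      · exact hF v h (hE v hv)
    rw [← hX] at h1
    have h2 : σ v ∈ Wset k p := (hW v).2 (mem_Wset.2 (hE v hv))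
    by_contra h3
    exact h1 (Finset.mem_union_left _ (Finset.mem_sdiff.2 ⟨h2, h3⟩))
  · intro v hv
    have h1 : σ v ∈ (Wset k p \ E) ∪ F := (hX v).2 (Finset.mem_union_right _ hv)
    rcases Finset.mem_union.1 h1 with h | h
    · exfalso
      have := (hW v).1 (Finset.mem_sdiff.1 h).1
      exact hF v hv (mem_Wset.1 this)
    · exact h

theorem card_X {E F : Finset (Fin (k + 1) → ZMod p)} (hE : ∀ v ∈ E, v (Fin.last k) = 0)
    (hF : ∀ v ∈ F, v (Fin.last k) ≠ 0) :
    ((Wset k p \ E) ∪ F).card = p ^ k - E.card + F.card := by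
  rw [Finset.card_union_of_disjoint, Finset.card_sdiff_of_subset, card_Wset]
  · intro v hv; exact mem_Wset.2 (hE v hv)
  · rw [Finset.disjoint_left]
    intro v hv hv'
    exact hF v hv' (mem_Wset.1 (Finset.mem_sdiff.1 hv).1)

end hyper

end Pool.Agent.H80
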