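import Pool.Agent.H80.Col2

set_option autoImplicit false

namespace Pool.Agent.H80

open Equiv
open scoped commutatorElement

theorem NTaff.weaken_d {V : Type*} [AddCommGroup V] {q d d' r : ℕ} (h : NTaff V q d r)
    (hd : d ≤ d') : NTaff V q d' r := by
  obtain ⟨Γ, h1, h2⟩ := h
  exact ⟨Γ, h1, fun i => D_eq_bot_of_le hd (h2 i)⟩

theorem NTaff2_small {V : Type*} [AddCommGroup V] [Fintype V] [DecidableEq V] {n : ℕ}
    (hn : n ≤ 3) (hV : Fintype.card V = n + 1) : NTaff V 2 n (n + 2) := by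
  apply NTaff2_of_Aff
  · have h1 := D_perm_card (Z := V) hn (by rw [Nat.card_eq_fintype_card]; omega)
    have h2 := D_mono (le_top : Aff V ≤ ⊤) n
    rw [h1] at h2
    exact le_bot_iff.1 h2
  · omega

theorem vst_le {V α : Type*} [AddCommGroup V] (Γ : V → α) : vst Γ ≤ Aff V := fun _ h => h.1

variable {p : ℕ} [Fact p.Prime]

theorem NTaff2_line (hp : 5 ≤ p) : NTaff (Fin 1 → ZMod p) 2 3 5 := by
  apply NTaff2_of_Aff (D_eq_bot_of_le (by norm_num) (line_D2 _ le_rfl))
  rw [card_VV, pow_one]; omega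

/-! ### dimension two -/

theorem pl_last : (Fin.last 1 : Fin 2) = 1 := rfl

theorem ev01_ne : (ev 0 : Fin 2 → ZMod p) ≠ ev 1 := fun h => by
  have := ev_inj h
  exact absurd this (by decide)

theorem D_pl_A : D (vst (colX ({0, ev 0} : Finset (Fin 2 → ZMod p)))) 3 = ⊥ := by
  have hc : ({0, ev 0} : Finset (Fin 2 → ZMod p)).card ≤ 1 + 1 := Finset.card_le_two
  apply D_eq_bot_of_le (m := 2) (by norm_num)
  have hmem : ∀ σ ∈ vst (colX ({0, ev 0} : Finset (Fin 2 → ZMod p))),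
      ∀ v ∈ ({0, ev 0} : Finset (Fin 2 → ZMod p)), (σ v) (Fin.last 1) = 0 := by
    intro σ hσ v hv
    have := ((mem_vst_colX.1 hσ).2 v).2 hv
    rw [Finset.mem_insert, Finset.mem_singleton] at this
    rcases this with h | h <;> rw [h]
    · rfl
    · exact ev_ne (by decide)
  apply D_hyper (vst_le _) le_rfl
  · intro σ hσ
    exact hmem σ hσ 0 (by simp)
  · intro σ hσ i hi
    have : i = 0 := by
      fin_cases i
      · rfl
      · exact absurd rfl hi
    rw [this]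
    exact hmem σ hσ _ (by simp)
  · intro σ hσ
    exact D_fix_colX (by norm_num) hc hσ 0 (by simp)
  · intro σ hσ i hi
    have : i = 0 := by
      fin_cases i
      · rfl
      · exact absurd rfl hi
    rw [this]
    exact D_fix_colX (by norm_num) hc hσ _ (by simp)

theorem D_pl_of {X : Finset (Fin 2 → ZMod p)} (hX : X.card ≤ 4) (h0 : 0 ∈ X) (h1 : ev 0 ∈ X)
    (h2 : ev 1 ∈ X) : D (vst (colX X)) 3 = ⊥ := by
  rw [eq_bot_iff]
  intro σ hσ
  rw [Subgroup.mem_bot]
  have hfix := D_fix_colX (n := 3) (by norm_num) (by omega) hσ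
  apply aff_eq_one (D_le _ _ hσ).1 (hfix 0 h0)
  intro i
  fin_cases i
  · exact hfix _ h1
  · exact hfix _ h2

theorem NTaff2_plane (hp : 3 ≤ p) : NTaff (Fin 2 → ZMod p) 2 3 5 := by
  have e0 : (0 : Fin 2 → ZMod p) ≠ ev 0 := (ev_ne_zero _).symm
  have e1 : (0 : Fin 2 → ZMod p) ≠ ev 1 := (ev_ne_zero _).symm
  have e2 := ev01_ne (p := p)
  have e3 : ev 0 + ev 1 ≠ (0 : Fin 2 → ZMod p) := by
    intro h
    have := congrFun h 0
    rw [Pi.add_apply, ev_same, ev_ne (by decide)] at this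
    simp at this
  have e4 : ev 0 + ev 1 ≠ (ev 0 : Fin 2 → ZMod p) := by
    intro h
    exact e1 (left_eq_add.1 h.symm).symm
  have e5 : ev 0 + ev 1 ≠ (ev 1 : Fin 2 → ZMod p) := by
    intro h
    exact e0 (right_eq_add.1 h.symm).symm
  have cA : ({0, ev 0} : Finset (Fin 2 → ZMod p)).card = 2 := by
    rw [Finset.card_insert_of_notMem (by simpa using e0)]; simp
  have cB : ({0, ev 0, ev 1} : Finset (Fin 2 → ZMod p)).card = 3 := by
    rw [Finset.card_insert_of_notMem (by simp [e0, e1]),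
      Finset.card_insert_of_notMem (by simpa using e2)]; simp
  have cC : ({0, ev 0, ev 1, ev 0 + ev 1} : Finset (Fin 2 → ZMod p)).card = 4 := by
    rw [Finset.card_insert_of_notMem (by simp [e0, e1, e3.symm]),
      Finset.card_insert_of_notMem (by simp [e2, e4.symm]),
      Finset.card_insert_of_notMem (by simp [e5.symm])]; simp
  have hp2 : 3 ^ 2 ≤ p ^ 2 := Nat.pow_le_pow_left hp 2
  apply NTaff2_of_three D_pl_A (B := {0, ev 0, ev 1}) (C := {0, ev 0, ev 1, ev 0 + ev 1})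
  · exact D_pl_of (by rw [cB]; norm_num) (by simp) (by simp) (by simp)
  · exact D_pl_of (by rw [cC]) (by simp) (by simp) (by simp)
  · rw [cA, cB, cC, card_VV]
    simp
    omega

/-! ### dimension three, p = 2 -/

theorem D_3A : D (vst (colX ({0, ev 0} : Finset (Fin 3 → ZMod 2)))) 3 = ⊥ := by
  set S := vst (colX ({0, ev 0} : Finset (Fin 3 → ZMod 2))) with hS
  have hmem : ∀ σ ∈ S, ∀ v ∈ ({0, ev 0} : Finset (Fin 3 → ZMod 2)),
      σ v ∈ ({0, ev 0} : Finset (Fin 3 → ZMod 2)) := by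
    intro σ hσ v hv
    exact ((mem_vst_colX.1 hσ).2 v).2 hv
  have hL : ∀ σ ∈ S, σ (ev 0) = σ 0 + ev 0 := by
    intro σ hσ
    have h1 := hmem σ hσ 0 (by simp)
    have h2 := hmem σ hσ (ev 0) (by simp)
    have h3 : σ 0 ≠ σ (ev 0) := fun h => ev_ne_zero (p := 2) 0 (σ.injective h).symm
    rw [Finset.mem_insert, Finset.mem_singleton] at h1 h2
    rcases h1 with h1 | h1 <;> rcases h2 with h2 | h2 <;> rw [h1, h2] at h3 ⊢
    · exact absurd rfl h3
    · simp
    · decide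
    · exact absurd rfl h3
  have hshift : ∀ σ ∈ S, ∀ v, σ (v + ev 0) = σ v + ev 0 := by
    intro σ hσ v
    apply aff_shift (mem_vst_colX.1 hσ).1 v 0 (ev 0)
    rw [zero_add]; exact hL σ hσ
  let q : (Fin 3 → ZMod 2) → ZMod 2 × ZMod 2 := fun v => (v 1, v 2)
  have hq0 : ∀ v w, q v = q w → v = w ∨ v = w + ev 0 := by decide
  have hq1 : ∀ v, q (v + ev 0) = q v := by decide
  have hqs : Function.Surjective q := by
    rintro ⟨a, b⟩
    exact ⟨![0, a, b], rfl⟩
  let U : AddSubgroup (Fin 3 → ZMod 2) :=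
    { carrier := {v | v = 0 ∨ v = ev 0}
      add_mem' := by
        have : ∀ a b : Fin 3 → ZMod 2, (a = 0 ∨ a = ev 0) → (b = 0 ∨ b = ev 0) →
          (a + b = 0 ∨ a + b = ev 0) := by decide
        intro a b ha hb
        exact this a b ha hb
      zero_mem' := Or.inl rfl
      neg_mem' := by
        have : ∀ a : Fin 3 → ZMod 2, (a = 0 ∨ a = ev 0) → (-a = 0 ∨ -a = ev 0) := by decide
        intro a ha
        exact this a ha }
  apply D_flag (n := 2) U
  · intro σ hσ u hu v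
    have hσS := D_le _ _ hσ
    rcases hu with rfl | rfl
    · simp
    · exact hshift σ hσS v
  · intro σ hσ v
    have h1 := D_fixq q hqs (0, 0) (n := 2) (by norm_num) (by decide) (S := S) ?_ ?_ hσ v
    · rcases hq0 _ _ h1 with h | h
      · rw [h]; left; simp
      · rw [h]; right; simp
    · intro τ hτ v w hvw
      rcases hq0 _ _ hvw with h | h
      · rw [h]
      · rw [h, hshift τ hτ, hq1]
    · intro τ hτ v hv
      have : v ∈ ({0, ev 0} : Finset (Fin 3 → ZMod 2)) := by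
        have h2 : ∀ v, q v = (0, 0) → v ∈ ({0, ev 0} : Finset (Fin 3 → ZMod 2)) := by decide
        exact h2 v hv
      have h3 := hmem τ hτ v this
      have h4 : ∀ v ∈ ({0, ev 0} : Finset (Fin 3 → ZMod 2)), q v = (0, 0) := by decide
      exact h4 _ h3

theorem D_3B : D (vst (colX ({0, ev 0, ev 1} : Finset (Fin 3 → ZMod 2)))) 3 = ⊥ := by
  have hc : ({0, ev 0, ev 1} : Finset (Fin 3 → ZMod 2)).card ≤ 2 + 1 := Finset.card_le_three
  have hmem : ∀ σ ∈ vst (colX ({0, ev 0, ev 1} : Finset (Fin 3 → ZMod 2))),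
      ∀ v ∈ ({0, ev 0, ev 1} : Finset (Fin 3 → ZMod 2)), (σ v) (Fin.last 2) = 0 := by
    intro σ hσ v hv
    have h1 := ((mem_vst_colX.1 hσ).2 v).2 hv
    have h2 : ∀ v ∈ ({0, ev 0, ev 1} : Finset (Fin 3 → ZMod 2)), v (Fin.last 2) = 0 := by decide
    exact h2 _ h1
  have hi : ∀ i : Fin 3, i ≠ Fin.last 2 → (ev i : Fin 3 → ZMod 2) ∈
      ({0, ev 0, ev 1} : Finset (Fin 3 → ZMod 2)) := by decide
  apply D_hyper (n := 2) (vst_le _) (by norm_num)
  · intro σ hσ
    exact hmem σ hσ 0 (by simp)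
  · intro σ hσ i h
    exact hmem σ hσ _ (hi i h)
  · intro σ hσ
    exact D_fix_colX (by norm_num) hc hσ 0 (by simp)
  · intro σ hσ i h
    exact D_fix_colX (by norm_num) hc hσ _ (hi i h)

theorem D_3C : D (vst (colX ({0, ev 0, ev 1, ev 2} : Finset (Fin 3 → ZMod 2)))) 3 = ⊥ := by
  rw [eq_bot_iff]
  intro σ hσ
  rw [Subgroup.mem_bot]
  have hfix := D_fix_colX (n := 3) (by norm_num) Finset.card_le_four hσ
  apply aff_eq_one (D_le _ _ hσ).1 (hfix 0 (by simp))
  intro i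
  fin_cases i
  · exact hfix _ (by simp)
  · exact hfix _ (by simp)
  · exact hfix _ (by simp)

theorem NTaff2_three_two : NTaff (Fin 3 → ZMod 2) 2 3 5 := by
  apply NTaff2_of_three D_3A D_3B D_3C
  decide

/-! ### dimension four, p = 2 -/

/-- the coordinate plane in the four-dimensional space -/
def P4 : Finset (Fin 4 → ZMod 2) := {0, ev 0, ev 1, ev 0 + ev 1}

theorem D_4 {S : Subgroup (Perm (Fin 4 → ZMod 2))} (hS : S ≤ Aff _)
    (hP : ∀ σ ∈ S, ∀ v ∈ P4, σ v ∈ P4) : D S 3 = ⊥ := by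
  let q : (Fin 4 → ZMod 2) → ZMod 2 × ZMod 2 := fun v => (v 2, v 3)
  have hqP : ∀ v, q v = (0, 0) ↔ v ∈ P4 := by decide
  have hqs : Function.Surjective q := by
    rintro ⟨a, b⟩
    exact ⟨![0, 0, a, b], rfl⟩
  have hqadd : ∀ v w, q (v + w) = q v + q w := fun v w => rfl
  have hqsub : ∀ v w, q (v - w) = q v - q w := fun v w => rfl
  have hPadd : ∀ a b, a ∈ P4 → b ∈ P4 → a + b ∈ P4 := by
    intro a b ha hb
    rw [← hqP] at ha hb ⊢
    rw [hqadd, ha, hb]; rfl
  have hPsub : ∀ a b, a ∈ P4 → b ∈ P4 → a - b ∈ P4 := by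
    intro a b ha hb
    rw [← hqP] at ha hb ⊢
    rw [hqsub, ha, hb]; rfl
  let U : AddSubgroup (Fin 4 → ZMod 2) :=
    { carrier := {v | v ∈ P4}
      add_mem' := fun {a b} ha hb => hPadd a b ha hb
      zero_mem' := by decide
      neg_mem' := by
        intro a ha
        have := hPsub 0 a (by decide) ha
        rwa [zero_sub] at this }
  have hlin : ∀ σ ∈ S, ∀ u ∈ P4, σ u - σ 0 ∈ P4 := by
    intro σ hσ u hu
    exact hPsub _ _ (hP σ hσ u hu) (hP σ hσ 0 (by decide))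
  apply D_flag (n := 2) U
  · intro σ hσ u hu v
    have hσS := D_le _ _ hσ
    have hsh : ∀ u ∈ P4.erase 0, linHom S hS ⟨σ, hσS⟩ u = u := by
      apply D_fixS (linHom S hS) (n := 2) (by norm_num) (by decide) ?_ hσ
      intro s y hy
      rw [linHom_apply]
      rw [Finset.mem_erase] at hy ⊢
      refine ⟨?_, hlin _ s.2 y hy.2⟩
      intro h
      rw [sub_eq_zero] at h
      exact hy.1 ((s : Perm (Fin 4 → ZMod 2)).injective h)
    by_cases hu0 : u = 0
    · rw [hu0]; simp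
    · apply aff_shift (hS hσS) v 0 u
      have := hsh u (Finset.mem_erase.2 ⟨hu0, hu⟩)
      rw [linHom_apply] at this
      rw [zero_add]
      have h2 : σ u = (σ u - σ 0) + σ 0 := by abel
      rw [h2]
      change (σ u - σ 0) = u at this
      rw [this]; abel
  · intro σ hσ v
    have h1 := D_fixq q hqs (0, 0) (n := 2) (by norm_num) (by decide) (S := S) ?_ ?_ hσ v
    · change σ v - v ∈ P4
      rw [← hqP, hqsub, h1, sub_self]; rfl
    · intro τ hτ v w hvw
      have h2 : v - w ∈ P4 := by rw [← hqP, hqsub, hvw, sub_self]; rfl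
      have h3 := hlin τ hτ _ h2
      have h4 : τ v = τ w + (τ (v - w) - τ 0) := by
        have := aff_add (hS hτ) w (v - w)
        rw [add_sub_cancel] at this
        rw [this]; abel
      rw [h4, hqadd, (hqP _).2 h3]
      exact (add_zero (q (τ w))).symm ▸ rfl
    · intro τ hτ v hv
      exact (hqP _).2 (hP τ hτ v ((hqP v).1 hv))

theorem NTaff2_four_two : NTaff (Fin 4 → ZMod 2) 2 3 5 := by
  have hA : D (vst (colX ({0, ev 0, ev 1} : Finset (Fin 4 → ZMod 2)))) 3 = ⊥ := by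
    apply D_4 (vst_le _)
    intro σ hσ
    have h1 := fun v => ((mem_vst_colX.1 hσ).2 v).2
    have h2 := (mem_vst_colX.1 hσ).1
    have hdir : ∀ a b c : Fin 4 → ZMod 2, a ∈ ({0, ev 0, ev 1} : Finset (Fin 4 → ZMod 2)) →
        b ∈ ({0, ev 0, ev 1} : Finset (Fin 4 → ZMod 2)) →
        c ∈ ({0, ev 0, ev 1} : Finset (Fin 4 → ZMod 2)) → a - b + c ∈ P4 := by
      decide +kernel
    have hP : ∀ v ∈ P4, ∃ a ∈ ({0, ev 0, ev 1} : Finset (Fin 4 → ZMod 2)),
        ∃ b ∈ ({0, ev 0, ev 1} : Finset (Fin 4 → ZMod 2)),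
        ∃ c ∈ ({0, ev 0, ev 1} : Finset (Fin 4 → ZMod 2)), v = a - b + c := by
      decide +kernel
    intro v hv
    obtain ⟨a, ha, b, hb, c, hc, rfl⟩ := hP v hv
    rw [h2]
    exact hdir _ _ _ (h1 a ha) (h1 b hb) (h1 c hc)
  have hB : D (vst (colX P4)) 3 = ⊥ := by
    apply D_4 (vst_le _)
    intro σ hσ v hv
    exact ((mem_vst_colX.1 hσ).2 v).2 hv
  have hC : D (vst (colX (insert (ev 2) P4))) 3 = ⊥ := by
    apply D_4 (vst_le _)
    intro σ hσ
    have h1 := fun v => ((mem_vst_colX.1 hσ).2 v).2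
    have h2 := (mem_vst_colX.1 hσ).1
    -- points of P4 are those which are sums of three other points
    have h3 : ∀ x ∈ insert (ev 2) P4, ∀ a ∈ insert (ev 2) P4, ∀ b ∈ insert (ev 2) P4,
        ∀ c ∈ insert (ev 2) P4, a ≠ x → b ≠ x → c ≠ x → x = a - b + c → x ∈ P4 := by
      decide +kernel
    have h4 : ∀ x ∈ P4, ∃ a ∈ P4, ∃ b ∈ P4, ∃ c ∈ P4, a ≠ x ∧ b ≠ x ∧ c ≠ x ∧ x = a - b + c := by
      decide +kernel
    intro x hx
    obtain ⟨a, ha, b, hb, c, hc, ha', hb', hc', he⟩ := h4 x hx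
    refine h3 (σ x) (h1 x (Finset.mem_insert_of_mem hx)) (σ a) (h1 a (Finset.mem_insert_of_mem ha))
      (σ b) (h1 b (Finset.mem_insert_of_mem hb)) (σ c) (h1 c (Finset.mem_insert_of_mem hc))
      (fun h => ha' (σ.injective h)) (fun h => hb' (σ.injective h)) (fun h => hc' (σ.injective h)) ?_
    rw [he, h2]
  apply NTaff2_of_three hA hB hC
  decide +kernel

end Pool.Agent.H80
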