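import Pool.Agent.H80.Col2b

set_option autoImplicit false

namespace Pool.Agent.H80

open Equiv
open scoped commutatorElement

section rec
variable {p k : ℕ} [Fact p.Prime]

/-- if `E` and `F` are recognisable and both have at most four points, and together affinely span -/
theorem D_rec_small {E F : Finset (Fin (k + 1) → ZMod p)} (hE : ∀ v ∈ E, v (Fin.last k) = 0)
    (hF : ∀ v ∈ F, v (Fin.last k) ≠ 0) (hcard : 2 * (E.card + F.card) < p ^ k)
    (hE4 : E.card ≤ 4) (hF4 : F.card ≤ 4)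
    (hspan : ∀ σ ∈ Aff (Fin (k + 1) → ZMod p), (∀ v ∈ E, σ v = v) → (∀ v ∈ F, σ v = v) →
      σ = 1) : D (vst (colX ((Wset k p \ E) ∪ F))) 3 = ⊥ := by
  rw [eq_bot_iff]
  intro σ hσ
  rw [Subgroup.mem_bot]
  apply hspan σ (D_le _ _ hσ).1
  · apply D_fix (MonoidHom.id _) (n := 3) (by norm_num) (by omega) ?_ hσ
    intro s hs y hy
    exact (rec_all hE hF hcard hs).2.1 y hy
  · apply D_fix (MonoidHom.id _) (n := 3) (by norm_num) (by omega) ?_ hσ
    intro s hs y hy
    exact (rec_all hE hF hcard hs).2.2 y hy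

end rec

section dim3
variable {p : ℕ} [Fact p.Prime]

theorem ev3_ne {i j : Fin 3} (h : i ≠ j) : (ev i : Fin 3 → ZMod p) ≠ ev j :=
  fun hh => h (ev_inj hh)

theorem NTaff2_three_odd (hp : 3 ≤ p) : NTaff (Fin 3 → ZMod p) 2 3 5 := by
  have hp2 : 3 ^ 2 ≤ p ^ 2 := Nat.pow_le_pow_left hp 2
  have hp3 : 3 * p ^ 2 ≤ p ^ 3 := by
    calc 3 * p ^ 2 ≤ p * p ^ 2 := Nat.mul_le_mul_right _ hp
      _ = p ^ 3 := by ring
  have l2 : (Fin.last 2 : Fin 3) = 2 := rfl
  have e02 : (ev 0 : Fin 3 → ZMod p) 2 = 0 := ev_ne (by decide)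
  have e12 : (ev 1 : Fin 3 → ZMod p) 2 = 0 := ev_ne (by decide)
  have z0 : (0 : Fin 3 → ZMod p) ≠ ev 0 := (ev_ne_zero _).symm
  have z1 : (0 : Fin 3 → ZMod p) ≠ ev 1 := (ev_ne_zero _).symm
  have z01 : (ev 0 : Fin 3 → ZMod p) ≠ ev 1 := ev3_ne (by decide)
  -- the three pairs
  have main : ∀ E F : Finset (Fin 3 → ZMod p), (∀ v ∈ E, v (Fin.last 2) = 0) →
      (∀ v ∈ F, v (Fin.last 2) ≠ 0) → E.card + F.card = 4 →
      (∀ σ ∈ Aff (Fin 3 → ZMod p), (∀ v ∈ E, σ v = v) → (∀ v ∈ F, σ v = v) → σ = 1) →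
      D (vst (colX ((Wset 2 p \ E) ∪ F))) 3 = ⊥ := by
    intro E F hE hF hc hs
    exact D_rec_small hE hF (by omega) (by omega) (by omega) hs
  have spanning : ∀ σ ∈ Aff (Fin 3 → ZMod p), σ 0 = 0 → σ (ev 0) = ev 0 → σ (ev 1) = ev 1 →
      σ (ev 2) = ev 2 → σ = 1 := by
    intro σ hσ h h0 h1 h2
    apply aff_eq_one hσ h
    intro i
    fin_cases i
    · exact h0
    · exact h1
    · exact h2
  have cE1 : ({0} : Finset (Fin 3 → ZMod p)).card = 1 := Finset.card_singleton _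
  have cE2 : ({0, ev 0} : Finset (Fin 3 → ZMod p)).card = 2 := by
    rw [Finset.card_insert_of_notMem (by simpa using z0)]; simp
  have cE3 : ({0, ev 0, ev 1} : Finset (Fin 3 → ZMod p)).card = 3 := by
    rw [Finset.card_insert_of_notMem (by simp [z0, z1]),
      Finset.card_insert_of_notMem (by simpa using z01)]; simp
  have cF1 : ({ev 2} : Finset (Fin 3 → ZMod p)).card = 1 := Finset.card_singleton _
  have cF2 : ({ev 2, ev 2 + ev 1} : Finset (Fin 3 → ZMod p)).card = 2 := by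
    rw [Finset.card_insert_of_notMem (by
      rw [Finset.mem_singleton]
      intro h
      exact z1 (left_eq_add.1 h).symm)]; simp
  have cF3 : ({ev 2, ev 2 + ev 0, ev 2 + ev 1} : Finset (Fin 3 → ZMod p)).card = 3 := by
    rw [Finset.card_insert_of_notMem (by
      rw [Finset.mem_insert, Finset.mem_singleton]
      rintro (h | h)
      · exact z0 (left_eq_add.1 h).symm
      · exact z1 (left_eq_add.1 h).symm),
      Finset.card_insert_of_notMem (by
      rw [Finset.mem_singleton]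
      intro h
      exact z01 (add_left_cancel h))]; simp
  have hE1 : ∀ v ∈ ({0} : Finset (Fin 3 → ZMod p)), v (Fin.last 2) = 0 := by
    intro v hv; rw [Finset.mem_singleton] at hv; rw [hv]; rfl
  have hE2 : ∀ v ∈ ({0, ev 0} : Finset (Fin 3 → ZMod p)), v (Fin.last 2) = 0 := by
    intro v hv; rw [Finset.mem_insert, Finset.mem_singleton] at hv
    rcases hv with h | h <;> rw [h]
    · rfl
    · exact e02
  have hE3 : ∀ v ∈ ({0, ev 0, ev 1} : Finset (Fin 3 → ZMod p)), v (Fin.last 2) = 0 := by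
    intro v hv; rw [Finset.mem_insert, Finset.mem_insert, Finset.mem_singleton] at hv
    rcases hv with h | h | h <;> rw [h]
    · rfl
    · exact e02
    · exact e12
  have hF1 : ∀ v ∈ ({ev 2} : Finset (Fin 3 → ZMod p)), v (Fin.last 2) ≠ 0 := by
    intro v hv; rw [Finset.mem_singleton] at hv; rw [hv, l2, ev_same]; exact one_ne_zero
  have hF2 : ∀ v ∈ ({ev 2, ev 2 + ev 1} : Finset (Fin 3 → ZMod p)), v (Fin.last 2) ≠ 0 := by
    intro v hv; rw [Finset.mem_insert, Finset.mem_singleton] at hv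
    rcases hv with h | h <;> rw [h, l2]
    · rw [ev_same]; exact one_ne_zero
    · rw [Pi.add_apply, ev_same, e12, add_zero]; exact one_ne_zero
  have hF3 : ∀ v ∈ ({ev 2, ev 2 + ev 0, ev 2 + ev 1} : Finset (Fin 3 → ZMod p)),
      v (Fin.last 2) ≠ 0 := by
    intro v hv; rw [Finset.mem_insert, Finset.mem_insert, Finset.mem_singleton] at hv
    rcases hv with h | h | h <;> rw [h, l2]
    · rw [ev_same]; exact one_ne_zero
    · rw [Pi.add_apply, ev_same, e02, add_zero]; exact one_ne_zero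
    · rw [Pi.add_apply, ev_same, e12, add_zero]; exact one_ne_zero
  have dA := main {0} {ev 2, ev 2 + ev 0, ev 2 + ev 1} hE1 hF3 (by rw [cE1, cF3]) (by
    intro σ hσ hE hF
    have a0 := hE 0 (by simp)
    have a2 := hF (ev 2) (by simp)
    have b0 := hF (ev 2 + ev 0) (by simp)
    have b1 := hF (ev 2 + ev 1) (by simp)
    have c0 := aff_fix3 hσ b0 a2 a0
    have c1 := aff_fix3 hσ b1 a2 a0
    rw [add_sub_cancel_left, add_zero] at c0 c1
    exact spanning σ hσ a0 c0 c1 a2)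
  have dB := main {0, ev 0} {ev 2, ev 2 + ev 1} hE2 hF2 (by rw [cE2, cF2]) (by
    intro σ hσ hE hF
    have a0 := hE 0 (by simp)
    have c0 := hE (ev 0) (by simp)
    have a2 := hF (ev 2) (by simp)
    have b1 := hF (ev 2 + ev 1) (by simp)
    have c1 := aff_fix3 hσ b1 a2 a0
    rw [add_sub_cancel_left, add_zero] at c1
    exact spanning σ hσ a0 c0 c1 a2)
  have dC := main {0, ev 0, ev 1} {ev 2} hE3 hF1 (by rw [cE3, cF1]) (by
    intro σ hσ hE hF
    exact spanning σ hσ (hE 0 (by simp)) (hE (ev 0) (by simp)) (hE (ev 1) (by simp))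
      (hF (ev 2) (by simp)))
  apply NTaff2_of_three dB dC dA
  rw [card_X hE1 hF3, card_X hE2 hF2, card_X hE3 hF1, cE1, cE2, cE3, cF1, cF2, cF3, card_VV]
  simp
  omega

end dim3

/-! ### dimension five, p = 2 -/

theorem NTaff2_five_two : NTaff (Fin 5 → ZMod 2) 2 3 5 := by
  let E1 : Finset (Fin 5 → ZMod 2) := {0, ev 0, ev 1, ev 2}
  let E2 : Finset (Fin 5 → ZMod 2) := {0, ev 0, ev 1}
  let F1 : Finset (Fin 5 → ZMod 2) := {ev 4, ev 4 + ev 3}
  let F2 : Finset (Fin 5 → ZMod 2) := {ev 4, ev 4 + ev 3, ev 4 + ev 0}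
  let F3 : Finset (Fin 5 → ZMod 2) := {ev 4, ev 4 + ev 3, ev 4 + ev 2}
  have cE1 : E1.card = 4 := by decide
  have cE2 : E2.card = 3 := by decide
  have cF1 : F1.card = 2 := by decide
  have cF2 : F2.card = 3 := by decide
  have cF3 : F3.card = 3 := by decide
  have hE1 : ∀ v ∈ E1, v (Fin.last 4) = 0 := by decide
  have hE2 : ∀ v ∈ E2, v (Fin.last 4) = 0 := by decide
  have hF1 : ∀ v ∈ F1, v (Fin.last 4) ≠ 0 := by decide
  have hF2 : ∀ v ∈ F2, v (Fin.last 4) ≠ 0 := by decide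
  have hF3 : ∀ v ∈ F3, v (Fin.last 4) ≠ 0 := by decide
  have spanning : ∀ σ ∈ Aff (Fin 5 → ZMod 2), σ 0 = 0 → σ (ev 0) = ev 0 → σ (ev 1) = ev 1 →
      σ (ev 2) = ev 2 → σ (ev 3) = ev 3 → σ (ev 4) = ev 4 → σ = 1 := by
    intro σ hσ h h0 h1 h2 h3 h4
    apply aff_eq_one hσ h
    intro i
    fin_cases i
    · exact h0
    · exact h1
    · exact h2
    · exact h3
    · exact h4
  have dA : D (vst (colX ((Wset 4 2 \ E1) ∪ F1))) 3 = ⊥ := by
    apply D_rec_small hE1 hF1 (by rw [cE1, cF1]; norm_num) (by omega) (by omega)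
    intro σ hσ hE hF
    have a0 := hE 0 (by simp [E1])
    have a4 := hF (ev 4) (by simp [F1])
    have c3 := aff_fix3 hσ (hF (ev 4 + ev 3) (by simp [F1])) a4 a0
    rw [add_sub_cancel_left, add_zero] at c3
    exact spanning σ hσ a0 (hE _ (by simp [E1])) (hE _ (by simp [E1])) (hE _ (by simp [E1])) c3 a4
  have dB : D (vst (colX ((Wset 4 2 \ E1) ∪ F2))) 3 = ⊥ := by
    apply D_rec_small hE1 hF2 (by rw [cE1, cF2]; norm_num) (by omega) (by omega)
    intro σ hσ hE hF
    have a0 := hE 0 (by simp [E1])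
    have a4 := hF (ev 4) (by simp [F2])
    have c3 := aff_fix3 hσ (hF (ev 4 + ev 3) (by simp [F2])) a4 a0
    rw [add_sub_cancel_left, add_zero] at c3
    exact spanning σ hσ a0 (hE _ (by simp [E1])) (hE _ (by simp [E1])) (hE _ (by simp [E1])) c3 a4
  have dC : D (vst (colX ((Wset 4 2 \ E2) ∪ F3))) 3 = ⊥ := by
    apply D_rec_small hE2 hF3 (by rw [cE2, cF3]; norm_num) (by omega) (by omega)
    intro σ hσ hE hF
    have a0 := hE 0 (by simp [E2])
    have a4 := hF (ev 4) (by simp [F3])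
    have c3 := aff_fix3 hσ (hF (ev 4 + ev 3) (by simp [F3])) a4 a0
    have c2 := aff_fix3 hσ (hF (ev 4 + ev 2) (by simp [F3])) a4 a0
    rw [add_sub_cancel_left, add_zero] at c3 c2
    exact spanning σ hσ a0 (hE _ (by simp [E2])) (hE _ (by simp [E2])) c2 c3 a4
  apply NTaff2_of_three dA dB dC
  rw [card_X hE1 hF1, card_X hE1 hF2, card_X hE2 hF3, cE1, cE2, cF1, cF2, cF3, card_VV]
  decide

end Pool.Agent.H80
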