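import Pool.Agent.H80.Col2c

set_option autoImplicit false

namespace Pool.Agent.H80

open Equiv
open scoped commutatorElement

section gen
variable {p k : ℕ} [Fact p.Prime]

/-- the frame of the hyperplane -/
def EE (k p : ℕ) [Fact p.Prime] : Finset (Fin (k + 1) → ZMod p) :=
  insert 0 ((Finset.univ.filter (fun i : Fin (k + 1) => i ≠ Fin.last k)).image ev)

/-- translated partial sums -/
def FF (k p m : ℕ) [Fact p.Prime] : Finset (Fin (k + 1) → ZMod p) :=
  (Finset.range (m + 1)).image (fun j => ev (Fin.last k) + sv (k + 1) p j)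

theorem mem_EE {v : Fin (k + 1) → ZMod p} :
    v ∈ EE k p ↔ v = 0 ∨ ∃ i, i ≠ Fin.last k ∧ v = ev i := by
  simp [EE, eq_comm]

theorem mem_FF {m : ℕ} {v : Fin (k + 1) → ZMod p} :
    v ∈ FF k p m ↔ ∃ j, j ≤ m ∧ v = ev (Fin.last k) + sv (k + 1) p j := by
  simp [FF, eq_comm, Nat.lt_succ_iff]

theorem card_EE : (EE k p).card = k + 1 := by
  rw [EE, Finset.card_insert_of_notMem, Finset.card_image_of_injective _ ev_inj,
    Finset.filter_ne' , Finset.card_erase_of_mem (Finset.mem_univ _), Finset.card_univ,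
    Fintype.card_fin]
  · omega
  · intro h
    obtain ⟨i, _, hi⟩ := Finset.mem_image.1 h
    exact ev_ne_zero i hi

theorem card_FF {m : ℕ} (hm : m ≤ k) : (FF k p m).card = m + 1 := by
  rw [FF, Finset.card_image_of_injOn, Finset.card_range]
  intro a ha b hb hab
  have ha' := Finset.mem_range.1 (Finset.mem_coe.1 ha)
  have hb' := Finset.mem_range.1 (Finset.mem_coe.1 hb)
  exact sv_inj (by omega) (by omega) (add_left_cancel hab)

theorem EE_last : ∀ v ∈ EE k p, v (Fin.last k) = 0 := by
  intro v hv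
  rcases mem_EE.1 hv with h | ⟨i, hi, h⟩
  · rw [h]; rfl
  · rw [h]; exact ev_ne hi.symm

theorem FF_last_eq {m : ℕ} (hm : m ≤ k) : ∀ v ∈ FF k p m, v (Fin.last k) = 1 := by
  intro v hv
  obtain ⟨j, hj, rfl⟩ := mem_FF.1 hv
  rw [Pi.add_apply, ev_same, sv_apply, if_neg, add_zero]
  rw [Fin.val_last]; omega

theorem FF_last {m : ℕ} (hm : m ≤ k) : ∀ v ∈ FF k p m, v (Fin.last k) ≠ 0 := by
  intro v hv
  rw [FF_last_eq hm v hv]; exact one_ne_zero

theorem FF_coord {m j : ℕ} {i : Fin (k + 1)} (hi : i ≠ Fin.last k) :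
    (ev (Fin.last k) + sv (k + 1) p j : Fin (k + 1) → ZMod p) i = if (i : ℕ) < j then 1 else 0 := by
  rw [Pi.add_apply, ev_ne hi, zero_add, sv_apply]

theorem FF_01 {m : ℕ} {i : Fin (k + 1)} (hi : i ≠ Fin.last k) :
    ∀ v ∈ FF k p m, v i = 0 ∨ v i = 1 := by
  intro v hv
  obtain ⟨j, hj, rfl⟩ := mem_FF.1 hv
  rw [FF_coord (m := m) hi]
  split_ifs <;> simp

theorem card_ZZ {m : ℕ} (hm : m ≤ k) {i : Fin (k + 1)} (hi : i ≠ Fin.last k) :
    ((FF k p m).filter (fun u => u i = 0)).card = min (i : ℕ) m + 1 := by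
  have h1 : (FF k p m).filter (fun u => u i = 0) =
      (Finset.range (min (i : ℕ) m + 1)).image (fun j => ev (Fin.last k) + sv (k + 1) p j) := by
    ext u
    rw [Finset.mem_filter, mem_FF, Finset.mem_image]
    constructor
    · rintro ⟨⟨j, hj, rfl⟩, h⟩
      rw [FF_coord (m := m) hi] at h
      refine ⟨j, ?_, rfl⟩
      rw [Finset.mem_range]
      by_contra hcon
      rw [if_pos (by omega)] at h
      exact one_ne_zero h
    · rintro ⟨j, hj, rfl⟩
      rw [Finset.mem_range] at hj
      refine ⟨⟨j, by omega, rfl⟩, ?_⟩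
      rw [FF_coord (m := m) hi, if_neg (by omega)]
  rw [h1, Finset.card_image_of_injOn, Finset.card_range]
  intro a ha b hb hab
  have ha' := Finset.mem_range.1 (Finset.mem_coe.1 ha)
  have hb' := Finset.mem_range.1 (Finset.mem_coe.1 hb)
  exact sv_inj (by omega) (by omega) (add_left_cancel hab)

theorem key_FF {m : ℕ} (hm : m ≤ k) (hcard : 2 * ((EE k p).card + (FF k p m).card) < p ^ k)
    {σ : Perm (Fin (k + 1) → ZMod p)}
    (hσ : σ ∈ vst (colX ((Wset k p \ EE k p) ∪ FF k p m))) {i l : Fin (k + 1)}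
    (hi : i ≠ Fin.last k) (hl : l ≠ Fin.last k) (hil : σ (ev i) = ev l) :
    min (l : ℕ) m = min (i : ℕ) m ∨ min (l : ℕ) m + min (i : ℕ) m + 1 = m := by
  obtain ⟨_, hE, hF⟩ := rec_all EE_last (FF_last hm) hcard hσ
  have hA := hσ.1
  have hcoord : ∀ u ∈ FF k p m, ∀ v ∈ FF k p m, (σ u) l - (σ v) l = u i - v i := by
    intro u hu v hv
    have := aff_coord hA (fun j => j ≠ Fin.last k) (mem_EE.1 (hE 0 (mem_EE.2 (Or.inl rfl))))
      (fun j hj => mem_EE.1 (hE _ (mem_EE.2 (Or.inr ⟨j, hj, rfl⟩)))) hil u v (by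
        intro j hj
        have : j = Fin.last k := by
          by_contra h; exact hj h
        rw [this, FF_last_eq hm u hu, FF_last_eq hm v hv])
    rw [Pi.sub_apply] at this
    exact this
  set u₀ : Fin (k + 1) → ZMod p := ev (Fin.last k) + sv (k + 1) p 0 with hu₀
  have hu₀F : u₀ ∈ FF k p m := mem_FF.2 ⟨0, Nat.zero_le _, rfl⟩
  have hu₀i : u₀ i = 0 := by
    rw [hu₀, FF_coord (m := m) hi]; simp
  have hcardF := card_FF (p := p) hm
  have hZi := card_ZZ (p := p) hm hi
  have hZl := card_ZZ (p := p) hm hl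
  have hci := Finset.card_filter_add_card_filter_not (s := FF k p m) (fun u => u i = 0)
  have hcl := Finset.card_filter_add_card_filter_not (s := FF k p m) (fun u => u l = 0)
  rcases FF_01 hl _ (hF u₀ hu₀F) with h0 | h1
  · -- coordinates agree
    have hc : ∀ u ∈ FF k p m, (σ u) l = u i := by
      intro u hu
      have := hcoord u hu u₀ hu₀F
      rwa [h0, hu₀i, sub_zero, sub_zero] at this
    have a1 : ((FF k p m).filter (fun u => u i = 0)).card ≤
        ((FF k p m).filter (fun u => u l = 0)).card := by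
      apply Finset.card_le_card_of_injOn (fun u => σ u)
      · intro u hu
        have hu' := Finset.mem_filter.1 (Finset.mem_coe.1 hu)
        apply Finset.mem_coe.2
        apply Finset.mem_filter.2
        refine ⟨hF u hu'.1, ?_⟩
        change (σ u) l = 0
        rw [hc u hu'.1]; exact hu'.2
      · exact fun a _ b _ hab => σ.injective hab
    have a2 : ((FF k p m).filter (fun u => ¬ u i = 0)).card ≤
        ((FF k p m).filter (fun u => ¬ u l = 0)).card := by
      apply Finset.card_le_card_of_injOn (fun u => σ u)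
      · intro u hu
        have hu' := Finset.mem_filter.1 (Finset.mem_coe.1 hu)
        apply Finset.mem_coe.2
        apply Finset.mem_filter.2
        refine ⟨hF u hu'.1, ?_⟩
        change ¬ (σ u) l = 0
        rw [hc u hu'.1]; exact hu'.2
      · exact fun a _ b _ hab => σ.injective hab
    left
    omega
  · have hc : ∀ u ∈ FF k p m, (σ u) l = u i + 1 := by
      intro u hu
      have := hcoord u hu u₀ hu₀F
      rw [h1, hu₀i, sub_zero] at this
      rw [← this]; ring
    have a1 : ((FF k p m).filter (fun u => u i = 0)).card ≤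
        ((FF k p m).filter (fun u => ¬ u l = 0)).card := by
      apply Finset.card_le_card_of_injOn (fun u => σ u)
      · intro u hu
        have hu' := Finset.mem_filter.1 (Finset.mem_coe.1 hu)
        apply Finset.mem_coe.2
        apply Finset.mem_filter.2
        refine ⟨hF u hu'.1, ?_⟩
        change ¬ (σ u) l = 0
        rw [hc u hu'.1, hu'.2, zero_add]; exact one_ne_zero
      · exact fun a _ b _ hab => σ.injective hab
    have a2 : ((FF k p m).filter (fun u => ¬ u i = 0)).card ≤
        ((FF k p m).filter (fun u => u l = 0)).card := by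
      apply Finset.card_le_card_of_injOn (fun u => σ u)
      · intro u hu
        have hu' := Finset.mem_filter.1 (Finset.mem_coe.1 hu)
        apply Finset.mem_coe.2
        apply Finset.mem_filter.2
        refine ⟨hF u hu'.1, ?_⟩
        change (σ u) l = 0
        have h3 : u i = 1 := (FF_01 hi u hu'.1).resolve_left hu'.2
        have h4 := hc u hu'.1
        rw [h3] at h4
        rcases FF_01 hl _ (hF u hu'.1) with h5 | h5
        · exact h5
        · exfalso
          rw [h5] at h4
          have : (1 : ZMod p) = 0 := (left_eq_add.1 h4)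
          exact one_ne_zero this
      · exact fun a _ b _ hab => σ.injective hab
    right
    omega

theorem card_orb {m : ℕ} (hm : m ≤ k) (hm2 : k ≤ m + 2) (i : Fin (k + 1)) (hi : i ≠ Fin.last k) :
    (Finset.univ.filter (fun l : Fin (k + 1) => l ≠ Fin.last k ∧
      (min (l : ℕ) m = min (i : ℕ) m ∨ min (l : ℕ) m + min (i : ℕ) m + 1 = m))).card ≤ 2 := by
  have hik : (i : ℕ) < k := by
    have := i.2
    have h2 : (i : ℕ) ≠ k := fun h => hi (Fin.ext (by rw [Fin.val_last]; exact h))
    omega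
  have h1 : ((Finset.univ.filter (fun l : Fin (k + 1) => l ≠ Fin.last k ∧
      (min (l : ℕ) m = min (i : ℕ) m ∨ min (l : ℕ) m + min (i : ℕ) m + 1 = m))).image
      (fun l : Fin (k + 1) => (l : ℕ))) ⊆
      (if (i : ℕ) < m then {(i : ℕ), m - 1 - i} else {m, m + 1}) := by
    intro x hx
    obtain ⟨l, hl, rfl⟩ := Finset.mem_image.1 hx
    obtain ⟨_, hl1, hl2⟩ := Finset.mem_filter.1 hl
    have hlk : (l : ℕ) < k := by
      have := l.2
      have h2 : (l : ℕ) ≠ k := fun h => hl1 (Fin.ext (by rw [Fin.val_last]; exact h))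
      omega
    split_ifs with h
    · simp only [Finset.mem_insert, Finset.mem_singleton]
      omega
    · simp only [Finset.mem_insert, Finset.mem_singleton]
      omega
  have h2 := Finset.card_le_card h1
  rw [Finset.card_image_of_injective _ Fin.val_injective] at h2
  refine h2.trans ?_
  split_ifs
  · exact Finset.card_le_two
  · exact Finset.card_le_two

theorem D_gen {m : ℕ} (hm : m ≤ k) (hm2 : k ≤ m + 2)
    (hcard : 2 * ((EE k p).card + (FF k p m).card) < p ^ k) :
    D (vst (colX ((Wset k p \ EE k p) ∪ FF k p m))) 3 = ⊥ := by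
  have hfi : ∀ σ ∈ D (vst (colX ((Wset k p \ EE k p) ∪ FF k p m))) 2,
      ∀ i, i ≠ Fin.last k → σ (ev i) = ev i := by
    intro x hx i hi
    apply D_fix_orbit (MonoidHom.id (Perm (Fin (k + 1) → ZMod p))) (n := 2) (by norm_num) (ev i)
      (insert 0 ((Finset.univ.filter (fun l : Fin (k + 1) => l ≠ Fin.last k ∧
      (min (l : ℕ) m = min (i : ℕ) m ∨ min (l : ℕ) m + min (i : ℕ) m + 1 = m))).image ev)) ?_ ?_ hx
    · have h1 := card_orb hm hm2 i hi
      refine (Finset.card_insert_le _ _).trans ?_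
      have := (Finset.card_image_le (s := Finset.univ.filter (fun l : Fin (k + 1) => l ≠ Fin.last k ∧
      (min (l : ℕ) m = min (i : ℕ) m ∨ min (l : ℕ) m + min (i : ℕ) m + 1 = m)))
        (f := (ev : Fin (k + 1) → Fin (k + 1) → ZMod p)))
      omega
    · intro σ hσ
      obtain ⟨_, hE, hF⟩ := rec_all EE_last (FF_last hm) hcard hσ
      change σ (ev i) ∈ _
      rw [Finset.mem_insert]
      rcases mem_EE.1 (hE _ (mem_EE.2 (Or.inr ⟨i, hi, rfl⟩))) with h | ⟨l, hl, h⟩
      · exact Or.inl h
      · right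
        rw [h]
        exact Finset.mem_image.2 ⟨l, Finset.mem_filter.2 ⟨Finset.mem_univ _, hl,
          key_FF hm hcard hσ hi hl h⟩, rfl⟩
  apply D_hyper (n := 2) (vst_le _) (by norm_num)
  · intro σ hσ
    obtain ⟨_, hE, hF⟩ := rec_all EE_last (FF_last hm) hcard hσ
    exact EE_last _ (hE 0 (mem_EE.2 (Or.inl rfl)))
  · intro σ hσ i hi
    obtain ⟨_, hE, hF⟩ := rec_all EE_last (FF_last hm) hcard hσ
    exact EE_last _ (hE _ (mem_EE.2 (Or.inr ⟨i, hi, rfl⟩)))
  · intro σ hσ
    obtain ⟨_, hE, hF⟩ := rec_all EE_last (FF_last hm) hcard (D_le _ _ hσ)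
    rcases mem_EE.1 (hE 0 (mem_EE.2 (Or.inl rfl))) with h | ⟨l, hl, h⟩
    · exact h
    · exfalso
      rw [← hfi σ hσ l hl] at h
      exact ev_ne_zero l (σ.injective h).symm
  · exact hfi

theorem NTaff2_gen (hk : 2 ≤ k) (hpk : 4 * (k + 1) < p ^ k) :
    NTaff (Fin (k + 1) → ZMod p) 2 3 5 := by
  have hp := two_le_p (p := p)
  have cE := card_EE (k := k) (p := p)
  have c0 := card_FF (k := k) (p := p) (m := k) le_rfl
  have c1 := card_FF (k := k) (p := p) (m := k - 1) (by omega)
  have c2 := card_FF (k := k) (p := p) (m := k - 2) (by omega)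
  have d0 := D_gen (k := k) (p := p) (m := k) le_rfl (by omega) (by rw [cE, c0]; omega)
  have d1 := D_gen (k := k) (p := p) (m := k - 1) (by omega) (by omega) (by rw [cE, c1]; omega)
  have d2 := D_gen (k := k) (p := p) (m := k - 2) (by omega) (by omega) (by rw [cE, c2]; omega)
  apply NTaff2_of_three d1 d2 d0
  rw [card_X EE_last (FF_last (by omega)), card_X EE_last (FF_last (by omega)),
    card_X EE_last (FF_last (by omega)), cE, c0, c1, c2, card_VV]
  have h2 : 2 * p ^ k ≤ p ^ (k + 1) := by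
    rw [pow_succ, mul_comm]
    exact Nat.mul_le_mul_left _ hp
  simp
  omega

theorem pow_bound2 (k : ℕ) : 4 * (k + 5 + 1) < 2 ^ (k + 5) := by
  induction k with
  | zero => norm_num
  | succ n ih => rw [show n + 1 + 5 = (n + 5) + 1 by ring, pow_succ]; omega

theorem pow_bound3 (k : ℕ) : 4 * (k + 3 + 1) < 3 ^ (k + 3) := by
  induction k with
  | zero => norm_num
  | succ n ih => rw [show n + 1 + 3 = (n + 3) + 1 by ring, pow_succ]; omega

/-- two colours: every affine space with at least four points -/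
theorem NTaff2 {k : ℕ} (hk : 0 < k) (h4 : 4 ≤ p ^ k) : NTaff (Fin k → ZMod p) 2 3 5 := by
  have hp := two_le_p (p := p)
  have hp23 : p = 2 ∨ 3 ≤ p := by omega
  rcases hp23 with rfl | hp3
  · have hcases : k = 1 ∨ k = 2 ∨ k = 3 ∨ k = 4 ∨ k = 5 ∨ 6 ≤ k := by omega
    rcases hcases with rfl | rfl | rfl | rfl | rfl | h6
    · norm_num at h4
    · exact NTaff2_small (V := Fin 2 → ZMod 2) (n := 3) le_rfl (by rw [card_VV]; norm_num)
    · exact NTaff2_three_two
    · exact NTaff2_four_two
    · exact NTaff2_five_two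
    · obtain ⟨m, rfl⟩ := Nat.exists_eq_add_of_le h6
      have := NTaff2_gen (p := 2) (k := m + 5) (by omega) (pow_bound2 m)
      rwa [show m + 5 + 1 = 6 + m by ring] at this
  · have hcases : k = 1 ∨ k = 2 ∨ k = 3 ∨ 4 ≤ k := by omega
    rcases hcases with rfl | rfl | rfl | h6
    · rw [pow_one] at h4
      have hp5 : 5 ≤ p := by
        by_contra hcon
        have : p = 4 := by omega
        have hpr : p.Prime := Fact.out
        rw [this] at hpr
        exact absurd hpr (by norm_num)
      exact NTaff2_line hp5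
    · exact NTaff2_plane hp3
    · exact NTaff2_three_odd hp3
    · obtain ⟨m, rfl⟩ := Nat.exists_eq_add_of_le h6
      have hb : 4 * (m + 3 + 1) < p ^ (m + 3) :=
        lt_of_lt_of_le (pow_bound3 m) (Nat.pow_le_pow_left hp3 _)
      have := NTaff2_gen (p := p) (k := m + 3) (by omega) hb
      rwa [show m + 3 + 1 = 4 + m by ring] at this

end gen

end Pool.Agent.H80
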