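import Pool.Agent.H80.Gen

set_option autoImplicit false

namespace Pool.Agent.H80

open Equiv
open scoped commutatorElement

section
variable {V : Type*} [AddCommGroup V] [Fintype V] [DecidableEq V]

theorem NTaff_of_cnt {q d r : ℕ} (Γ : Fin r → V → Fin q)
    (h1 : ∀ i j, (∀ c, cnt (Γ j) c = cnt (Γ i) c) → i = j)
    (h2 : ∀ i, D (vst (Γ i)) d = ⊥) : NTaff V q d r :=
  ⟨Γ, fun i j σ _ h => h1 i j (cnt_eq h), h2⟩

theorem NTaff_of_perm {q d r : ℕ} (Γ : V → Fin q) (π : Fin r → Perm (Fin q))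
    (h1 : ∀ i j, (∀ c, cnt Γ ((π j)⁻¹ c) = cnt Γ ((π i)⁻¹ c)) → i = j)
    (h2 : D (vst Γ) d = ⊥) : NTaff V q d r := by
  apply NTaff_of_cnt (fun i v => π i (Γ v))
  · intro i j h
    apply h1 i j
    intro c
    have := h c
    rwa [cnt_perm, cnt_perm] at this
  · intro i
    rw [vst_perm]; exact h2

theorem sum_cnt {q : ℕ} (Γ : V → Fin q) : ∑ c, cnt Γ c = Fintype.card V := by
  unfold cnt
  rw [← Finset.card_univ]
  exact (Finset.card_eq_sum_card_fiberwise (fun v _ => Finset.mem_univ (Γ v))).symm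

end

section
variable {p k : ℕ} [Fact p.Prime]

/-- the basis as a finset -/
def Eset (k p : ℕ) [Fact p.Prime] : Finset (Fin k → ZMod p) := Finset.univ.image ev
/-- the partial sums as a finset -/
def Tset (k p : ℕ) [Fact p.Prime] : Finset (Fin k → ZMod p) := (Finset.Icc 2 k).image (sv k p)

theorem mem_Eset {v : Fin k → ZMod p} : v ∈ Eset k p ↔ ∃ i, v = ev i := by
  simp [Eset, eq_comm]

theorem mem_Tset {v : Fin k → ZMod p} : v ∈ Tset k p ↔ ∃ j, 2 ≤ j ∧ j ≤ k ∧ v = sv k p j := by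
  simp [Tset, and_assoc, eq_comm]

theorem sv_apply (j : ℕ) (i : Fin k) : sv k p j i = if (i : ℕ) < j then 1 else 0 := rfl

theorem sv_ne_zero_iff (j : ℕ) (i : Fin k) : sv k p j i ≠ 0 ↔ (i : ℕ) < j := by
  rw [sv_apply]
  by_cases h : (i : ℕ) < j <;> simp [h]

theorem sv_inj {j j' : ℕ} (hj : j ≤ k) (hj' : j' ≤ k) (h : sv k p j = sv k p j') : j = j' := by
  rcases lt_trichotomy j j' with hlt | heq | hlt
  · exfalso
    have h1 := (sv_ne_zero_iff (p := p) j' (⟨j, lt_of_lt_of_le hlt hj'⟩ : Fin k)).2 hlt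
    rw [← h] at h1
    have := (sv_ne_zero_iff (p := p) j (⟨j, lt_of_lt_of_le hlt hj'⟩ : Fin k)).1 h1
    exact lt_irrefl _ this
  · exact heq
  · exfalso
    have h1 := (sv_ne_zero_iff (p := p) j (⟨j', lt_of_lt_of_le hlt hj⟩ : Fin k)).2 hlt
    rw [h] at h1
    have := (sv_ne_zero_iff (p := p) j' (⟨j', lt_of_lt_of_le hlt hj⟩ : Fin k)).1 h1
    exact lt_irrefl _ this

theorem zero_not_mem_Eset : (0 : Fin k → ZMod p) ∉ Eset k p := by
  intro h
  obtain ⟨i, hi⟩ := mem_Eset.1 h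
  exact ev_ne_zero i hi.symm

theorem zero_not_mem_Tset : (0 : Fin k → ZMod p) ∉ Tset k p := by
  intro h
  obtain ⟨j, hj, hjk, h0⟩ := mem_Tset.1 h
  have := (sv_ne_zero_iff (p := p) j (⟨0, by omega⟩ : Fin k)).2 (by simp; omega)
  rw [← h0] at this
  exact this rfl

theorem disj_ET {v : Fin k → ZMod p} (h : v ∈ Eset k p) : v ∉ Tset k p := by
  intro h'
  obtain ⟨i, rfl⟩ := mem_Eset.1 h
  obtain ⟨j, hj, hjk, h0⟩ := mem_Tset.1 h'
  have a0 := (sv_ne_zero_iff (p := p) j (⟨0, by omega⟩ : Fin k)).2 (by simp; omega)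
  have a1 := (sv_ne_zero_iff (p := p) j (⟨1, by omega⟩ : Fin k)).2 (by simp; omega)
  rw [← h0, ev_apply] at a0 a1
  split_ifs at a0 with b0
  · split_ifs at a1 with b1
    · rw [← b0] at b1
      simp [Fin.ext_iff] at b1
    · exact a1 rfl
  · exact a0 rfl

theorem card_Eset : (Eset k p).card = k := by
  rw [Eset, Finset.card_image_of_injective _ ev_inj, Finset.card_univ, Fintype.card_fin]

theorem card_Tset : (Tset k p).card = k - 1 := by
  rw [Tset, Finset.card_image_of_injOn, Nat.card_Icc]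
  · omega
  · intro a ha b hb hab
    have ha' := Finset.mem_Icc.1 (Finset.mem_coe.1 ha)
    have hb' := Finset.mem_Icc.1 (Finset.mem_coe.1 hb)
    exact sv_inj ha'.2 hb'.2 hab

theorem card_Tset_filter (i : Fin k) :
    ((Tset k p).filter (fun t => t i ≠ 0)).card = k - max (i : ℕ) 1 := by
  have h1 : (Tset k p).filter (fun t => t i ≠ 0) =
      ((Finset.Icc 2 k).filter (fun j => (i : ℕ) < j)).image (sv k p) := by
    ext t
    simp only [Finset.mem_filter, Finset.mem_image, mem_Tset, Finset.mem_Icc]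
    constructor
    · rintro ⟨⟨j, h2, h3, rfl⟩, h4⟩
      exact ⟨j, ⟨⟨h2, h3⟩, (sv_ne_zero_iff j i).1 h4⟩, rfl⟩
    · rintro ⟨j, ⟨⟨h2, h3⟩, h4⟩, rfl⟩
      exact ⟨⟨j, h2, h3, rfl⟩, (sv_ne_zero_iff j i).2 h4⟩
  rw [h1, Finset.card_image_of_injOn]
  · have h2 : (Finset.Icc 2 k).filter (fun j => (i : ℕ) < j) = Finset.Icc (max ((i : ℕ) + 1) 2) k := by
      ext j
      simp only [Finset.mem_filter, Finset.mem_Icc]
      omega
    rw [h2, Nat.card_Icc]
    omega
  · intro a ha b hb hab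
    have ha' := Finset.mem_filter.1 (Finset.mem_coe.1 ha)
    have hb' := Finset.mem_filter.1 (Finset.mem_coe.1 hb)
    exact sv_inj (Finset.mem_Icc.1 ha'.1).2 (Finset.mem_Icc.1 hb'.1).2 hab

/-- key: an affine map preserving the frame and the partial sums moves `e_i` only to `e_l` with
`max i 1 = max l 1` (or to `0`). -/
theorem key_T {σ : Perm (Fin k → ZMod p)} (hσ : σ ∈ Aff (Fin k → ZMod p))
    (h0 : σ 0 = 0 ∨ σ 0 ∈ Eset k p)
    (hE : ∀ i, σ (ev i) = 0 ∨ σ (ev i) ∈ Eset k p)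
    (hT : ∀ t ∈ Tset k p, σ t ∈ Tset k p) {i l : Fin k} (hil : σ (ev i) = ev l) :
    max (i : ℕ) 1 = max (l : ℕ) 1 := by
  have h0' : (σ 0) l = 0 := by
    rcases h0 with h | h
    · rw [h]; rfl
    · obtain ⟨m, hm⟩ := mem_Eset.1 h
      rw [hm]
      apply ev_ne
      rintro rfl
      rw [← hil] at hm
      exact ev_ne_zero i (σ.injective hm).symm
  have hcoord : ∀ t, (σ t) l = t i := by
    intro t
    have := aff_coord hσ (fun _ => True) (by
      rcases h0 with h | h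
      · exact Or.inl h
      · obtain ⟨m, hm⟩ := mem_Eset.1 h
        exact Or.inr ⟨m, trivial, hm⟩) (by
      intro i _
      rcases hE i with h | h
      · exact Or.inl h
      · obtain ⟨m, hm⟩ := mem_Eset.1 h
        exact Or.inr ⟨m, trivial, hm⟩) hil t 0 (fun j hj => absurd trivial hj)
    rw [Pi.sub_apply, h0', sub_zero, Pi.zero_apply, sub_zero] at this
    exact this
  have hle : ((Tset k p).filter (fun t => t i ≠ 0)).card ≤
      ((Tset k p).filter (fun t => t l ≠ 0)).card := by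
    apply Finset.card_le_card_of_injOn (fun t => σ t)
    · intro t ht
      have ht' := Finset.mem_filter.1 (Finset.mem_coe.1 ht)
      apply Finset.mem_coe.2
      apply Finset.mem_filter.2
      refine ⟨hT t ht'.1, ?_⟩
      change σ t l ≠ 0
      rw [hcoord]; exact ht'.2
    · exact fun a _ b _ hab => σ.injective hab
  have hge : ((Tset k p).filter (fun t => t l ≠ 0)).card ≤
      ((Tset k p).filter (fun t => t i ≠ 0)).card := by
    -- σ is a bijection of Tset
    have himg : (Tset k p).image σ = Tset k p := by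
      apply Finset.eq_of_subset_of_card_le
      · intro t ht
        obtain ⟨s, hs, rfl⟩ := Finset.mem_image.1 ht
        exact hT s hs
      · rw [Finset.card_image_of_injective _ σ.injective]
    have h2 : (Tset k p).filter (fun t => t l ≠ 0) ⊆
        ((Tset k p).filter (fun t => t i ≠ 0)).image σ := by
      intro t ht
      have ht' := Finset.mem_filter.1 ht
      rw [← himg] at ht'
      obtain ⟨s, hs, rfl⟩ := Finset.mem_image.1 ht'.1
      refine Finset.mem_image.2 ⟨s, Finset.mem_filter.2 ⟨hs, ?_⟩, rfl⟩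
      have h5 := ht'.2
      rw [hcoord] at h5
      exact h5
    exact (Finset.card_le_card h2).trans Finset.card_image_le
  rw [card_Tset_filter, card_Tset_filter] at hle hge
  have hi := i.2
  have hl := l.2
  omega

/-! ### five colours -/

/-- five-colouring -/
def G5 (k p : ℕ) [Fact p.Prime] (hk : 0 < k) (v : Fin k → ZMod p) : Fin 5 :=
  if v = 0 then 0 else if v = ev ⟨0, hk⟩ then 1 else if v ∈ Eset k p then 2 else
    if v ∈ Tset k p then 3 else 4

theorem G5_rigid (hk : 0 < k) : D (vst (G5 k p hk)) 0 = ⊥ := by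
  rw [D_zero, eq_bot_iff]
  rintro σ ⟨hσ, h⟩
  rw [Subgroup.mem_bot]
  have c0 : ∀ v, G5 k p hk v = 0 ↔ v = 0 := by
    intro v; unfold G5; split_ifs with h1 h2 h3 h4 <;> simp_all
  have c1 : ∀ v, G5 k p hk v = 1 ↔ v = ev ⟨0, hk⟩ := by
    intro v; unfold G5; split_ifs with h1 h2 h3 h4 <;> simp_all
    exact fun h => ev_ne_zero _ h.symm
  have c2 : ∀ v, G5 k p hk v = 2 ↔ v ∈ Eset k p ∧ v ≠ ev ⟨0, hk⟩ := by
    intro v; unfold G5; split_ifs with h1 h2 h3 h4 <;> simp_all [zero_not_mem_Eset]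
  have c3 : ∀ v, G5 k p hk v = 3 ↔ v ∈ Tset k p := by
    intro v; unfold G5; split_ifs with h1 h2 h3 h4 <;>
      simp_all [zero_not_mem_Tset, disj_ET, mem_Eset]
  have h0 : σ 0 = 0 := (c0 _).1 (by rw [h]; exact (c0 0).2 rfl)
  have h1 : σ (ev ⟨0, hk⟩) = ev ⟨0, hk⟩ := (c1 _).1 (by rw [h]; exact (c1 _).2 rfl)
  have h2 : ∀ i : Fin k, i ≠ ⟨0, hk⟩ → σ (ev i) ∈ Eset k p ∧ σ (ev i) ≠ ev ⟨0, hk⟩ := by
    intro i hi
    apply (c2 _).1
    rw [h]
    exact (c2 _).2 ⟨mem_Eset.2 ⟨i, rfl⟩, fun hc => hi (ev_inj hc)⟩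
  have h3 : ∀ t ∈ Tset k p, σ t ∈ Tset k p := by
    intro t ht
    apply (c3 _).1
    rw [h]; exact (c3 _).2 ht
  apply aff_eq_one hσ h0
  intro i
  by_cases hi : i = ⟨0, hk⟩
  · rw [hi]; exact h1
  · obtain ⟨m, hm⟩ := mem_Eset.1 (h2 i hi).1
    have hm0 : m ≠ ⟨0, hk⟩ := by
      rintro rfl
      exact (h2 i hi).2 hm
    have := key_T hσ (Or.inl h0) (by
      intro i'
      by_cases hi' : i' = ⟨0, hk⟩
      · rw [hi', h1]; exact Or.inr (mem_Eset.2 ⟨_, rfl⟩)
      · exact Or.inr (h2 i' hi').1) h3 hm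
    have e1 : i = m := by
      apply Fin.ext
      have a1 : (i : ℕ) ≠ 0 := fun hc => hi (Fin.ext hc)
      have a2 : (m : ℕ) ≠ 0 := fun hc => hm0 (Fin.ext hc)
      omega
    rw [hm, e1]

end

end Pool.Agent.H80
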