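import Pool.Agent.H80.Col345

set_option autoImplicit false

namespace Pool.Agent.H80

open Equiv
open scoped commutatorElement

variable {p k : ℕ} [Fact p.Prime]

theorem card_VV : Fintype.card (Fin k → ZMod p) = p ^ k := by
  simp [ZMod.card]

theorem cnt_eq_card {V : Type*} [Fintype V] [DecidableEq V] {q : ℕ} (Γ : V → Fin q) (c : Fin q)
    (A : Finset V) (h : ∀ v, Γ v = c ↔ v ∈ A) : cnt Γ c = A.card := by
  unfold cnt
  congr 1
  ext v
  simp [h]

theorem card_max_le (i : Fin k) :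
    (Finset.univ.filter (fun l : Fin k => max (l : ℕ) 1 = max (i : ℕ) 1)).card ≤ 2 := by
  have h1 : ((Finset.univ.filter (fun l : Fin k => max (l : ℕ) 1 = max (i : ℕ) 1)).image
      (fun l : Fin k => (l : ℕ))) ⊆ {max (i : ℕ) 1, max (i : ℕ) 1 - 1} := by
    intro m hm
    obtain ⟨l, hl, rfl⟩ := Finset.mem_image.1 hm
    have hl' := (Finset.mem_filter.1 hl).2
    simp only [Finset.mem_insert, Finset.mem_singleton]
    omega
  have h2 := Finset.card_le_card h1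
  rw [Finset.card_image_of_injective _ Fin.val_injective] at h2
  exact h2.trans Finset.card_le_two

/-- orbit set for `e_i` -/
def Yset (k p : ℕ) [Fact p.Prime] (i : Fin k) : Finset (Fin k → ZMod p) :=
  (Finset.univ.filter (fun l : Fin k => max (l : ℕ) 1 = max (i : ℕ) 1)).image ev

theorem card_Yset (i : Fin k) : (Yset k p i).card ≤ 2 :=
  Finset.card_image_le.trans (card_max_le i)

theorem mem_Yset {i l : Fin k} (h : max (i : ℕ) 1 = max (l : ℕ) 1) : ev l ∈ Yset k p i :=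
  Finset.mem_image.2 ⟨l, Finset.mem_filter.2 ⟨Finset.mem_univ _, h.symm⟩, rfl⟩

/-! ### q = 5 -/

theorem NTaff5 (hk : 0 < k) : NTaff (Fin k → ZMod p) 5 0 5 := by
  apply NTaff_of_perm (G5 k p hk) (fun i => Equiv.addRight i) ?_ (G5_rigid hk)
  intro i j h
  by_contra hne
  have hrot : ∀ n : Fin 5 → ℕ, ∀ t : Fin 5, t ≠ 0 → (∀ c, n (c + t) = n c) → ∀ c, n c = n 0 := by
    intro n t ht hn c
    have a0 := hn 0
    have a1 := hn 1
    have a2 := hn 2
    have a3 := hn 3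
    have a4 := hn 4
    fin_cases t <;> fin_cases c <;> simp at ht a0 a1 a2 a3 a4 ⊢ <;> omega
  have h' : ∀ c, cnt (G5 k p hk) (c + (i - j)) = cnt (G5 k p hk) c := by
    intro c
    have := h (c + i)
    have e1 : (Equiv.addRight j)⁻¹ (c + i) = c + (i - j) := by
      change (c + i) + -j = _
      abel
    have e2 : (Equiv.addRight i)⁻¹ (c + i) = c := by
      change (c + i) + -i = _
      abel
    rw [e1, e2] at this
    exact this
  have hall := hrot _ (i - j) (sub_ne_zero.2 hne) h'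
  have c0 : cnt (G5 k p hk) 0 = 1 := by
    rw [cnt_eq_card _ _ {0}]
    · rfl
    · intro v
      unfold G5
      split_ifs with h1 h2 h3 h4 <;> simp_all
  have c2 : cnt (G5 k p hk) 2 = k - 1 := by
    rw [cnt_eq_card _ _ ((Eset k p).erase (ev ⟨0, hk⟩))]
    · rw [Finset.card_erase_of_mem (mem_Eset.2 ⟨_, rfl⟩), card_Eset]
    · intro v
      unfold G5
      split_ifs with h1 h2 h3 h4 <;> simp_all [zero_not_mem_Eset]
  have hsum := sum_cnt (G5 k p hk)
  rw [card_VV, Finset.sum_congr rfl (fun c _ => hall c), c0] at hsum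
  simp at hsum
  have hk2 : k = 2 := by
    have := hall 2
    rw [c0, c2] at this
    omega
  rw [hk2] at hsum
  have : p ≤ 2 ∨ 3 ≤ p := by omega
  rcases this with hp | hp
  · have : p ^ 2 ≤ 2 ^ 2 := Nat.pow_le_pow_left hp 2
    omega
  · have : 3 ^ 2 ≤ p ^ 2 := Nat.pow_le_pow_left hp 2
    omega

/-! ### q = 4 -/

/-- four-colouring -/
def G4 (k p : ℕ) [Fact p.Prime] (v : Fin k → ZMod p) : Fin 4 :=
  if v = 0 then 0 else if v ∈ Eset k p then 1 else if v ∈ Tset k p then 2 else 3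

theorem G4_rigid : D (vst (G4 k p)) 1 = ⊥ := by
  have c0 : ∀ v, G4 k p v = 0 ↔ v = 0 := by
    intro v; unfold G4; split_ifs with h1 h2 h3 <;> simp_all
  have c1 : ∀ v, G4 k p v = 1 ↔ v ∈ Eset k p := by
    intro v; unfold G4; split_ifs with h1 h2 h3 <;> simp_all [zero_not_mem_Eset]
  have c2 : ∀ v, G4 k p v = 2 ↔ v ∈ Tset k p := by
    intro v; unfold G4; split_ifs with h1 h2 h3 <;> simp_all [zero_not_mem_Tset, disj_ET]
  have f0 : ∀ σ ∈ vst (G4 k p), σ 0 = 0 := fun σ h => (c0 _).1 (by rw [h.2]; exact (c0 0).2 rfl)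
  have f1 : ∀ σ ∈ vst (G4 k p), ∀ i, σ (ev i) ∈ Eset k p := fun σ h i =>
    (c1 _).1 (by rw [h.2]; exact (c1 _).2 (mem_Eset.2 ⟨i, rfl⟩))
  have f2 : ∀ σ ∈ vst (G4 k p), ∀ t ∈ Tset k p, σ t ∈ Tset k p := fun σ h t ht =>
    (c2 _).1 (by rw [h.2]; exact (c2 _).2 ht)
  rw [eq_bot_iff]
  intro x hx
  rw [Subgroup.mem_bot]
  have hxS := D_le _ _ hx
  apply aff_eq_one hxS.1 (f0 x hxS)
  intro i
  apply D_fix_orbit (MonoidHom.id (Perm (Fin k → ZMod p))) (n := 1) (by norm_num) (ev i)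
    (Yset k p i) (card_Yset i) ?_ hx
  intro σ hσ
  obtain ⟨l, hl⟩ := mem_Eset.1 (f1 σ hσ i)
  change σ (ev i) ∈ _
  rw [hl]
  exact mem_Yset (key_T hσ.1 (Or.inl (f0 σ hσ)) (fun i' => Or.inr (f1 σ hσ i')) (f2 σ hσ) hl)

theorem G4_cnt0 : cnt (G4 k p) 0 = 1 := by
  rw [cnt_eq_card _ _ {0}]
  · rfl
  · intro v; unfold G4
    split_ifs with h1 h2 h3 <;> simp_all

theorem G4_cnt1 : cnt (G4 k p) 1 = k := by
  rw [cnt_eq_card _ _ (Eset k p), card_Eset]
  intro v; unfold G4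
  split_ifs with h1 h2 h3 <;> simp_all [zero_not_mem_Eset]

theorem G4_cnt2 : cnt (G4 k p) 2 = k - 1 := by
  rw [cnt_eq_card _ _ (Tset k p), card_Tset]
  intro v; unfold G4
  split_ifs with h1 h2 h3 <;> simp_all [zero_not_mem_Tset, disj_ET]

/-- five permutations of four colours -/
def pi4 : Fin 5 → Perm (Fin 4) := ![1, finRotate 4, finRotate 4 ^ 2, finRotate 4 ^ 3, swap 0 1]
/-- five permutations of four colours -/
def pi4' : Fin 5 → Perm (Fin 4) := ![1, finRotate 4, finRotate 4 ^ 2, finRotate 4 ^ 3, swap 1 2]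

theorem pi4_dist (n : Fin 4 → ℕ) (h01 : n 0 ≠ n 1) (h12 : n 1 ≠ n 2)
    (h3 : ¬ (n 0 = n 2 ∧ n 1 = n 3)) (h4 : ¬ (n 0 = n 2 ∧ n 2 = n 3)) (i j : Fin 5)
    (h : ∀ c, n ((pi4 j)⁻¹ c) = n ((pi4 i)⁻¹ c)) : i = j := by
  have a0 := h 0
  have a1 := h 1
  have a2 := h 2
  have a3 := h 3
  have t : ∀ i : Fin 5, ∀ c : Fin 4, (pi4 i)⁻¹ c =
    (![![0,1,2,3], ![3,0,1,2], ![2,3,0,1], ![1,2,3,0], ![1,0,2,3]] : Fin 5 → Fin 4 → Fin 4) i c := by
    decide
  rw [t, t] at a0 a1 a2 a3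
  fin_cases i <;> fin_cases j <;> simp at a0 a1 a2 a3 ⊢ <;> omega

theorem pi4'_dist (n : Fin 4 → ℕ) (h0 : n 0 ≠ 0) (h1 : n 1 ≠ 0) (h2 : n 2 = 0) (h3 : n 3 = 0)
    (i j : Fin 5)
    (h : ∀ c, n ((pi4' j)⁻¹ c) = n ((pi4' i)⁻¹ c)) : i = j := by
  have a0 := h 0
  have a1 := h 1
  have a2 := h 2
  have a3 := h 3
  have t : ∀ i : Fin 5, ∀ c : Fin 4, (pi4' i)⁻¹ c =
    (![![0,1,2,3], ![3,0,1,2], ![2,3,0,1], ![1,2,3,0], ![0,2,1,3]] : Fin 5 → Fin 4 → Fin 4) i c := by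
    decide
  rw [t, t] at a0 a1 a2 a3
  fin_cases i <;> fin_cases j <;> simp at a0 a1 a2 a3 ⊢ <;> omega

theorem two_le_p : 2 ≤ p := (Fact.out : p.Prime).two_le

theorem G4_cnt3 (hk : 2 ≤ k) : cnt (G4 k p) 3 = p ^ k - 2 * k := by
  have h := sum_cnt (G4 k p)
  rw [card_VV, Fin.sum_univ_four, G4_cnt0, G4_cnt1, G4_cnt2] at h
  omega

theorem NTaff4_ge2 (hk : 2 ≤ k) : NTaff (Fin k → ZMod p) 4 1 5 := by
  apply NTaff_of_perm (G4 k p) pi4 ?_ G4_rigid
  intro i j h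
  refine pi4_dist (cnt (G4 k p)) ?_ ?_ ?_ ?_ i j h
  · rw [G4_cnt0, G4_cnt1]; omega
  · rw [G4_cnt1, G4_cnt2]; omega
  · rw [G4_cnt0, G4_cnt1, G4_cnt2, G4_cnt3 hk]
    rintro ⟨h1, h2⟩
    have hk2 : k = 2 := by omega
    subst hk2
    have hp := two_le_p (p := p)
    have : p ≤ 2 ∨ 3 ≤ p := by omega
    rcases this with hp | hp
    · have : p ^ 2 ≤ 2 ^ 2 := Nat.pow_le_pow_left hp 2
      omega
    · have : 3 ^ 2 ≤ p ^ 2 := Nat.pow_le_pow_left hp 2
      omega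
  · rw [G4_cnt0, G4_cnt2, G4_cnt3 hk]
    rintro ⟨h1, h2⟩
    have hk2 : k = 2 := by omega
    subst hk2
    have hp := two_le_p (p := p)
    have : p ≤ 2 ∨ 3 ≤ p := by omega
    rcases this with hp | hp
    · have : p ^ 2 ≤ 2 ^ 2 := Nat.pow_le_pow_left hp 2
      omega
    · have : 3 ^ 2 ≤ p ^ 2 := Nat.pow_le_pow_left hp 2
      omega

/-! ### the line -/

/-- on the affine line the affine maps are `v ↦ b v + c` -/
theorem line_apply {σ : Perm (Fin 1 → ZMod p)} (hσ : σ ∈ Aff (Fin 1 → ZMod p)) :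
    ∃ b : ZMod p, ∀ v, (σ v) 0 = b * v 0 + (σ 0) 0 := by
  refine ⟨(σ (ev 0)) 0 - (σ 0) 0, fun v => ?_⟩
  rw [aff_apply hσ v]
  simp
  ring

theorem fin1_ext {u v : Fin 1 → ZMod p} (h : u 0 = v 0) : u = v := by
  ext i
  rw [Subsingleton.elim i 0]
  exact h

/-- the affine group of the line is metabelian -/
theorem line_D2 (S : Subgroup (Perm (Fin 1 → ZMod p))) (hS : S ≤ Aff (Fin 1 → ZMod p)) :
    D S 2 = ⊥ := by
  have hle : D S 1 ≤ ({ carrier := {σ | ∀ v, σ v = v + σ 0}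
                        mul_mem' := by
                          intro a b ha hb v
                          rw [Perm.mul_apply, Perm.mul_apply, hb, ha, ha (b 0)]; abel
                        one_mem' := by intro v; simp
                        inv_mem' := by
                          intro a ha v
                          have h1 := ha (a⁻¹ v)
                          have h2 := ha (a⁻¹ 0)
                          rw [← Perm.mul_apply, mul_inv_cancel, Perm.one_apply] at h1 h2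
                          rw [eq_sub_of_add_eq h1.symm, eq_sub_of_add_eq h2.symm]
                          abel } : Subgroup (Perm (Fin 1 → ZMod p))) := by
    rw [D_succ, D_zero, Subgroup.commutator_le]
    intro a ha b hb
    obtain ⟨x, hx⟩ := line_apply (hS ha)
    obtain ⟨y, hy⟩ := line_apply (hS hb)
    have key : ∀ w, (a * b) w = (b * a) w + ((a * b) 0 - (b * a) 0) := by
      intro w
      apply fin1_ext
      simp only [Perm.mul_apply, Pi.add_apply, Pi.sub_apply]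
      rw [hx (b w), hy w, hy (a w), hx w, hx (b 0), hy (a 0)]
      ring
    intro v
    have e2 : ∀ v, ⁅a, b⁆ v = (a * b) ((b * a)⁻¹ v) := by
      intro v
      rw [commutatorElement_def, mul_inv_rev]; rfl
    rw [e2, e2, key, key ((b * a)⁻¹ 0)]
    have e3 : ∀ v, (b * a) ((b * a)⁻¹ v) = v := by
      intro v
      rw [← Perm.mul_apply, mul_inv_cancel, Perm.one_apply]
    rw [e3, e3]
    abel
  apply D_succ_eq_bot
  intro a ha b hb
  have ha' := hle ha
  have hb' := hle hb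
  ext v : 1
  rw [Perm.mul_apply, Perm.mul_apply, ha' (b v), hb' v, hb' (a v), ha' v]
  abel

/-- a group of affine maps of the line fixing `0` is commutative -/
theorem line_D1 (S : Subgroup (Perm (Fin 1 → ZMod p))) (hS : S ≤ Aff (Fin 1 → ZMod p))
    (h0 : ∀ σ ∈ S, σ 0 = 0) : D S 1 = ⊥ := by
  apply D_succ_eq_bot
  intro a ha b hb
  obtain ⟨x, hx⟩ := line_apply (hS ha)
  obtain ⟨y, hy⟩ := line_apply (hS hb)
  rw [h0 a ha] at hx
  rw [h0 b hb] at hy
  ext v : 1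
  apply fin1_ext
  rw [Perm.mul_apply, Perm.mul_apply, hx, hy, hy, hx]
  simp
  ring

/-- colouring of the line: `0` against the rest -/
def L4 {q : ℕ} (p : ℕ) (a b : Fin q) (v : Fin 1 → ZMod p) : Fin q := if v = 0 then a else b

theorem L4_cnt_a {q : ℕ} {a b : Fin q} (hab : a ≠ b) : cnt (L4 p a b) a = 1 := by
  rw [cnt_eq_card _ _ {0}]
  · rfl
  · intro v; unfold L4
    split_ifs with h1
    · simp [h1]
    · simp [h1, hab.symm]

theorem L4_cnt_b {q : ℕ} {a b : Fin q} (hab : a ≠ b) : cnt (L4 p a b) b = p - 1 := by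
  rw [cnt_eq_card _ _ (Finset.univ.erase 0)]
  · rw [Finset.card_erase_of_mem (Finset.mem_univ _), Finset.card_univ, card_VV, pow_one]
  · intro v; unfold L4
    split_ifs with h1
    · simp [h1, hab]
    · simp [h1]

theorem L4_cnt_c {q : ℕ} {a b c : Fin q} (ha : c ≠ a) (hb : c ≠ b) : cnt (L4 p a b) c = 0 := by
  rw [cnt_eq_card _ _ ∅]
  · rfl
  · intro v; unfold L4
    split_ifs with h1
    · simp [ha.symm]
    · simp [hb.symm]

theorem const_cnt_a {q : ℕ} (a : Fin q) : cnt (fun _ : Fin 1 → ZMod p => a) a = p := by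
  rw [cnt_eq_card _ _ Finset.univ]
  · rw [Finset.card_univ, card_VV, pow_one]
  · intro v; simp

theorem const_cnt_c {q : ℕ} {a c : Fin q} (h : c ≠ a) :
    cnt (fun _ : Fin 1 → ZMod p => a) c = 0 := by
  rw [cnt_eq_card _ _ ∅]
  · rfl
  · intro v; simp [h.symm]

theorem L4_fix {q : ℕ} {a b : Fin q} (hab : a ≠ b) :
    ∀ σ ∈ vst (L4 p a b), σ 0 = 0 := by
  intro σ hσ
  have h1 := hσ.2 0
  unfold L4 at h1
  rw [if_pos rfl] at h1
  by_contra hne
  rw [if_neg hne] at h1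
  exact hab h1.symm

theorem NTaff4_one : NTaff (Fin 1 → ZMod p) 4 1 5 := by
  have hp := two_le_p (p := p)
  apply NTaff_of_perm (L4 p (0 : Fin 4) 1) pi4' ?_
    (line_D1 _ (fun σ h => h.1) (L4_fix (by decide)))
  intro i j h
  refine pi4'_dist (cnt (L4 p (0 : Fin 4) 1)) ?_ ?_ ?_ ?_ i j h
  · rw [L4_cnt_a (by decide)]; omega
  · rw [L4_cnt_b (by decide)]; omega
  · rw [L4_cnt_c (by decide) (by decide)]
  · rw [L4_cnt_c (by decide) (by decide)]

theorem NTaff4 (hk : 0 < k) : NTaff (Fin k → ZMod p) 4 1 5 := by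
  have : k = 1 ∨ 2 ≤ k := by omega
  rcases this with rfl | h
  · exact NTaff4_one
  · exact NTaff4_ge2 h

/-! ### q = 3 -/

/-- three-colouring: frame, partial sums, rest -/
def G3 (k p : ℕ) [Fact p.Prime] (v : Fin k → ZMod p) : Fin 3 :=
  if v = 0 ∨ v ∈ Eset k p then 0 else if v ∈ Tset k p then 1 else 2

/-- three-colouring: zero, basis, rest -/
def G3' (k p : ℕ) [Fact p.Prime] (v : Fin k → ZMod p) : Fin 3 :=
  if v = 0 then 0 else if v ∈ Eset k p then 1 else 2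

theorem G3_rigid : D (vst (G3 k p)) 2 = ⊥ := by
  have c0 : ∀ v, G3 k p v = 0 ↔ (v = 0 ∨ v ∈ Eset k p) := by
    intro v; unfold G3; split_ifs with h1 h2 <;> simp_all
  have c1 : ∀ v, G3 k p v = 1 ↔ v ∈ Tset k p := by
    intro v; unfold G3; split_ifs with h1 h2
    · simp only [Fin.isValue, zero_ne_one, false_iff]
      rcases h1 with h1 | h1
      · rw [h1]; exact zero_not_mem_Tset
      · exact disj_ET h1
    · simp [h2]
    · simp [h2]
  have f0 : ∀ σ ∈ vst (G3 k p), σ 0 = 0 ∨ σ 0 ∈ Eset k p := fun σ h =>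
    (c0 _).1 (by rw [h.2]; exact (c0 0).2 (Or.inl rfl))
  have f1 : ∀ σ ∈ vst (G3 k p), ∀ i, σ (ev i) = 0 ∨ σ (ev i) ∈ Eset k p := fun σ h i =>
    (c0 _).1 (by rw [h.2]; exact (c0 _).2 (Or.inr (mem_Eset.2 ⟨i, rfl⟩)))
  have f2 : ∀ σ ∈ vst (G3 k p), ∀ t ∈ Tset k p, σ t ∈ Tset k p := fun σ h t ht =>
    (c1 _).1 (by rw [h.2]; exact (c1 _).2 ht)
  rw [eq_bot_iff]
  intro x hx
  rw [Subgroup.mem_bot]
  have hxS := D_le _ _ hx
  have hfix : ∀ i, x (ev i) = ev i := by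
    intro i
    apply D_fix_orbit (MonoidHom.id (Perm (Fin k → ZMod p))) (n := 2) (by norm_num) (ev i)
      (insert 0 (Yset k p i)) ?_ ?_ hx
    · have := card_Yset (p := p) i
      have h2 := Finset.card_insert_le 0 (Yset k p i)
      omega
    · intro σ hσ
      change σ (ev i) ∈ _
      rw [Finset.mem_insert]
      rcases f1 σ hσ i with h | h
      · exact Or.inl h
      · obtain ⟨l, hl⟩ := mem_Eset.1 h
        right
        rw [hl]
        exact mem_Yset (key_T hσ.1 (f0 σ hσ) (f1 σ hσ) (f2 σ hσ) hl)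
  have h0 : x 0 = 0 := by
    rcases f0 x hxS with h | h
    · exact h
    · obtain ⟨l, hl⟩ := mem_Eset.1 h
      rw [← hfix l] at hl
      exact absurd (x.injective hl).symm (ev_ne_zero l)
  exact aff_eq_one hxS.1 h0 hfix

theorem G3'_rigid (hk : k ≤ 3) : D (vst (G3' k p)) 2 = ⊥ := by
  have c0 : ∀ v, G3' k p v = 0 ↔ v = 0 := by
    intro v; unfold G3'; split_ifs with h1 h2 <;> simp_all
  have c1 : ∀ v, G3' k p v = 1 ↔ v ∈ Eset k p := by
    intro v; unfold G3'; split_ifs with h1 h2 <;> simp_all [zero_not_mem_Eset]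
  rw [eq_bot_iff]
  intro x hx
  rw [Subgroup.mem_bot]
  have hxS := D_le _ _ hx
  have hfix : ∀ y ∈ Eset k p, x y = y := by
    apply D_fix (MonoidHom.id (Perm (Fin k → ZMod p))) (n := 2) (by norm_num) ?_ ?_ hx
    · rw [card_Eset]; omega
    · intro s hs y hy
      apply (c1 _).1
      change G3' k p (s y) = 1
      rw [hs.2]; exact (c1 _).2 hy
  exact aff_eq_one hxS.1 ((c0 _).1 (by rw [hxS.2]; exact (c0 0).2 rfl))
    (fun i => hfix _ (mem_Eset.2 ⟨i, rfl⟩))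

/-- five permutations of three colours -/
def pi3 : Fin 5 → Perm (Fin 3) := ![1, swap 0 1, swap 0 2, swap 1 2, finRotate 3]

theorem pi3_dist (n : Fin 3 → ℕ) (h01 : n 0 ≠ n 1) (h12 : n 1 ≠ n 2) (h02 : n 0 ≠ n 2)
    (i j : Fin 5) (h : ∀ c, n ((pi3 j)⁻¹ c) = n ((pi3 i)⁻¹ c)) : i = j := by
  have a0 := h 0
  have a1 := h 1
  have a2 := h 2
  have t : ∀ i : Fin 5, ∀ c : Fin 3, (pi3 i)⁻¹ c =
    (![![0,1,2], ![1,0,2], ![2,1,0], ![0,2,1], ![2,0,1]] : Fin 5 → Fin 3 → Fin 3) i c := by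
    decide
  rw [t, t] at a0 a1 a2
  fin_cases i <;> fin_cases j <;> simp at a0 a1 a2 ⊢ <;> omega

theorem G3_cnt0 : cnt (G3 k p) 0 = k + 1 := by
  rw [cnt_eq_card _ _ (insert 0 (Eset k p)), Finset.card_insert_of_notMem zero_not_mem_Eset,
    card_Eset]
  intro v; unfold G3
  split_ifs with h1 h2 <;> simp_all

theorem G3_cnt1 : cnt (G3 k p) 1 = k - 1 := by
  rw [cnt_eq_card _ _ (Tset k p), card_Tset]
  intro v; unfold G3; split_ifs with h1 h2
  · simp only [Fin.isValue, zero_ne_one, false_iff]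
    rcases h1 with h1 | h1
    · rw [h1]; exact zero_not_mem_Tset
    · exact disj_ET h1
  · simp [h2]
  · simp [h2]

theorem G3'_cnt0 : cnt (G3' k p) 0 = 1 := by
  rw [cnt_eq_card _ _ {0}]
  · rfl
  · intro v; unfold G3'
    split_ifs with h1 h2 <;> simp_all

theorem G3'_cnt1 : cnt (G3' k p) 1 = k := by
  rw [cnt_eq_card _ _ (Eset k p), card_Eset]
  intro v; unfold G3'
  split_ifs with h1 h2 <;> simp_all [zero_not_mem_Eset]

theorem two_pow_ge (k : ℕ) : 2 ^ (k + 4) > 3 * (k + 4) + 1 := by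
  induction k with
  | zero => norm_num
  | succ n ih => rw [show n + 1 + 4 = (n + 4) + 1 by ring, pow_succ]; omega

theorem NTaff3_gen (hk : 2 ≤ k) (hk3 : k ≠ 3) : NTaff (Fin k → ZMod p) 3 2 5 := by
  apply NTaff_of_perm (G3 k p) pi3 ?_ G3_rigid
  intro i j h
  have hs := sum_cnt (G3 k p)
  rw [card_VV, Fin.sum_univ_three, G3_cnt0, G3_cnt1] at hs
  have hp := two_le_p (p := p)
  have hpk : p ^ k ≠ k + 1 + (k - 1) + (k + 1) ∧ p ^ k ≠ k + 1 + (k - 1) + (k - 1) := by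
    have : k = 2 ∨ 4 ≤ k := by omega
    rcases this with rfl | h4
    · have : p ≤ 2 ∨ 3 ≤ p := by omega
      rcases this with hp | hp
      · have : p ^ 2 ≤ 2 ^ 2 := Nat.pow_le_pow_left hp 2
        have h5 : 2 ^ 2 ≤ p ^ 2 := Nat.pow_le_pow_left two_le_p 2
        omega
      · have : 3 ^ 2 ≤ p ^ 2 := Nat.pow_le_pow_left hp 2
        omega
    · obtain ⟨m, rfl⟩ := Nat.exists_eq_add_of_le h4
      have h5 := two_pow_ge m
      have h6 : 2 ^ (m + 4) ≤ p ^ (m + 4) := Nat.pow_le_pow_left hp _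
      rw [show 4 + m = m + 4 by ring]
      omega
  refine pi3_dist (cnt (G3 k p)) ?_ ?_ ?_ i j h
  · rw [G3_cnt0, G3_cnt1]; omega
  · rw [G3_cnt1]; omega
  · rw [G3_cnt0]; omega

theorem NTaff3_three : NTaff (Fin 3 → ZMod p) 3 2 5 := by
  apply NTaff_of_perm (G3' 3 p) pi3 ?_ (G3'_rigid le_rfl)
  intro i j h
  have hs := sum_cnt (G3' 3 p)
  rw [card_VV, Fin.sum_univ_three, G3'_cnt0, G3'_cnt1] at hs
  have hp := two_le_p (p := p)
  have h6 : 2 ^ 3 ≤ p ^ 3 := Nat.pow_le_pow_left hp _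
  refine pi3_dist (cnt (G3' 3 p)) ?_ ?_ ?_ i j h
  · rw [G3'_cnt0, G3'_cnt1]; omega
  · rw [G3'_cnt1]; omega
  · rw [G3'_cnt0]; omega

theorem NTaff3_one : NTaff (Fin 1 → ZMod p) 3 2 5 := by
  have hp := two_le_p (p := p)
  apply NTaff_of_cnt (![fun _ => 0, fun _ => 1, fun _ => 2, L4 p 0 1, L4 p 0 2] :
    Fin 5 → (Fin 1 → ZMod p) → Fin 3) ?_ (fun i => line_D2 _ (fun σ h => h.1))
  intro i j h
  have a0 := h 0
  have a1 := h 1
  have a2 := h 2
  have u1 : cnt (L4 p (0 : Fin 3) 1) 0 = 1 := L4_cnt_a (by decide)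
  have u2 : cnt (L4 p (0 : Fin 3) 1) 1 = p - 1 := L4_cnt_b (by decide)
  have u3 : cnt (L4 p (0 : Fin 3) 1) 2 = 0 := L4_cnt_c (by decide) (by decide)
  have w1 : cnt (L4 p (0 : Fin 3) 2) 0 = 1 := L4_cnt_a (by decide)
  have w2 : cnt (L4 p (0 : Fin 3) 2) 2 = p - 1 := L4_cnt_b (by decide)
  have w3 : cnt (L4 p (0 : Fin 3) 2) 1 = 0 := L4_cnt_c (by decide) (by decide)
  have t00 : cnt (fun _ : Fin 1 → ZMod p => (0 : Fin 3)) 0 = p := const_cnt_a 0
  have t01 : cnt (fun _ : Fin 1 → ZMod p => (0 : Fin 3)) 1 = 0 := const_cnt_c (by decide)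
  have t02 : cnt (fun _ : Fin 1 → ZMod p => (0 : Fin 3)) 2 = 0 := const_cnt_c (by decide)
  have t10 : cnt (fun _ : Fin 1 → ZMod p => (1 : Fin 3)) 0 = 0 := const_cnt_c (by decide)
  have t11 : cnt (fun _ : Fin 1 → ZMod p => (1 : Fin 3)) 1 = p := const_cnt_a 1
  have t12 : cnt (fun _ : Fin 1 → ZMod p => (1 : Fin 3)) 2 = 0 := const_cnt_c (by decide)
  have t20 : cnt (fun _ : Fin 1 → ZMod p => (2 : Fin 3)) 0 = 0 := const_cnt_c (by decide)
  have t21 : cnt (fun _ : Fin 1 → ZMod p => (2 : Fin 3)) 1 = 0 := const_cnt_c (by decide)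
  have t22 : cnt (fun _ : Fin 1 → ZMod p => (2 : Fin 3)) 2 = p := const_cnt_a 2
  fin_cases i <;> fin_cases j <;>
    simp [u1, u2, u3, w1, w2, w3, t00, t01, t02, t10, t11, t12, t20, t21, t22] at a0 a1 a2 ⊢ <;>
    omega

theorem NTaff3 (hk : 0 < k) : NTaff (Fin k → ZMod p) 3 2 5 := by
  have : k = 1 ∨ k = 3 ∨ (2 ≤ k ∧ k ≠ 3) := by omega
  rcases this with rfl | rfl | ⟨h, h'⟩
  · exact NTaff3_one
  · exact NTaff3_three
  · exact NTaff3_gen h h'

end Pool.Agent.H80
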