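import Pool.Agent.H80.Deriv

set_option autoImplicit false

namespace Pool.Agent.H80

variable {G : Type*} [Group G]

/-- stabiliser in `K` of a colouring of `K` under left multiplication -/
def cst {α : Type*} (K : Subgroup G) (c : G → α) : Subgroup G where
  carrier := {x | x ∈ K ∧ ∀ g ∈ K, c (x * g) = c g}
  mul_mem' := by
    rintro x y ⟨hx, hx'⟩ ⟨hy, hy'⟩
    refine ⟨K.mul_mem hx hy, fun g hg => ?_⟩
    rw [mul_assoc, hx' _ (K.mul_mem hy hg), hy' g hg]
  one_mem' := ⟨K.one_mem, fun g _ => by rw [one_mul]⟩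
  inv_mem' := by
    rintro x ⟨hx, hx'⟩
    refine ⟨K.inv_mem hx, fun g hg => ?_⟩
    have := hx' (x⁻¹ * g) (K.mul_mem (K.inv_mem hx) hg)
    rw [mul_inv_cancel_left] at this
    exact this.symm

theorem mem_cst {α : Type*} {K : Subgroup G} {c : G → α} {x : G} :
    x ∈ cst K c ↔ x ∈ K ∧ ∀ g ∈ K, c (x * g) = c g := Iff.rfl

/-- `NT K L q d r`: there are `r` pairwise `K`-inequivalent `q`-colourings of `K / L` whose
stabilisers in `K` have their `d`-th derived subgroup acting trivially on `K / L`. -/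
def NT (K L : Subgroup G) (q d r : ℕ) : Prop :=
  ∃ c : Fin r → G → Fin q,
    (∀ i, ∀ g ∈ K, ∀ l ∈ L, c i (g * l) = c i g) ∧
    (∀ i j, ∀ x ∈ K, (∀ g ∈ K, c j (x * g) = c i g) → i = j) ∧
    (∀ i, ∀ x ∈ D (cst K (c i)) d, ∀ g ∈ K, g⁻¹ * x * g ∈ L)

theorem NT.weaken {K L : Subgroup G} {q d r r' : ℕ} (h : NT K L q d r) (hr : r' ≤ r) :
    NT K L q d r' := by
  obtain ⟨c, h1, h2, h3⟩ := h
  refine ⟨fun i => c (Fin.castLE hr i), fun i => h1 _, fun i j x hx h => ?_, fun i => h3 _⟩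
  exact Fin.castLE_injective hr (h2 _ _ x hx h)

theorem NT.weaken_d {K L : Subgroup G} {q d d' r : ℕ} (h : NT K L q d r) (hd : d ≤ d') :
    NT K L q d' r := by
  obtain ⟨c, h1, h2, h3⟩ := h
  exact ⟨c, h1, h2, fun i x hx => h3 i x (D_anti _ hd hx)⟩

theorem NT_refl (K : Subgroup G) (q d : ℕ) : NT K K q d q := by
  refine ⟨fun i _ => i, fun _ _ _ _ _ => rfl, fun i j x hx h => ?_, fun i x hx g hg => ?_⟩
  · exact (h 1 K.one_mem).symm
  · have := (D_le _ _ hx).1
    exact K.mul_mem (K.mul_mem (K.inv_mem hg) this) hg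

/-- coset representative -/
noncomputable def rep (H : Subgroup G) (g : G) : G := ((g : G ⧸ H)).out

theorem rep_inv_mul (H : Subgroup G) (g : G) : (rep H g)⁻¹ * g ∈ H := by
  rw [← QuotientGroup.eq]
  exact QuotientGroup.out_eq' _

theorem rep_eq (H : Subgroup G) {g g' : G} (h : g⁻¹ * g' ∈ H) : rep H g = rep H g' := by
  unfold rep
  rw [QuotientGroup.eq.2 h]

theorem rep_mem {H K : Subgroup G} (hHK : H ≤ K) {g : G} (hg : g ∈ K) : rep H g ∈ K := by
  have h := hHK (rep_inv_mul H g)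
  have h2 : rep H g = g * ((rep H g)⁻¹ * g)⁻¹ := by group
  rw [h2]
  exact K.mul_mem hg (K.inv_mem h)

theorem NT.comp {L H K : Subgroup G} {q r s e f : ℕ} (hLH : L ≤ H) (hHK : H ≤ K)
    (h1 : NT H L q e r) (h2 : NT K H r f s) : NT K L q (f + e) s := by
  obtain ⟨c, c1, c2, c3⟩ := h1
  obtain ⟨C, C1, C2, C3⟩ := h2
  -- the new colouring
  let c' : Fin s → G → Fin q := fun j g => c (C j g) ((rep H g)⁻¹ * g)
  -- C is constant on cosets of H
  have hC : ∀ j, ∀ g ∈ K, ∀ g', g⁻¹ * g' ∈ H → C j g' = C j g := by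
    intro j g hg g' h
    have := C1 j g hg (g⁻¹ * g') h
    rw [mul_inv_cancel_left] at this
    exact this
  -- key computation
  have key : ∀ i j, ∀ x ∈ K, (∀ g ∈ K, c' j (x * g) = c' i g) → ∀ g ∈ K,
      (rep H (x * g))⁻¹ * x * rep H g ∈ H ∧
      ∀ h ∈ H, c (C j (x * g)) ((rep H (x * g))⁻¹ * x * rep H g * h) = c (C i g) h := by
    intro i j x hx h g hg
    have hu : rep H g ∈ K := rep_mem hHK hg
    have hgu : (rep H g)⁻¹ * g ∈ H := rep_inv_mul H g
    have hy : (rep H (x * g))⁻¹ * x * rep H g ∈ H := by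
      have h1 := rep_inv_mul H (x * g)
      have h2 : (rep H (x * g))⁻¹ * x * rep H g =
        ((rep H (x * g))⁻¹ * (x * g)) * ((rep H g)⁻¹ * g)⁻¹ := by group
      rw [h2]
      exact H.mul_mem h1 (H.inv_mem hgu)
    refine ⟨hy, fun k hk => ?_⟩
    have hk' : k ∈ K := hHK hk
    have e1 := h (rep H g * k) (K.mul_mem hu hk')
    have r1 : rep H (rep H g * k) = rep H g := by
      have : rep H g = rep H g := rfl
      have h3 : (rep H g * k)⁻¹ * g ∈ H := by
        have : (rep H g * k)⁻¹ * g = k⁻¹ * ((rep H g)⁻¹ * g) := by group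
        rw [this]
        exact H.mul_mem (H.inv_mem hk) hgu
      exact rep_eq H h3
    have r2 : rep H (x * (rep H g * k)) = rep H (x * g) := by
      apply rep_eq
      have : (x * (rep H g * k))⁻¹ * (x * g) = k⁻¹ * ((rep H g)⁻¹ * g) := by group
      rw [this]
      exact H.mul_mem (H.inv_mem hk) hgu
    have r3 : C i (rep H g * k) = C i g := by
      apply hC i g hg
      have : g⁻¹ * (rep H g * k) = ((rep H g)⁻¹ * g)⁻¹ * k := by group
      rw [this]
      exact H.mul_mem (H.inv_mem hgu) hk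
    have r4 : C j (x * (rep H g * k)) = C j (x * g) := by
      apply hC j (x * g) (K.mul_mem hx hg)
      have : (x * g)⁻¹ * (x * (rep H g * k)) = ((rep H g)⁻¹ * g)⁻¹ * k := by group
      rw [this]
      exact H.mul_mem (H.inv_mem hgu) hk
    simp only [c'] at e1
    rw [r1, r2, r3, r4] at e1
    rw [inv_mul_cancel_left] at e1
    rw [← e1]
    congr 1
    group
  have keyC : ∀ i j, ∀ x ∈ K, (∀ g ∈ K, c' j (x * g) = c' i g) → ∀ g ∈ K,
      C j (x * g) = C i g := by
    intro i j x hx h g hg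
    obtain ⟨k1, k2⟩ := key i j x hx h g hg
    exact (c2 _ _ _ k1 k2).symm
  refine ⟨c', ?_, ?_, ?_⟩
  · intro i g hg l hl
    have hl' : l ∈ H := hLH hl
    have r1 : rep H (g * l) = rep H g := by
      apply rep_eq
      have : (g * l)⁻¹ * g = l⁻¹ := by group
      rw [this]; exact H.inv_mem hl'
    have r2 : C i (g * l) = C i g := C1 i g hg l hl'
    simp only [c']
    rw [r1, r2, ← mul_assoc]
    exact c1 _ _ (rep_inv_mul H g) l hl
  · intro i j x hx h
    exact C2 i j x hx (keyC i j x hx h)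
  · intro i x hx g hg
    have hS : cst K (c' i) ≤ cst K (C i) := by
      rintro y ⟨hy, hy'⟩
      exact ⟨hy, keyC i i y hy hy'⟩
    rw [← D_add] at hx
    set M := D (cst K (c' i)) f with hM
    have hMcst : M ≤ cst K (c' i) := D_le _ _
    have hM1 : ∀ y ∈ M, ∀ g ∈ K, g⁻¹ * y * g ∈ H := by
      intro y hy g hg
      exact C3 i y (D_mono hS f hy) g hg
    -- conjugate by the representative
    set u := rep H g with hu
    have huK : u ∈ K := rep_mem hHK hg
    have hM2 : ∀ y ∈ M, (MulAut.conj u⁻¹).toMonoidHom y ∈ cst H (c (C i g)) := by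
      intro y hy
      have hyK : y ∈ K := (hMcst hy).1
      obtain ⟨k1, k2⟩ := key i i y hyK (hMcst hy).2 g hg
      have e1 : rep H (y * g) = u := by
        apply Eq.symm
        apply rep_eq
        have := hM1 y hy g hg
        rwa [mul_assoc] at this
      have e2 : C i (y * g) = C i g := keyC i i y hyK (hMcst hy).2 g hg
      rw [e1, ← hu] at k1
      rw [e1, e2, ← hu] at k2
      have e3 : (MulAut.conj u⁻¹).toMonoidHom y = u⁻¹ * y * u := by
        simp [MulAut.conj_apply]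
      rw [e3]
      exact ⟨k1, k2⟩
    have hx2 := hom_mem (MulAut.conj u⁻¹).toMonoidHom hM2 hx
    have hx3 := c3 _ _ hx2 (u⁻¹ * g) (rep_inv_mul H g)
    have e4 : (u⁻¹ * g)⁻¹ * (MulAut.conj u⁻¹).toMonoidHom x * (u⁻¹ * g) = g⁻¹ * x * g := by
      simp [MulAut.conj_apply]
      group
    rwa [e4] at hx3

end Pool.Agent.H80
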