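import Mathlib

set_option autoImplicit false

namespace Pool.Agent.H80

open Equiv

/-- Derived series of a subgroup, as subgroups of the ambient group. -/
def D {G : Type*} [Group G] (S : Subgroup G) : ℕ → Subgroup G
  | 0 => S
  | n + 1 => ⁅D S n, D S n⁆

section basic
variable {G H : Type*} [Group G] [Group H]

@[simp] theorem D_zero (S : Subgroup G) : D S 0 = S := rfl
theorem D_succ (S : Subgroup G) (n : ℕ) : D S (n + 1) = ⁅D S n, D S n⁆ := rfl

theorem D_mono {S T : Subgroup G} (h : S ≤ T) (n : ℕ) : D S n ≤ D T n := by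
  induction n with
  | zero => exact h
  | succ n ih => exact Subgroup.commutator_mono ih ih

theorem D_map (f : G →* H) (S : Subgroup G) (n : ℕ) : (D S n).map f = D (S.map f) n := by
  induction n with
  | zero => rfl
  | succ n ih => rw [D_succ, D_succ, Subgroup.map_commutator, ih]

theorem D_add (S : Subgroup G) (m n : ℕ) : D (D S m) n = D S (m + n) := by
  induction n with
  | zero => rfl
  | succ n ih => rw [D_succ, ih, ← add_assoc, D_succ]

theorem D_one_le (S : Subgroup G) : ⁅S, S⁆ ≤ S := by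
  rw [Subgroup.commutator_le]
  intro a ha b hb
  exact S.mul_mem (S.mul_mem (S.mul_mem ha hb) (S.inv_mem ha)) (S.inv_mem hb)

theorem D_le (S : Subgroup G) (n : ℕ) : D S n ≤ S := by
  induction n with
  | zero => exact le_rfl
  | succ n ih => exact (D_one_le _).trans ih

theorem D_anti (S : Subgroup G) {m n : ℕ} (h : m ≤ n) : D S n ≤ D S m := by
  obtain ⟨k, rfl⟩ := Nat.exists_eq_add_of_le h
  rw [← D_add]
  exact D_le _ _

theorem D_map_subtype (S : Subgroup G) (n : ℕ) :
    (derivedSeries S n).map S.subtype = D S n := by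
  induction n with
  | zero => rw [derivedSeries_zero, ← MonoidHom.range_eq_map, Subgroup.range_subtype]; rfl
  | succ n ih => rw [derivedSeries_succ, Subgroup.map_commutator, ih]; rfl

theorem derivedSeries_eq_bot_iff (S : Subgroup G) (n : ℕ) :
    derivedSeries S n = ⊥ ↔ D S n = ⊥ := by
  rw [← D_map_subtype]
  constructor
  · intro h; rw [h]; simp
  · intro h
    exact (Subgroup.map_eq_bot_iff_of_injective _ S.subtype_injective).1 h

theorem derivedSeries_eq_D (n : ℕ) : derivedSeries G n = D (⊤ : Subgroup G) n := by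
  induction n with
  | zero => rfl
  | succ n ih => rw [derivedSeries_succ, ih]; rfl

/-- An element of the `n`-th derived subgroup is killed by homs whose image has trivial `n`-th
derived subgroup. -/
theorem hom_eq_one {S : Subgroup G} {T : Subgroup H} {n : ℕ} (f : G →* H)
    (hST : ∀ x ∈ S, f x ∈ T) (hT : D T n = ⊥) {x : G} (hx : x ∈ D S n) : f x = 1 := by
  have h1 : S.map f ≤ T := by
    rintro _ ⟨y, hy, rfl⟩; exact hST y hy
  have h2 : f x ∈ D (S.map f) n := by
    rw [← D_map]; exact ⟨x, hx, rfl⟩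
  have h3 := D_mono h1 n h2
  rw [hT] at h3
  simpa using h3

theorem hom_mem {S : Subgroup G} {T : Subgroup H} {n : ℕ} (f : G →* H)
    (hST : ∀ x ∈ S, f x ∈ T) {x : G} (hx : x ∈ D S n) : f x ∈ D T n := by
  have h1 : S.map f ≤ T := by
    rintro _ ⟨y, hy, rfl⟩; exact hST y hy
  have h2 : f x ∈ D (S.map f) n := by
    rw [← D_map]; exact ⟨x, hx, rfl⟩
  exact D_mono h1 n h2

/-- if elements commute pairwise, the next derived subgroup is trivial -/
theorem D_succ_eq_bot {S : Subgroup G} {n : ℕ}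
    (h : ∀ x ∈ D S n, ∀ y ∈ D S n, x * y = y * x) : D S (n + 1) = ⊥ := by
  rw [D_succ, Subgroup.commutator_eq_bot_iff_le_centralizer]
  intro x hx
  rw [Subgroup.mem_centralizer_iff]
  intro y hy
  exact h y hy x hx

theorem D_eq_bot_of_le {S : Subgroup G} {m n : ℕ} (h : m ≤ n) (hm : D S m = ⊥) : D S n = ⊥ := by
  have := D_anti S h
  rw [hm] at this
  exact le_bot_iff.1 this

end basic

section small

/-- V4 inside S4 -/
def V4 : Subgroup (Perm (Fin 4)) where
  carrier := {σ | σ * σ = 1 ∧ Perm.sign σ = 1}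
  mul_mem' := by
    have h : ∀ a b : Perm (Fin 4), (a * a = 1 ∧ Perm.sign a = 1) → (b * b = 1 ∧ Perm.sign b = 1) →
      ((a * b) * (a * b) = 1 ∧ Perm.sign (a * b) = 1) := by
      set_option maxRecDepth 100000 in
      decide +kernel
    intro a b ha hb
    exact h a b ha hb
  one_mem' := by simp
  inv_mem' := by
    have h : ∀ a : Perm (Fin 4), (a * a = 1 ∧ Perm.sign a = 1) → (a⁻¹ * a⁻¹ = 1 ∧ Perm.sign a⁻¹ = 1) := by
      set_option maxRecDepth 100000 in
      decide +kernel
    intro a ha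
    exact h a ha

theorem D_perm4 : D (⊤ : Subgroup (Perm (Fin 4))) 3 = ⊥ := by
  have h1 : D (⊤ : Subgroup (Perm (Fin 4))) 1 ≤ Perm.sign.ker := by
    rw [D_succ, Subgroup.commutator_le]
    intro a _ b _
    rw [MonoidHom.mem_ker, map_commutatorElement, commutatorElement_eq_one_iff_mul_comm, mul_comm]
  have key : ∀ a b : Perm (Fin 4), Perm.sign a = 1 → Perm.sign b = 1 →
      ((a * b * a⁻¹ * b⁻¹) * (a * b * a⁻¹ * b⁻¹) = 1 ∧ Perm.sign (a * b * a⁻¹ * b⁻¹) = 1) := by
    set_option maxRecDepth 100000 in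
    decide +kernel
  have h2 : D (⊤ : Subgroup (Perm (Fin 4))) 2 ≤ V4 := by
    rw [D_succ, Subgroup.commutator_le]
    intro a ha b hb
    exact key a b (h1 ha) (h1 hb)
  have key2 : ∀ a b : Perm (Fin 4), (a * a = 1 ∧ Perm.sign a = 1) → (b * b = 1 ∧ Perm.sign b = 1) →
      a * b = b * a := by
    set_option maxRecDepth 100000 in
    decide +kernel
  apply D_succ_eq_bot
  intro a ha b hb
  exact key2 a b (h2 ha) (h2 hb)

theorem D_perm3 : D (⊤ : Subgroup (Perm (Fin 3))) 2 = ⊥ := by
  have h1 : D (⊤ : Subgroup (Perm (Fin 3))) 1 ≤ Perm.sign.ker := by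
    rw [D_succ, Subgroup.commutator_le]
    intro a _ b _
    rw [MonoidHom.mem_ker, map_commutatorElement, commutatorElement_eq_one_iff_mul_comm, mul_comm]
  have key2 : ∀ a b : Perm (Fin 3), Perm.sign a = 1 → Perm.sign b = 1 →
      a * b = b * a := by
    set_option maxRecDepth 100000 in
    decide +kernel
  apply D_succ_eq_bot
  intro a ha b hb
  exact key2 a b (h1 ha) (h1 hb)

theorem D_perm2 : D (⊤ : Subgroup (Perm (Fin 2))) 1 = ⊥ := by
  have key2 : ∀ a b : Perm (Fin 2),
      a * b = b * a := by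
    set_option maxRecDepth 100000 in
    decide +kernel
  apply D_succ_eq_bot
  intro a ha b hb
  exact key2 a b

theorem D_perm1 : D (⊤ : Subgroup (Perm (Fin 1))) 0 = ⊥ := by
  rw [D_zero]
  exact Subsingleton.elim _ _

theorem D_permFin {n : ℕ} (hn : n ≤ 3) : D (⊤ : Subgroup (Perm (Fin (n + 1)))) n = ⊥ := by
  interval_cases n
  · exact D_perm1
  · exact D_perm2
  · exact D_perm3
  · exact D_perm4

/-- The symmetric group on at most `n+1 ≤ 4` points has derived length at most `n`. -/
theorem D_perm_card {Z : Type*} [Finite Z] {n : ℕ} (hn : n ≤ 3) (hZ : Nat.card Z ≤ n + 1) :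
    D (⊤ : Subgroup (Perm Z)) n = ⊥ := by
  classical
  cases nonempty_fintype Z
  have hc : Fintype.card Z ≤ Fintype.card (Fin (n + 1)) := by
    rw [← Nat.card_eq_fintype_card]; simpa using hZ
  obtain ⟨e⟩ := Function.Embedding.nonempty_of_card_le hc
  let f : Perm Z →* Perm (Fin (n + 1)) := Equiv.Perm.extendDomainHom e.toEquivRange
  have hf : Function.Injective f := Equiv.Perm.extendDomainHom_injective _
  rw [eq_bot_iff]
  intro x hx
  rw [Subgroup.mem_bot]
  apply hf
  rw [map_one]
  exact hom_eq_one f (fun y _ => Subgroup.mem_top (f y)) (D_permFin hn) hx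

/-- Orbit version: if `S` maps a set `Y` of at most `n+1 ≤ 4` points to itself then the `n`-th derived
subgroup of `S` fixes `Y` pointwise. -/
theorem D_fix {G Ω : Type*} [Group G] (ρ : G →* Perm Ω) {S : Subgroup G} {Y : Finset Ω} {n : ℕ}
    (hn : n ≤ 3) (hY : Y.card ≤ n + 1) (hS : ∀ s ∈ S, ∀ y ∈ Y, ρ s y ∈ Y)
    {x : G} (hx : x ∈ D S n) : ∀ y ∈ Y, ρ x y = y := by
  classical
  have hiff : ∀ s : S, ∀ y, (ρ s y ∈ Y ↔ y ∈ Y) := by
    intro s y
    constructor
    · intro h
      have := hS s⁻¹ (S.inv_mem s.2) _ h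
      simpa using this
    · exact hS s s.2 y
  let f : S →* Perm {y // y ∈ Y} :=
    { toFun := fun s => (ρ s).subtypePerm (fun y => (hiff s y))
      map_one' := by ext y; simp
      map_mul' := by
        intro a b; ext y
        change ρ ((a * b : S) : G) y = ρ a (ρ b y)
        simp }
  have hx' : x ∈ (D (⊤ : Subgroup S) n).map S.subtype := by
    rw [← derivedSeries_eq_D, D_map_subtype]; exact hx
  obtain ⟨s, hs, rfl⟩ := hx'
  have hcard : Nat.card {y // y ∈ Y} ≤ n + 1 := by simpa using hY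
  have h1 : f s = 1 := hom_eq_one f (fun y _ => Subgroup.mem_top (f y)) (D_perm_card hn hcard) hs
  intro y hy
  have h2 : (f s ⟨y, hy⟩ : Ω) = y := by rw [h1]; rfl
  simpa [f] using h2

/-- Version with an `S`-invariant function with fibres of size at most `n+1` replaced by the
statement that each orbit is small. -/
theorem D_fix_orbit {G Ω : Type*} [Group G] (ρ : G →* Perm Ω) {S : Subgroup G} {n : ℕ}
    (hn : n ≤ 3) (y : Ω) (Y : Finset Ω) (hY : Y.card ≤ n + 1) (hS : ∀ s ∈ S, ρ s y ∈ Y)
    {x : G} (hx : x ∈ D S n) : ρ x y = y := by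
  classical
  let O : Finset Ω := Y.filter (fun z => ∃ s ∈ S, ρ s y = z)
  have hO : O.card ≤ n + 1 := (Finset.card_filter_le _ _).trans hY
  apply D_fix ρ hn hO ?_ hx
  · simp only [O, Finset.mem_filter]
    have := hS 1 S.one_mem
    refine ⟨by simpa using this, 1, S.one_mem, by simp⟩
  · intro s hs z hz
    simp only [O, Finset.mem_filter] at hz ⊢
    obtain ⟨_, t, ht, rfl⟩ := hz
    have h1 : ρ s (ρ t y) = ρ (s * t) y := by simp
    rw [h1]
    exact ⟨hS _ (S.mul_mem hs ht), s * t, S.mul_mem hs ht, rfl⟩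

end small

end Pool.Agent.H80
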