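import Pool.Agent.H80.Aff

set_option autoImplicit false

namespace Pool.Agent.H80

open Equiv
open scoped commutatorElement

section general

/-- version of `D_fix` for an action of the subgroup itself -/
theorem D_fixS {G Ω : Type*} [Group G] {S : Subgroup G} (ρ : S →* Perm Ω) {Y : Finset Ω} {n : ℕ}
    (hn : n ≤ 3) (hY : Y.card ≤ n + 1) (hS : ∀ s : S, ∀ y ∈ Y, ρ s y ∈ Y)
    {x : S} (hx : (x : G) ∈ D S n) : ∀ y ∈ Y, ρ x y = y := by
  have hx' : x ∈ D (⊤ : Subgroup S) n := by
    have h1 : (x : G) ∈ (D (⊤ : Subgroup S) n).map S.subtype := by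
      rw [← derivedSeries_eq_D, D_map_subtype]; exact hx
    obtain ⟨y, hy, hyx⟩ := h1
    have : y = x := Subtype.ext hyx
    rwa [← this]
  exact D_fix ρ hn hY (fun s _ => hS s) hx'

/-- version for the action on a quotient set with a fixed point -/
theorem D_fixq {Ω Z : Type*} [Fintype Z] [DecidableEq Z] {S : Subgroup (Perm Ω)} (q : Ω → Z)
    (hq : Function.Surjective q) (z₀ : Z) {n : ℕ} (hn : n ≤ 3) (hZ : Fintype.card Z ≤ n + 2)
    (h1 : ∀ σ ∈ S, ∀ v w, q v = q w → q (σ v) = q (σ w))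
    (h2 : ∀ σ ∈ S, ∀ v, q v = z₀ → q (σ v) = z₀)
    {x : Perm Ω} (hx : x ∈ D S n) : ∀ v, q (x v) = q v := by
  let g : Z → Ω := Function.surjInv hq
  have hg : ∀ z, q (g z) = z := Function.surjInv_eq hq
  let ρ : S →* Perm Z :=
    { toFun := fun σ =>
        { toFun := fun z => q ((σ : Perm Ω) (g z))
          invFun := fun z => q ((σ : Perm Ω)⁻¹ (g z))
          left_inv := by
            intro z
            have := h1 _ (S.inv_mem σ.2) (g (q ((σ : Perm Ω) (g z)))) ((σ : Perm Ω) (g z)) (hg _)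
            change q ((σ : Perm Ω)⁻¹ (g (q ((σ : Perm Ω) (g z))))) = z
            rw [this, ← Perm.mul_apply, inv_mul_cancel, Perm.one_apply, hg]
          right_inv := by
            intro z
            have := h1 _ σ.2 (g (q ((σ : Perm Ω)⁻¹ (g z)))) ((σ : Perm Ω)⁻¹ (g z)) (hg _)
            change q ((σ : Perm Ω) (g (q ((σ : Perm Ω)⁻¹ (g z))))) = z
            rw [this, ← Perm.mul_apply, mul_inv_cancel, Perm.one_apply, hg] }
      map_one' := by ext z; exact hg z
      map_mul' := by
        intro a b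
        ext z
        have := h1 _ a.2 (g (q ((b : Perm Ω) (g z)))) ((b : Perm Ω) (g z)) (hg _)
        change q (((a * b : S) : Perm Ω) (g z)) = q ((a : Perm Ω) (g (q ((b : Perm Ω) (g z)))))
        rw [this]; rfl }
  have hρ : ∀ (σ : S) (v : Ω), ρ σ (q v) = q ((σ : Perm Ω) v) := by
    intro σ v
    exact h1 _ σ.2 _ _ (hg _)
  have hxS : x ∈ S := D_le _ _ hx
  have key := D_fixS ρ (Y := Finset.univ.erase z₀) hn (by
      rw [Finset.card_erase_of_mem (Finset.mem_univ _), Finset.card_univ]; omega) (by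
      intro s y hy
      rw [Finset.mem_erase] at hy ⊢
      refine ⟨fun hcon => hy.1 ?_, Finset.mem_univ _⟩
      have h3 := h2 _ (S.inv_mem s.2) ((s : Perm Ω) (g y)) (by rw [← hρ, hg]; exact hcon)
      rw [← Perm.mul_apply, inv_mul_cancel, Perm.one_apply, hg] at h3
      exact h3) (x := ⟨x, hxS⟩) hx
  intro v
  by_cases hv : q v = z₀
  · rw [hv]; exact h2 x hxS v hv
  · have := key (q v) (by rw [Finset.mem_erase]; exact ⟨hv, Finset.mem_univ _⟩)
    rw [hρ] at this
    exact this

end general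

section affine
variable {V : Type*} [AddCommGroup V]

theorem aff_add {σ : Perm V} (hσ : σ ∈ Aff V) (u w : V) : σ (u + w) = σ u + σ w - σ 0 := by
  have := hσ u 0 w
  rw [sub_zero] at this
  rw [this]; abel

theorem aff_shift {σ : Perm V} (hσ : σ ∈ Aff V) (v w t : V) (h : σ (w + t) = σ w + t) :
    σ (v + t) = σ v + t := by
  have h1 := hσ v w (w + t)
  rw [h] at h1
  have e1 : v - w + (w + t) = v + t := by abel
  rw [e1] at h1
  rw [h1]; abel

/-- Flag lemma. -/
theorem D_flag {S : Subgroup (Perm V)} {n : ℕ} (U : AddSubgroup V)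
    (h1 : ∀ σ ∈ D S n, ∀ u ∈ U, ∀ v, σ (v + u) = σ v + u)
    (h2 : ∀ σ ∈ D S n, ∀ v, σ v - v ∈ U) : D S (n + 1) = ⊥ := by
  apply D_succ_eq_bot
  intro σ hσ τ hτ
  ext v
  have a1 := h1 σ hσ (τ v - v) (h2 τ hτ v) v
  have a2 := h1 τ hτ (σ v - v) (h2 σ hσ v) v
  rw [add_sub_cancel] at a1 a2
  rw [Perm.mul_apply, Perm.mul_apply, a1, a2]
  abel

/-- In a group of maps multiplying a functional by scalars, commutators preserve the functional. -/
theorem D_one_scalar {V' R : Type*} [CommRing R] {S : Subgroup (Perm V')} (φ : V' → R)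
    (h : ∀ σ ∈ S, ∃ b : R, ∀ v, φ (σ v) = b * φ v) {σ : Perm V'} (hσ : σ ∈ D S 1) (v : V') :
    φ (σ v) = φ v := by
  let T : Subgroup (Perm V') :=
    { carrier := {σ | ∀ v, φ (σ v) = φ v}
      mul_mem' := by intro a b ha hb v; rw [Perm.mul_apply, ha, hb]
      one_mem' := by intro v; rfl
      inv_mem' := by
        intro a ha v
        have := ha (a⁻¹ v)
        rw [← Perm.mul_apply, mul_inv_cancel, Perm.one_apply] at this
        exact this.symm }
  have hle : D S 1 ≤ T := by
    rw [D_succ, D_zero, Subgroup.commutator_le]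
    intro a ha b hb v
    obtain ⟨x, hx⟩ := h a ha
    obtain ⟨y, hy⟩ := h b hb
    have e1 : v = b (a (a⁻¹ (b⁻¹ v))) := by
      rw [← Perm.mul_apply a, mul_inv_cancel, Perm.one_apply, ← Perm.mul_apply b, mul_inv_cancel,
        Perm.one_apply]
    have e2 : ⁅a, b⁆ v = a (b (a⁻¹ (b⁻¹ v))) := by
      rw [commutatorElement_def]; rfl
    rw [e2, hx, hy]
    conv_rhs => rw [e1, hy, hx]
    ring
  exact hle hσ v

end affine

section coords
variable {p k : ℕ} [Fact p.Prime]

/-- standard basis vector -/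
def ev (i : Fin k) : Fin k → ZMod p := Pi.single i 1

/-- partial sums of the standard basis -/
def sv (k p j : ℕ) : Fin k → ZMod p := fun i => if (i : ℕ) < j then 1 else 0

@[simp] theorem ev_same (i : Fin k) : (ev i : Fin k → ZMod p) i = 1 := by simp [ev]
theorem ev_ne {i l : Fin k} (h : l ≠ i) : (ev i : Fin k → ZMod p) l = 0 := by simp [ev, h]
theorem ev_apply (i l : Fin k) : (ev i : Fin k → ZMod p) l = if l = i then 1 else 0 := by
  by_cases h : l = i
  · subst h; simp
  · rw [ev_ne h, if_neg h]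

theorem ev_ne_zero (i : Fin k) : (ev i : Fin k → ZMod p) ≠ 0 := by
  intro h
  have := congrFun h i
  rw [ev_same] at this
  exact one_ne_zero this

theorem ev_inj : Function.Injective (ev : Fin k → Fin k → ZMod p) := by
  intro i l h
  by_contra hne
  have := congrFun h i
  rw [ev_same, ev_ne hne] at this
  exact one_ne_zero this

theorem aff_apply {σ : Perm (Fin k → ZMod p)} (hσ : σ ∈ Aff (Fin k → ZMod p))
    (v : Fin k → ZMod p) : σ v = ∑ i, v i • (σ (ev i) - σ 0) + σ 0 := by
  let L : (Fin k → ZMod p) →+ (Fin k → ZMod p) :=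
    { toFun := fun v => σ v - σ 0
      map_zero' := by simp
      map_add' := by intro u w; rw [aff_add hσ]; abel }
  let L' := L.toZModLinearMap p
  have h1 : v = ∑ i, v i • (ev i : Fin k → ZMod p) := by
    ext l
    rw [Finset.sum_apply]
    simp [ev_apply]
  have h2 : L' v = ∑ i, v i • L' (ev i) := by
    conv_lhs => rw [h1]
    rw [map_sum]
    simp
  have h3 : ∀ w, L' w = σ w - σ 0 := fun w => rfl
  simp only [h3] at h2
  rw [← h2]; abel

/-- an affine map fixing `0` and the basis is the identity -/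
theorem aff_eq_one {σ : Perm (Fin k → ZMod p)} (hσ : σ ∈ Aff (Fin k → ZMod p))
    (h0 : σ 0 = 0) (h : ∀ i, σ (ev i) = ev i) : σ = 1 := by
  ext v l
  rw [aff_apply hσ, h0]
  simp [h, ev_apply]

/-- coordinates transport: `σ` maps the partial frame `{0} ∪ {e_i : i ∈ I}` to itself and
`e_i` to `e_l`; then for `w` supported on `I`, the `l`-coordinate of the image of `w` under the
linear part is the `i`-coordinate of `w`. -/
theorem aff_coord {σ : Perm (Fin k → ZMod p)} (hσ : σ ∈ Aff (Fin k → ZMod p)) (I : Fin k → Prop)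
    (h0 : σ 0 = 0 ∨ ∃ m, I m ∧ σ 0 = ev m)
    (hI : ∀ i, I i → (σ (ev i) = 0 ∨ ∃ m, I m ∧ σ (ev i) = ev m))
    {i l : Fin k} (hil : σ (ev i) = ev l) (u v : Fin k → ZMod p)
    (huv : ∀ j, ¬ I j → u j = v j) : (σ u - σ v) l = u i - v i := by
  have hz : ∀ x : Fin k → ZMod p, (x = 0 ∨ ∃ m, I m ∧ x = ev m) → x ≠ ev l → x l = 0 := by
    rintro x (rfl | ⟨m, _, rfl⟩) hne
    · rfl
    · apply ev_ne
      rintro rfl
      exact hne rfl
  have h0' : (σ 0) l = 0 := by
    apply hz _ h0
    rw [← hil]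
    intro h
    exact ev_ne_zero i (σ.injective h).symm
  have e1 : (σ u - σ v) l = ∑ j, (u j - v j) * ((σ (ev j)) l - (σ 0) l) := by
    rw [Pi.sub_apply, aff_apply hσ u, aff_apply hσ v]
    simp only [Pi.add_apply, Finset.sum_apply, Pi.smul_apply, Pi.sub_apply, smul_eq_mul]
    rw [add_sub_add_right_eq_sub, ← Finset.sum_sub_distrib]
    exact Finset.sum_congr rfl (fun j _ => by ring)
  rw [e1, Finset.sum_eq_single i]
  · rw [hil, ev_same, h0']; ring
  · intro j _ hji
    by_cases hj : I j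
    · have : (σ (ev j)) l = 0 := by
        apply hz _ (hI j hj)
        rw [← hil]
        intro h
        exact hji (ev_inj (σ.injective h))
      rw [this, h0']; ring
    · rw [huv j hj]; ring
  · intro h; exact absurd (Finset.mem_univ _) h

end coords

section counting
variable {V : Type*} [Fintype V] [DecidableEq V]

/-- number of points of a given colour -/
def cnt {q : ℕ} (Γ : V → Fin q) (c : Fin q) : ℕ := (Finset.univ.filter (fun v => Γ v = c)).card

theorem cnt_eq {q : ℕ} {Γ Γ' : V → Fin q} {σ : Perm V} (h : ∀ v, Γ' (σ v) = Γ v) (c : Fin q) :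
    cnt Γ' c = cnt Γ c := by
  unfold cnt
  symm
  apply Finset.card_bij (fun v _ => σ v)
  · intro v hv
    rw [Finset.mem_filter] at hv ⊢
    exact ⟨Finset.mem_univ _, by rw [h, hv.2]⟩
  · intro a _ b _ hab; exact σ.injective hab
  · intro b hb
    rw [Finset.mem_filter] at hb
    refine ⟨σ⁻¹ b, ?_, ?_⟩
    · rw [Finset.mem_filter]
      refine ⟨Finset.mem_univ _, ?_⟩
      rw [← h, ← Perm.mul_apply, mul_inv_cancel, Perm.one_apply]; exact hb.2
    · rw [← Perm.mul_apply, mul_inv_cancel, Perm.one_apply]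

/-- permuting colours permutes counts -/
theorem cnt_perm {q : ℕ} (Γ : V → Fin q) (π : Perm (Fin q)) (c : Fin q) :
    cnt (fun v => π (Γ v)) c = cnt Γ (π⁻¹ c) := by
  unfold cnt
  congr 1
  ext v
  simp only [Finset.mem_filter, Finset.mem_univ, true_and]
  exact Equiv.apply_eq_iff_eq_symm_apply π

end counting

theorem vst_perm {V : Type*} [AddCommGroup V] {q : ℕ} (Γ : V → Fin q) (π : Perm (Fin q)) :
    vst (fun v => π (Γ v)) = vst Γ := by
  ext σ
  simp [mem_vst]

end Pool.Agent.H80
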