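import Pool.Agent.H80.Upper

set_option autoImplicit false

namespace Pool.Agent.H80

open Equiv
open scoped commutatorElement

section wreath
variable {Ω : Type*}

/-- the permutation `(i, x) ↦ (τ i, f i x)` -/
def mkW (τ : Perm (Fin 4)) (f : Fin 4 → Perm Ω) : Perm (Fin 4 × Ω) where
  toFun v := (τ v.1, f v.1 v.2)
  invFun v := (τ.symm v.1, (f (τ.symm v.1)).symm v.2)
  left_inv := by rintro ⟨i, x⟩; simp
  right_inv := by rintro ⟨i, x⟩; simp

theorem mkW_apply (τ : Perm (Fin 4)) (f : Fin 4 → Perm Ω) (i : Fin 4) (x : Ω) :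
    mkW τ f (i, x) = (τ i, f i x) := rfl

/-- wreath product with the symmetric group on four blocks -/
def Wr (P : Subgroup (Perm Ω)) : Subgroup (Perm (Fin 4 × Ω)) where
  carrier := {σ | ∃ τ : Perm (Fin 4), ∃ f : Fin 4 → Perm Ω, (∀ i, f i ∈ P) ∧ σ = mkW τ f}
  mul_mem' := by
    rintro _ _ ⟨τ, f, hf, rfl⟩ ⟨τ', f', hf', rfl⟩
    refine ⟨τ * τ', fun i => f (τ' i) * f' i, fun i => P.mul_mem (hf _) (hf' _), ?_⟩
    ext ⟨i, x⟩ <;> rfl
  one_mem' := ⟨1, fun _ => 1, fun _ => P.one_mem, by ext ⟨i, x⟩ <;> rfl⟩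
  inv_mem' := by
    rintro _ ⟨τ, f, hf, rfl⟩
    refine ⟨τ⁻¹, fun i => (f (τ⁻¹ i))⁻¹, fun i => P.inv_mem (hf _), ?_⟩
    ext ⟨i, x⟩ <;> rfl

theorem mkW_mem {P : Subgroup (Perm Ω)} {τ : Perm (Fin 4)} {f : Fin 4 → Perm Ω}
    (hf : ∀ i, f i ∈ P) : mkW τ f ∈ Wr P := ⟨τ, f, hf, rfl⟩

/-- the base group element acting on a single block, as a homomorphism -/
def blk (i : Fin 4) : Perm Ω →* Perm (Fin 4 × Ω) where
  toFun g := mkW 1 (Function.update (fun _ => 1) i g)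
  map_one' := by
    ext ⟨j, x⟩
    · rfl
    · by_cases h : j = i
      · subst h; simp [mkW_apply]
      · simp [mkW_apply, h]
  map_mul' := by
    intro a b
    ext ⟨j, x⟩
    · rfl
    · by_cases h : j = i
      · subst h; simp [mkW_apply]
      · simp [mkW_apply, h]

theorem blk_apply_same (i : Fin 4) (g : Perm Ω) (x : Ω) : blk i g (i, x) = (i, g x) := by
  simp [blk, mkW_apply]

theorem blk_apply_ne {i j : Fin 4} (h : j ≠ i) (g : Perm Ω) (x : Ω) : blk i g (j, x) = (j, x) := by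
  simp [blk, mkW_apply, h]

theorem blk_inj (i : Fin 4) : Function.Injective (blk i : Perm Ω →* Perm (Fin 4 × Ω)) := by
  intro a b hab
  ext x
  have := congrArg (fun s : Perm (Fin 4 × Ω) => (s (i, x)).2) hab
  simpa [blk_apply_same] using this

theorem blk_mem {P : Subgroup (Perm Ω)} (i : Fin 4) {g : Perm Ω} (hg : g ∈ P) :
    blk i g ∈ Wr P := by
  refine ⟨1, _, ?_, rfl⟩
  intro j
  by_cases h : j = i
  · subst h; simpa using hg
  · simpa [h] using P.one_mem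

/-- transfer of nontriviality of the second derived subgroup -/
theorem D2_transfer {G H : Type*} [Group G] [Group H] (f : G →* H) (hf : Function.Injective f)
    {S : Subgroup G} {T : Subgroup H} (hST : ∀ x ∈ S, f x ∈ T) (hS : D S 2 ≠ ⊥) : D T 2 ≠ ⊥ := by
  intro hT
  apply hS
  rw [eq_bot_iff]
  intro x hx
  rw [Subgroup.mem_bot]
  apply hf
  rw [map_one]
  exact hom_eq_one f hST hT hx

/-- step (a) -/
theorem step_a {P : Subgroup (Perm Ω)} (γ : Fin 4 × Ω → Fin 2) (i : Fin 4)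
    (h : D (pst P (fun x => γ (i, x))) 2 ≠ ⊥) : D (pst (Wr P) γ) 2 ≠ ⊥ := by
  apply D2_transfer (blk i) (blk_inj i) ?_ h
  rintro g ⟨hg, hg'⟩
  refine ⟨blk_mem i hg, ?_⟩
  rintro ⟨j, x⟩
  by_cases hj : j = i
  · subst hj
    rw [blk_apply_same]; exact hg' x
  · rw [blk_apply_ne hj]

theorem D2_S4 : D (⊤ : Subgroup (Perm (Fin 4))) 2 ≠ ⊥ := by
  intro h
  have h1 : ⁅⁅(swap 0 1 : Perm (Fin 4)), (swap 1 2 : Perm (Fin 4))⁆,
      ⁅(swap 1 2 : Perm (Fin 4)), (swap 2 3 : Perm (Fin 4))⁆⁆ ∈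
      D (⊤ : Subgroup (Perm (Fin 4))) 2 := by
    apply Subgroup.commutator_mem_commutator
    · exact Subgroup.commutator_mem_commutator trivial trivial
    · exact Subgroup.commutator_mem_commutator trivial trivial
  rw [h, Subgroup.mem_bot] at h1
  revert h1
  rw [commutatorElement_def, commutatorElement_def, commutatorElement_def]
  decide

/-- step (b) -/
theorem step_b {P : Subgroup (Perm Ω)} [Nonempty Ω] (γ : Fin 4 × Ω → Fin 2) (δ : Ω → Fin 2)
    (f : Fin 4 → Perm Ω) (hf : ∀ i, f i ∈ P) (h : ∀ i x, γ (i, x) = δ (f i x)) :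
    D (pst (Wr P) γ) 2 ≠ ⊥ := by
  let F : Perm (Fin 4) →* Perm (Fin 4 × Ω) :=
    { toFun := fun τ => mkW τ (fun i => (f (τ i))⁻¹ * f i)
      map_one' := by ext ⟨j, x⟩ <;> simp [mkW_apply]
      map_mul' := by intro a b; ext ⟨j, x⟩ <;> simp [mkW_apply] }
  have hF : Function.Injective F := by
    intro a b hab
    refine Equiv.ext (fun i => ?_)
    obtain ⟨x⟩ := ‹Nonempty Ω›
    have := congrArg (fun s : Perm (Fin 4 × Ω) => (s (i, x)).1) hab
    simpa [F, mkW_apply] using this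
  apply D2_transfer F hF (S := ⊤) ?_ D2_S4
  intro τ _
  refine ⟨(mkW_mem (fun i => P.mul_mem (P.inv_mem (hf _)) (hf _)) :
    mkW τ (fun i => (f (τ i))⁻¹ * f i) ∈ Wr P), ?_⟩
  rintro ⟨i, x⟩
  change γ (τ i, ((f (τ i))⁻¹ * f i) x) = γ (i, x)
  rw [h, h, ← Perm.mul_apply, mul_inv_cancel_left]

/-- conjugation -/
theorem step_conj {Q : Subgroup (Perm Ω)} {δ δ' : Ω → Fin 2} {g : Perm Ω} (hg : g ∈ Q)
    (h : ∀ v, δ v = δ' (g v)) (h' : D (pst Q δ') 2 ≠ ⊥) : D (pst Q δ) 2 ≠ ⊥ := by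
  apply D2_transfer (MulAut.conj g⁻¹).toMonoidHom (MulAut.conj g⁻¹).injective ?_ h'
  rintro y ⟨hy, hy'⟩
  have e : (MulAut.conj g⁻¹).toMonoidHom y = g⁻¹ * y * g := by simp
  rw [e]
  refine ⟨Q.mul_mem (Q.mul_mem (Q.inv_mem hg) hy) hg, fun v => ?_⟩
  rw [h, h, ← Perm.mul_apply]
  have : g * (g⁻¹ * y * g) = y * g := by group
  rw [this, Perm.mul_apply, hy']

end wreath

section sixteen

/-- standard colouring with the first `n` points coloured one -/
def std (n : Fin 5) (x : Fin 4) : Fin 2 := if (x : ℕ) < (n : ℕ) then 1 else 0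

/-- block colouring -/
def dn (n : Fin 4 → Fin 5) (v : Fin 4 × Fin 4) : Fin 2 := std (n v.1) v.2

theorem std_ex : ∀ g : Fin 4 → Fin 2, ∃ n : Fin 5, ∃ f : Perm (Fin 4), ∀ x, g x = std n (f x) := by
  decide +kernel

/-- the exceptional pattern -/
def n0 : Fin 4 → Fin 5 := ![1, 2, 2, 3]

theorem patterns : ∀ a b c d : Fin 5,
    (∃ i, (![a, b, c, d] : Fin 4 → Fin 5) i = 0 ∨ (![a, b, c, d] : Fin 4 → Fin 5) i = 4) ∨
    (∃ i j, i ≠ j ∧ (![a, b, c, d] : Fin 4 → Fin 5) i = (![a, b, c, d] : Fin 4 → Fin 5) j ∧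
      ((![a, b, c, d] : Fin 4 → Fin 5) i = 1 ∨ (![a, b, c, d] : Fin 4 → Fin 5) i = 3)) ∨
    (∃ i j l, i ≠ j ∧ j ≠ l ∧ i ≠ l ∧ (![a, b, c, d] : Fin 4 → Fin 5) i = 2 ∧
      (![a, b, c, d] : Fin 4 → Fin 5) j = 2 ∧ (![a, b, c, d] : Fin 4 → Fin 5) l = 2) ∨
    (∃ τ : Perm (Fin 4), ∀ i, (![a, b, c, d] : Fin 4 → Fin 5) i = n0 (τ i)) := by
  decide +kernel

theorem patterns' (n : Fin 4 → Fin 5) :
    (∃ i, n i = 0 ∨ n i = 4) ∨ (∃ i j, i ≠ j ∧ n i = n j ∧ (n i = 1 ∨ n i = 3)) ∨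
    (∃ i j l, i ≠ j ∧ j ≠ l ∧ i ≠ l ∧ n i = 2 ∧ n j = 2 ∧ n l = 2) ∨
    (∃ τ : Perm (Fin 4), ∀ i, n i = n0 (τ i)) := by
  have : n = ![n 0, n 1, n 2, n 3] := by
    ext i; fin_cases i <;> rfl
  rw [this]
  exact patterns _ _ _ _

theorem mem_of_four {G : Type*} [Group G] {S : Subgroup G} {a b c d : G} (ha : a ∈ S) (hb : b ∈ S)
    (hc : c ∈ S) (hd : d ∈ S) (h : ⁅⁅a, b⁆, ⁅c, d⁆⁆ ≠ 1) : D S 2 ≠ ⊥ := by
  intro hS
  have h1 : ⁅⁅a, b⁆, ⁅c, d⁆⁆ ∈ D S 2 :=
    Subgroup.commutator_mem_commutator (Subgroup.commutator_mem_commutator ha hb)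
      (Subgroup.commutator_mem_commutator hc hd)
  rw [hS, Subgroup.mem_bot] at h1
  exact h h1

theorem swap_mem {n : Fin 4 → Fin 5} {i j : Fin 4} (h : n i = n j) :
    mkW (swap i j) (fun _ => 1) ∈ pst (Wr (⊤ : Subgroup (Perm (Fin 4)))) (dn n) := by
  refine ⟨mkW_mem (fun _ => trivial), ?_⟩
  rintro ⟨k, x⟩
  rw [mkW_apply]
  simp only [dn, Perm.one_apply]
  congr 1
  by_cases hk : k = i
  · subst hk; rw [swap_apply_left, h]
  · by_cases hk' : k = j
    · subst hk'; rw [swap_apply_right, h]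
    · rw [swap_apply_of_ne_of_ne hk hk']

theorem blk_mem_dn {n : Fin 4 → Fin 5} {i : Fin 4} {g : Perm (Fin 4)}
    (h : ∀ x, std (n i) (g x) = std (n i) x) :
    blk i g ∈ pst (Wr (⊤ : Subgroup (Perm (Fin 4)))) (dn n) := by
  refine ⟨blk_mem i trivial, ?_⟩
  rintro ⟨k, x⟩
  by_cases hk : k = i
  · subst hk
    rw [blk_apply_same]; exact h x
  · rw [blk_apply_ne hk]

theorem nontriv2 : ∀ i j : Fin 4, i ≠ j → ∀ a b c : Fin 4, a ≠ b → b ≠ c → a ≠ c →
    ⁅⁅(mkW (swap i j) (fun _ => 1) : Perm (Fin 4 × Fin 4)), blk i (swap a b)⁆,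
      ⁅(blk i (swap a b) : Perm (Fin 4 × Fin 4)), blk i (swap b c)⁆⁆ (i, c) ≠ (i, c) := by
  simp only [commutatorElement_def]
  decide +kernel

theorem nontriv3 : ∀ i j l : Fin 4, i ≠ j → j ≠ l → i ≠ l → ∃ v : Fin 4 × Fin 4,
    ⁅⁅(mkW (swap i j) (fun _ => 1) : Perm (Fin 4 × Fin 4)),
        (mkW (swap j l) (fun _ => 1) : Perm (Fin 4 × Fin 4))⁆,
      ⁅(blk i (swap 0 1) : Perm (Fin 4 × Fin 4)),
        (mkW (swap i j) (fun _ => 1) : Perm (Fin 4 × Fin 4))⁆⁆ v ≠ v := by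
  simp only [commutatorElement_def]
  decide +kernel

theorem sixteen (δ : Fin 4 × Fin 4 → Fin 2) :
    D (pst (Wr (⊤ : Subgroup (Perm (Fin 4)))) δ) 2 ≠ ⊥ ∨
    ∃ g ∈ Wr (⊤ : Subgroup (Perm (Fin 4))), ∀ v, δ v = dn n0 (g v) := by
  have h1 : ∀ i : Fin 4, ∃ n : Fin 5, ∃ f : Perm (Fin 4), ∀ x, δ (i, x) = std n (f x) :=
    fun i => std_ex _
  choose n f hf using h1
  have hg : (mkW 1 f : Perm (Fin 4 × Fin 4)) ∈ Wr (⊤ : Subgroup (Perm (Fin 4))) :=
    mkW_mem (fun _ => trivial)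
  have hδ : ∀ v, δ v = dn n (mkW 1 f v) := by
    rintro ⟨i, x⟩
    exact hf i x
  rcases patterns' n with ⟨i, hi⟩ | ⟨i, j, hij, hn, h13⟩ | ⟨i, j, l, hij, hjl, hil, h1, h2, h3⟩ |
    ⟨τ, hτ⟩
  · left
    apply step_conj hg hδ
    apply step_a _ i
    have : pst (⊤ : Subgroup (Perm (Fin 4))) (fun x => dn n (i, x)) = ⊤ := by
      rw [eq_top_iff]
      intro g _
      refine ⟨trivial, fun x => ?_⟩
      simp only [dn]
      rcases hi with h | h <;> rw [h] <;> simp [std]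
    rw [this]
    exact D2_S4
  · left
    apply step_conj hg hδ
    rcases h13 with h | h
    · apply mem_of_four (swap_mem hn) (blk_mem_dn (i := i) (g := swap 1 2) ?_)
        (blk_mem_dn (i := i) (g := swap 1 2) ?_) (blk_mem_dn (i := i) (g := swap 2 3) ?_)
      · intro hcon
        have := nontriv2 i j hij 1 2 3 (by decide) (by decide) (by decide)
        rw [hcon] at this
        exact this rfl
      · rw [h]; decide
      · rw [h]; decide
      · rw [h]; decide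
    · apply mem_of_four (swap_mem hn) (blk_mem_dn (i := i) (g := swap 0 1) ?_)
        (blk_mem_dn (i := i) (g := swap 0 1) ?_) (blk_mem_dn (i := i) (g := swap 1 2) ?_)
      · intro hcon
        have := nontriv2 i j hij 0 1 2 (by decide) (by decide) (by decide)
        rw [hcon] at this
        exact this rfl
      · rw [h]; decide
      · rw [h]; decide
      · rw [h]; decide
  · left
    apply step_conj hg hδ
    apply mem_of_four (swap_mem (h1.trans h2.symm)) (swap_mem (h2.trans h3.symm))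
      (blk_mem_dn (i := i) (g := swap 0 1) ?_) (swap_mem (h1.trans h2.symm))
    · intro hcon
      obtain ⟨v, hv⟩ := nontriv3 i j l hij hjl hil
      rw [hcon] at hv
      exact hv rfl
    · rw [h1]; decide
  · right
    refine ⟨mkW τ f, mkW_mem (fun _ => trivial), ?_⟩
    rintro ⟨i, x⟩
    rw [hf, hτ]; rfl

/-- every two-colouring of the 64 points has a colour preserving subgroup of derived length at
least three -/
theorem lower (γ : Fin 4 × (Fin 4 × Fin 4) → Fin 2) :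
    D (pst (Wr (Wr (⊤ : Subgroup (Perm (Fin 4))))) γ) 2 ≠ ⊥ := by
  by_cases h : ∃ i, D (pst (Wr (⊤ : Subgroup (Perm (Fin 4)))) (fun x => γ (i, x))) 2 ≠ ⊥
  · obtain ⟨i, hi⟩ := h
    exact step_a γ i hi
  · have h2 : ∀ i, ∃ g ∈ Wr (⊤ : Subgroup (Perm (Fin 4))), ∀ v, γ (i, v) = dn n0 (g v) := by
      intro i
      rcases sixteen (fun x => γ (i, x)) with h3 | h3
      · exact absurd ⟨i, h3⟩ h
      · exact h3
    choose g hg hg' using h2
    exact step_b γ (dn n0) g hg hg'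

end sixteen

section solvable
variable {Ω : Type*}

theorem Wr_solv [Nonempty Ω] {P : Subgroup (Perm Ω)} {m : ℕ} (hP : D P m = ⊥) :
    D (Wr P) (3 + m) = ⊥ := by
  classical
  -- the base group
  let B : Subgroup (Perm (Fin 4 × Ω)) :=
    { carrier := {σ | ∃ f : Fin 4 → Perm Ω, (∀ i, f i ∈ P) ∧ σ = mkW 1 f}
      mul_mem' := by
        rintro _ _ ⟨f, hf, rfl⟩ ⟨f', hf', rfl⟩
        exact ⟨fun i => f i * f' i, fun i => P.mul_mem (hf i) (hf' i), by ext ⟨i, x⟩ <;> rfl⟩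
      one_mem' := ⟨fun _ => 1, fun _ => P.one_mem, by ext ⟨i, x⟩ <;> rfl⟩
      inv_mem' := by
        rintro _ ⟨f, hf, rfl⟩
        exact ⟨fun i => (f i)⁻¹, fun i => P.inv_mem (hf i), by ext ⟨i, x⟩ <;> rfl⟩ }
  obtain ⟨x₀⟩ := ‹Nonempty Ω›
  -- homomorphism to the top group
  have hW : ∀ σ : Wr P, ∀ i x, ((σ : Perm (Fin 4 × Ω)) (i, x)).1 =
      ((σ : Perm (Fin 4 × Ω)) (i, x₀)).1 := by
    rintro ⟨_, τ, f, hf, rfl⟩ i x
    rfl
  let ρ : Wr P →* Perm (Fin 4) :=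
    { toFun := fun σ =>
        { toFun := fun i => ((σ : Perm (Fin 4 × Ω)) (i, x₀)).1
          invFun := fun i => ((σ⁻¹ : Wr P) : Perm (Fin 4 × Ω)) (i, x₀) |>.1
          left_inv := by
            intro i
            have h1 := hW σ⁻¹ (((σ : Perm (Fin 4 × Ω)) (i, x₀)).1)
              (((σ : Perm (Fin 4 × Ω)) (i, x₀)).2)
            change (((σ⁻¹ : Wr P) : Perm (Fin 4 × Ω)) (((σ : Perm (Fin 4 × Ω)) (i, x₀)).1, x₀)).1 = i
            rw [← h1]
            simp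
          right_inv := by
            intro i
            have h1 := hW σ ((((σ⁻¹ : Wr P) : Perm (Fin 4 × Ω)) (i, x₀)).1)
              ((((σ⁻¹ : Wr P) : Perm (Fin 4 × Ω)) (i, x₀)).2)
            change ((σ : Perm (Fin 4 × Ω)) ((((σ⁻¹ : Wr P) : Perm (Fin 4 × Ω)) (i, x₀)).1, x₀)).1 = i
            rw [← h1]
            simp }
      map_one' := by ext i; rfl
      map_mul' := by
        intro a b
        ext i
        have h1 := hW a (((b : Perm (Fin 4 × Ω)) (i, x₀)).1) (((b : Perm (Fin 4 × Ω)) (i, x₀)).2)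
        change ((((a * b : Wr P) : Perm (Fin 4 × Ω)) (i, x₀)).1 : ℕ) =
          (((a : Perm (Fin 4 × Ω)) (((b : Perm (Fin 4 × Ω)) (i, x₀)).1, x₀)).1 : ℕ)
        rw [← h1]; rfl }
  have h3 : D (Wr P) 3 ≤ B := by
    intro σ hσ
    have hσW : σ ∈ Wr P := D_le _ _ hσ
    have h4 := D_fixS ρ (Y := Finset.univ) (n := 3) (by norm_num) (by simp)
      (fun _ _ _ => Finset.mem_univ _) (x := ⟨σ, hσW⟩) hσ
    obtain ⟨τ, f, hf, rfl⟩ := hσW
    refine ⟨f, hf, ?_⟩
    have hτ : τ = 1 := by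
      ext i
      have := h4 i (Finset.mem_univ _)
      exact congrArg Fin.val this
    rw [hτ]
  rw [← D_add]
  have h5 : D B m = ⊥ := by
    rw [eq_bot_iff]
    intro σ hσ
    rw [Subgroup.mem_bot]
    have hσB : σ ∈ B := D_le _ _ hσ
    have hB : ∀ σ : B, ∀ i x, ((σ : Perm (Fin 4 × Ω)) (i, x)).1 = i := by
      rintro ⟨_, f, hf, rfl⟩ i x
      rfl
    let π : Fin 4 → B →* Perm Ω := fun i =>
      { toFun := fun σ =>
          { toFun := fun x => ((σ : Perm (Fin 4 × Ω)) (i, x)).2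
            invFun := fun x => (((σ⁻¹ : B) : Perm (Fin 4 × Ω)) (i, x)).2
            left_inv := by
              intro x
              have h1 := hB σ i x
              change (((σ⁻¹ : B) : Perm (Fin 4 × Ω)) (i, ((σ : Perm (Fin 4 × Ω)) (i, x)).2)).2 = x
              have h2 : (i, ((σ : Perm (Fin 4 × Ω)) (i, x)).2) = (σ : Perm (Fin 4 × Ω)) (i, x) :=
                Prod.ext h1.symm rfl
              rw [h2]; simp
            right_inv := by
              intro x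
              have h1 := hB σ⁻¹ i x
              change ((σ : Perm (Fin 4 × Ω)) (i, (((σ⁻¹ : B) : Perm (Fin 4 × Ω)) (i, x)).2)).2 = x
              have h2 : (i, (((σ⁻¹ : B) : Perm (Fin 4 × Ω)) (i, x)).2) =
                  ((σ⁻¹ : B) : Perm (Fin 4 × Ω)) (i, x) := Prod.ext h1.symm rfl
              rw [h2]; simp }
        map_one' := by ext x; rfl
        map_mul' := by
          intro a b
          ext x
          have h1 := hB b i x
          change (((a * b : B) : Perm (Fin 4 × Ω)) (i, x)).2 =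
            ((a : Perm (Fin 4 × Ω)) (i, ((b : Perm (Fin 4 × Ω)) (i, x)).2)).2
          have h2 : (i, ((b : Perm (Fin 4 × Ω)) (i, x)).2) = (b : Perm (Fin 4 × Ω)) (i, x) :=
            Prod.ext h1.symm rfl
          rw [h2]; rfl }
    have hσ' : (⟨σ, hσB⟩ : B) ∈ D (⊤ : Subgroup B) m := by
      have h1 : σ ∈ (D (⊤ : Subgroup B) m).map B.subtype := by
        rw [← derivedSeries_eq_D, D_map_subtype]; exact hσ
      obtain ⟨y, hy, hyx⟩ := h1
      have : y = ⟨σ, hσB⟩ := Subtype.ext hyx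
      rwa [← this]
    have hπ : ∀ i, π i ⟨σ, hσB⟩ = 1 := by
      intro i
      refine hom_eq_one (T := P) (π i) ?_ hP hσ'
      rintro ⟨_, f, hf, rfl⟩ _
      have : π i ⟨mkW 1 f, f, hf, rfl⟩ = f i := by ext x; rfl
      rw [this]; exact hf i
    ext ⟨i, x⟩ : 1
    have h1 := hB ⟨σ, hσB⟩ i x
    have h2 := congrArg (fun s : Perm Ω => s x) (hπ i)
    exact Prod.ext h1 h2
  have h6 := D_mono h3 m
  rw [h5] at h6
  exact le_bot_iff.1 h6

theorem solv64 : Group.IsSolvable (Wr (Wr (⊤ : Subgroup (Perm (Fin 4))))) := by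
  refine ⟨⟨3 + (3 + 3), ?_⟩⟩
  rw [derivedSeries_eq_bot_iff]
  exact Wr_solv (Wr_solv D_perm4)

end solvable

end Pool.Agent.H80
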