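import Pool.Agent.H80.Comp

set_option autoImplicit false

namespace Pool.Agent.H80

open Equiv
open scoped commutatorElement

/-- affine permutations of an additive commutative group -/
def Aff (V : Type*) [AddCommGroup V] : Subgroup (Perm V) where
  carrier := {σ | ∀ u v w, σ (u - v + w) = σ u - σ v + σ w}
  mul_mem' := by
    intro σ τ hσ hτ u v w
    rw [Perm.mul_apply, hτ, hσ]; rfl
  one_mem' := by intro u v w; rfl
  inv_mem' := by
    intro σ hσ u v w
    rw [Perm.inv_eq_iff_eq, hσ]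
    simp

theorem mem_Aff {V : Type*} [AddCommGroup V] {σ : Perm V} :
    σ ∈ Aff V ↔ ∀ u v w, σ (u - v + w) = σ u - σ v + σ w := Iff.rfl

theorem elem_ab {Q : Type*} [CommGroup Q] [Finite Q] {p : ℕ} (hp : p.Prime)
    (h : ∀ x : Q, x ^ p = 1) :
    ∃ k : ℕ, ∃ ε : Q ≃ (Fin k → ZMod p), ∀ a b, ε (a * b) = ε a + ε b := by
  haveI : Fact p.Prime := ⟨hp⟩
  letI : Module (ZMod p) (Additive Q) :=
    AddCommGroup.zmodModule (n := p) (G := Additive Q) (fun x => h x.toMul)
  haveI : Finite (Additive Q) := inferInstanceAs (Finite Q)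
  haveI : Module.Finite (ZMod p) (Additive Q) := Module.Finite.of_finite
  let b := Module.finBasis (ZMod p) (Additive Q)
  refine ⟨_, (Additive.ofMul.trans b.equivFun.toEquiv), ?_⟩
  intro x y
  simp [ofMul_mul]

section
variable {H : Type*} [Group H] [Finite H] [Group.IsSolvable H]

theorem perfect_normal_eq_bot {A : Subgroup H} (h : A ≤ ⁅A, A⁆) : A = ⊥ := by
  obtain ⟨n, hn⟩ := Group.IsSolvable.solvable (G := H)
  have : ∀ n, A ≤ derivedSeries H n := by
    intro n
    induction n with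
    | zero => exact le_top
    | succ n ih => exact h.trans (Subgroup.commutator_mono ih ih)
  have h2 := this n
  rw [hn] at h2
  exact le_bot_iff.1 h2

theorem prim_aff (L : Subgroup H) (hL : IsCoatom L) :
    ∃ (p k : ℕ), p.Prime ∧ 0 < k ∧ ∃ e : (H ⧸ L) ≃ (Fin k → ZMod p),
      ∀ x : H, e.permCongr (MulAction.toPermHom H (H ⧸ L) x) ∈ Aff (Fin k → ZMod p) := by
  classical
  -- minimal normal subgroup not contained in L
  obtain ⟨A, ⟨hAn, hAL⟩, hmin⟩ := WellFounded.has_min (wellFounded_lt (α := Subgroup H))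
    {A : Subgroup H | A.Normal ∧ ¬ A ≤ L} ⟨⊤, inferInstance, fun h => hL.1 (top_le_iff.1 h)⟩
  have hmin' : ∀ B : Subgroup H, B.Normal → B ≤ A → ¬ B ≤ L → B = A := by
    intro B hBn hBA hBL
    by_contra hne
    exact hmin B ⟨hBn, hBL⟩ (lt_of_le_of_ne hBA hne)
  -- ⁅A,A⁆ ≤ L
  have hAA : ⁅A, A⁆ ≤ L := by
    by_contra hcon
    have h1 : ⁅A, A⁆ = A := hmin' _ inferInstance (D_one_le A) hcon
    have h2 := perfect_normal_eq_bot (A := A) (by rw [h1])
    exact hAL (h2 ▸ bot_le)
  -- A ⊔ L = ⊤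
  have hsup : A ⊔ L = ⊤ := by
    apply hL.2
    refine lt_of_le_of_ne le_sup_right ?_
    intro h
    exact hAL (h ▸ le_sup_left)
  have hdec : ∀ h : H, ∃ a ∈ A, a⁻¹ * h ∈ L := by
    intro h
    have h1 : h ∈ A ⊔ L := hsup ▸ Subgroup.mem_top h
    obtain ⟨a, ha, l, hl, rfl⟩ := (Subgroup.mem_sup_of_normal_left).1 h1
    exact ⟨a, ha, by simpa using hl⟩
  -- B = A ⊓ L is normal
  have hBn : ∀ b ∈ A, b ∈ L → ∀ h : H, h * b * h⁻¹ ∈ L := by
    intro b hbA hbL h
    obtain ⟨a, ha, hl⟩ := hdec h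
    set l := a⁻¹ * h with hldef
    have hh : h = a * l := by rw [hldef]; group
    have e1 : h * b * h⁻¹ = ⁅a, l * b * l⁻¹⁆ * (l * b * l⁻¹) := by
      rw [hh, commutatorElement_def]; group
    rw [e1]
    have hb' : l * b * l⁻¹ ∈ A := hAn.conj_mem b hbA l
    exact L.mul_mem (hAA (Subgroup.commutator_mem_commutator ha hb'))
      (L.mul_mem (L.mul_mem hl hbL) (L.inv_mem hl))
  let N : Subgroup A := L.subgroupOf A
  have hNn : N.Normal := by
    constructor
    intro n hn g
    have := hBn n n.2 (Subgroup.mem_subgroupOf.1 hn) g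
    exact Subgroup.mem_subgroupOf.2 (by simpa using this)
  have hcomm : ∀ a b : A ⧸ N, a * b = b * a := by
    intro a b
    induction a using QuotientGroup.induction_on with
    | H a =>
    induction b using QuotientGroup.induction_on with
    | H b =>
    rw [← QuotientGroup.mk_mul, ← QuotientGroup.mk_mul, QuotientGroup.eq]
    apply Subgroup.mem_subgroupOf.2
    have : (((a * b)⁻¹ * (b * a) : A) : H) = ⁅(b : H)⁻¹, (a : H)⁻¹⁆ := by
      simp only [commutatorElement_def, Subgroup.coe_mul, Subgroup.coe_inv]; group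
    rw [this]
    exact hAA (Subgroup.commutator_mem_commutator (A.inv_mem b.2) (A.inv_mem a.2))
  letI instQ : CommGroup (A ⧸ N) := { (inferInstance : Group (A ⧸ N)) with mul_comm := hcomm }
  -- choose the prime
  have hnt : Nontrivial (A ⧸ N) := by
    rw [← not_subsingleton_iff_nontrivial]
    intro hs
    apply hAL
    intro a ha
    have h1 : ((⟨a, ha⟩ : A) : A ⧸ N) = 1 := Subsingleton.elim _ _
    rw [QuotientGroup.eq_one_iff] at h1
    exact Subgroup.mem_subgroupOf.1 h1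
  have hcard : Nat.card (A ⧸ N) ≠ 1 := (Finite.one_lt_card (α := A ⧸ N)).ne'
  obtain ⟨p, hp, hpdvd⟩ := Nat.exists_prime_and_dvd hcard
  haveI : Fact p.Prime := ⟨hp⟩
  let P : A →* (A ⧸ N) := (powMonoidHom p).comp (QuotientGroup.mk' N)
  have hPmem : ∀ a : A, a ∈ P.ker ↔ ((a : H)) ^ p ∈ L := by
    intro a
    rw [MonoidHom.mem_ker]
    simp only [P, MonoidHom.comp_apply, powMonoidHom_apply, QuotientGroup.mk'_apply]
    rw [← QuotientGroup.mk_pow, QuotientGroup.eq_one_iff, Subgroup.mem_subgroupOf]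
    simp
  have hPA : (P.ker).map A.subtype = A := by
    apply hmin'
    · constructor
      rintro _ ⟨a, ha, rfl⟩ g
      have ha' := (hPmem a).1 ha
      have hg : g * (a : H) * g⁻¹ ∈ A := hAn.conj_mem a a.2 g
      refine ⟨⟨_, hg⟩, ?_, rfl⟩
      apply (hPmem _).2
      simp only [conj_pow]
      exact hBn _ (A.pow_mem a.2 p) ha' g
    · rintro _ ⟨a, _, rfl⟩
      exact a.2
    · intro hcon
      obtain ⟨x, hx⟩ := exists_prime_orderOf_dvd_card' (G := A ⧸ N) p hpdvd
      induction x using QuotientGroup.induction_on with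
      | H a =>
      have h1 : a ∈ P.ker := by
        rw [MonoidHom.mem_ker]
        simp only [P, MonoidHom.comp_apply, powMonoidHom_apply, QuotientGroup.mk'_apply]
        rw [← hx]; exact pow_orderOf_eq_one _
      have h2 : (a : H) ∈ L := hcon ⟨a, h1, rfl⟩
      have h3 : (a : A ⧸ N) = 1 := (QuotientGroup.eq_one_iff a).2 (Subgroup.mem_subgroupOf.2 h2)
      rw [h3, orderOf_one] at hx
      exact hp.one_lt.ne hx
  have hexp : ∀ x : A ⧸ N, x ^ p = 1 := by
    intro x
    induction x using QuotientGroup.induction_on with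
    | H a =>
    have h1 : (a : H) ∈ (P.ker).map A.subtype := by rw [hPA]; exact a.2
    obtain ⟨b, hb, hba⟩ := h1
    have : b = a := Subtype.ext hba
    rw [this] at hb
    exact hb
  -- vector space structure
  obtain ⟨k, E, hE⟩ := elem_ab hp hexp
  have hE1 : E 1 = 0 := by
    have := hE 1 1
    rw [one_mul] at this
    simpa using this
  have hEinv : ∀ a, E a⁻¹ = - E a := by
    intro a
    have := hE a a⁻¹
    rw [mul_inv_cancel, hE1] at this
    exact (neg_eq_of_add_eq_zero_right this.symm).symm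
  have hkpos : 0 < k := by
    rw [Nat.pos_iff_ne_zero]
    intro h0
    subst h0
    obtain ⟨x, y, hxy⟩ := hnt
    exact hxy (E.injective (Subsingleton.elim _ _))
  -- the map A ⧸ N → H ⧸ L
  let F0 : (A ⧸ N) → (H ⧸ L) := Quotient.map' (fun a : A => (a : H)) (by
    intro a b hab
    rw [QuotientGroup.leftRel_apply] at hab ⊢
    exact Subgroup.mem_subgroupOf.1 hab)
  have hF0mk : ∀ a : A, F0 (a : A ⧸ N) = ((a : H) : H ⧸ L) := fun a => rfl
  have hF0 : Function.Bijective F0 := by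
    constructor
    · intro x y hxy
      induction x using QuotientGroup.induction_on with
      | H a =>
      induction y using QuotientGroup.induction_on with
      | H b =>
      rw [hF0mk, hF0mk, QuotientGroup.eq] at hxy
      rw [QuotientGroup.eq]
      exact Subgroup.mem_subgroupOf.2 hxy
    · intro y
      induction y using QuotientGroup.induction_on with
      | H h =>
      obtain ⟨a, ha, hal⟩ := hdec h
      exact ⟨((⟨a, ha⟩ : A) : A ⧸ N), by rw [hF0mk, QuotientGroup.eq]; exact hal⟩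
  let F := Equiv.ofBijective F0 hF0
  let e : (H ⧸ L) ≃ (Fin k → ZMod p) := F.symm.trans E
  have he : ∀ a : A, e ((a : H) : H ⧸ L) = E (a : A ⧸ N) := by
    intro a
    have : F.symm ((a : H) : H ⧸ L) = (a : A ⧸ N) := by
      rw [Equiv.symm_apply_eq]; rfl
    simp only [e, Equiv.trans_apply]
    rw [this]
  refine ⟨p, k, hp, hkpos, e, ?_⟩
  intro x
  rw [mem_Aff]
  -- surjectivity of a ↦ e a
  have hsurj : ∀ v, ∃ a : A, e ((a : H) : H ⧸ L) = v := by
    intro v
    obtain ⟨q, hq⟩ := hF0.2 (e.symm v)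
    induction q using QuotientGroup.induction_on with
    | H a => exact ⟨a, by rw [← hF0mk, hq]; simp⟩
  obtain ⟨c, hc, hcx⟩ := hdec x
  have hact : ∀ a : A, e (((x * a : H)) : H ⧸ L) =
      E ((⟨x * a * x⁻¹, hAn.conj_mem a a.2 x⟩ : A) : A ⧸ N) +
        E ((⟨c, hc⟩ : A) : A ⧸ N) := by
    intro a
    rw [← hE, ← QuotientGroup.mk_mul, ← he]
    congr 1
    rw [QuotientGroup.eq]
    have : (x * (a : H))⁻¹ * (((⟨x * a * x⁻¹, hAn.conj_mem a a.2 x⟩ : A) * (⟨c, hc⟩ : A) : A) : H)
      = (c⁻¹ * x)⁻¹ := by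
      simp only [Subgroup.coe_mul]; group
    rw [this]
    exact L.inv_mem hcx
  have hperm : ∀ a : A, e.permCongr (MulAction.toPermHom H (H ⧸ L) x) (e ((a : H) : H ⧸ L)) =
      e (((x * a : H)) : H ⧸ L) := by
    intro a
    simp [Equiv.permCongr_apply]
  intro u v w
  obtain ⟨a, rfl⟩ := hsurj u
  obtain ⟨a', rfl⟩ := hsurj v
  obtain ⟨a'', rfl⟩ := hsurj w
  have hcomb : e ((a : H) : H ⧸ L) - e ((a' : H) : H ⧸ L) + e ((a'' : H) : H ⧸ L) =
      e (((a * a'⁻¹ * a'' : A) : H) : H ⧸ L) := by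
    rw [he, he, he, he, sub_eq_add_neg, ← hEinv, ← hE, ← hE]
    rfl
  rw [hcomb, hperm, hperm, hperm, hperm, hact, hact, hact, hact]
  have hconj : E ((⟨x * (a * a'⁻¹ * a'' : A) * x⁻¹,
        hAn.conj_mem _ (a * a'⁻¹ * a'' : A).2 x⟩ : A) : A ⧸ N) =
      E ((⟨x * a * x⁻¹, hAn.conj_mem a a.2 x⟩ : A) : A ⧸ N) -
      E ((⟨x * a' * x⁻¹, hAn.conj_mem a' a'.2 x⟩ : A) : A ⧸ N) +
      E ((⟨x * a'' * x⁻¹, hAn.conj_mem a'' a''.2 x⟩ : A) : A ⧸ N) := by
    rw [sub_eq_add_neg, ← hEinv, ← hE, ← hE, ← QuotientGroup.mk_inv, ← QuotientGroup.mk_mul,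
      ← QuotientGroup.mk_mul]
    congr 2
    apply Subtype.ext
    simp only [Subgroup.coe_mul, Subgroup.coe_inv]
    group
  rw [hconj]
  abel

end

end Pool.Agent.H80
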