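import Pool.Agent.H80.CC.SelSplit
import Pool.Agent.H28.KL.RedL

/-!
# MP_1bad5e_ag: sections of the surfaces `D z ^ n = f(t, x)` over towers of ramified cyclic covers

`l` is a prime, `n = l ^ k`, `F` is a field with a primitive `l`-th root of unity, `K = F(t)`. The
class `Tower l` of plane curves `f(t, x) = 0` arises from the line by automorphisms of the plane and
by cyclic covers of degree `l` of the plane which are ramified along a line meeting the curve in
one closed point of degree prime to `l`. Let `f` be in the class and monic in `x` of degree prime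
to `l`, and let `D ∈ F[t]` be a nonzero polynomial.

Either let there be only one prime of `O = F[t][x]/(f)` above each prime factor of `D` (`r = 0`), or
let this be so except for one prime factor `π` of `D`, whose exponent in `D` is prime to `n` and
modulo which `f` is a product of `r + 1` different irreducible factors, of which `r` lift to
divisors `P i (x) = 0`, `z = Q i (x)` of the curve `D z ^ n = f(x)`.

Then the group of all `δ ∈ L^*/L^{*n}`, `L = K[x]/(f)`, whose norm is an `n`-th power and which at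
each prime of `F[t]` not dividing `D` are products of values of the descent map of `D z ^ n = f(x)`
and unramified elements is free over `ℤ/n` with the values of the `r` divisors as a basis. If `F` is
finite and contains the `n`-th roots of unity this group contains the `(1 - ζ)`-Selmer group of the
Jacobian of `D z ^ n = f(x)`.

Examples: `tower_sub` and `result_add` below. The class group and the units of `O` are computed in
`Pool.Agent.H28.KL`.
-/

namespace Pool.Agent.H80.TowerSections

open Polynomial IsDedekindDomain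

/-- The polynomial `f` regarded as a polynomial in `x` over `K = F(t)`. -/
noncomputable def overK {F : Type} [Field F] (f : F[X][X]) : (RatFunc F)[X] :=
  f.map (algebraMap F[X] (RatFunc F))

/-- The polynomial `f` regarded as a polynomial in `x` over the completion `K_v`. -/
noncomputable def overKv {F : Type} [Field F] (f : F[X][X]) (v : HeightOneSpectrum F[X]) :
    (v.adicCompletion (RatFunc F))[X] :=
  (overK f).map (algebraMap (RatFunc F) (v.adicCompletion (RatFunc F)))

/-- The image of `D ∈ F[t]` in the completion `K_v`. -/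
noncomputable def constKv {F : Type} [Field F] (D : F[X]) (v : HeightOneSpectrum F[X]) :
    v.adicCompletion (RatFunc F) :=
  algebraMap (RatFunc F) (v.adicCompletion (RatFunc F)) (algebraMap F[X] (RatFunc F) D)

/-- The natural map from `O = F[t][x]/(f)` to `L = K[x]/(f)`. -/
noncomputable def toL {F : Type} [Field F] (f : F[X][X]) :
    AdjoinRoot f →+* AdjoinRoot (overK f) :=
  AdjoinRoot.map (algebraMap F[X] (RatFunc F)) f (overK f) dvd_rfl

/-- The natural map from `L = K[x]/(f)` to `L ⊗ K_v = K_v[x]/(f)`. -/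
noncomputable def toLv {F : Type} [Field F] (f : F[X][X]) (v : HeightOneSpectrum F[X]) :
    AdjoinRoot (overK f) →+* AdjoinRoot (overKv f v) :=
  AdjoinRoot.map (algebraMap (RatFunc F) (v.adicCompletion (RatFunc F))) (overK f) (overKv f v)
    dvd_rfl

/-- `(P, Q)` represents, over the field `k`, an effective divisor on `c z ^ m = g(x)` which is
disjoint from the points with `z = 0`, the points with `P(x) = 0` and `z = Q(x)`: `P` is monic,
prime to `g`, and divides `c Q ^ m - g`. -/
def IsMumford {k : Type} [Field k] (m : ℕ) (c : k) (g P Q : k[X]) : Prop :=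
  P.Monic ∧ IsCoprime P g ∧ P ∣ C c * Q ^ m - g

/-- The value `∏ c ^ a (x(p) - θ) = (-c ^ a) ^ r P(θ)` of the function `c ^ a (x - θ)` on the
divisor, in `k[x]/(g)`, where `θ` is the class of `x` and `r` is the degree of `P`. If `n` divides
`a d + 1`, where `d` is the degree of `g`, then `c ^ a (x - θ)` is on `c z ^ n = g(x)` near the
point at infinity the `n`-th power of a function with leading coefficient one. -/
noncomputable def descent {k : Type} [Field k] (a : ℕ) (c : k) (g P : k[X]) : AdjoinRoot g :=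
  AdjoinRoot.mk g (C (-c ^ a)) ^ P.natDegree * AdjoinRoot.mk g P

/-- The element `δ` of `k[x]/(g)` is, up to an `n`-th power, the value of the descent map of
`c z ^ n = g(x)` on a divisor: `δ γ ^ n` is a product of elements `descent a c g P ^ (n / m)`, with
`m` a divisor of `n` and `P` dividing `c Q ^ m - g`, that is, `z ^ (n / m) = Q(x)` on the divisor
with `P(x) = 0`. -/
def IsValue {k : Type} [Field k] (n a : ℕ) (c : k) (g : k[X]) (δ : AdjoinRoot g) : Prop :=
  ∃ (r : ℕ) (m : Fin r → ℕ) (P Q : Fin r → k[X]) (γ : AdjoinRoot g),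
    (∀ i, m i ∣ n ∧ IsMumford (m i) c g (P i) (Q i)) ∧
    δ * γ ^ n = ∏ i, descent a c g (P i) ^ (n / m i)

/-- `δ ∈ L^*` has norm in `K^{*n}` and, at each prime `v` of `F[t]` which does not divide `D`,
there is `b ∈ O`, in no prime of `O` above `v`, such that `δ b` is in `L ⊗ K_v` a value of the
descent map of `D z ^ n = f(x)`. -/
structure IsSelmer {F : Type} [Field F] (n a : ℕ) (D : F[X]) (f : F[X][X])
    (δ : AdjoinRoot (overK f)) : Prop where
  ne_zero : δ ≠ 0
  norm : ∃ y : RatFunc F, Algebra.norm (RatFunc F) δ = y ^ n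
  locally : ∀ v : HeightOneSpectrum F[X], D ∉ v.asIdeal → ∃ b : AdjoinRoot f,
    (∀ w : Ideal (AdjoinRoot f), w.IsPrime →
      (∀ s ∈ v.asIdeal, algebraMap F[X] (AdjoinRoot f) s ∈ w) → b ∉ w) ∧
    IsValue n a (constKv D v) (overKv f v) (toLv f v (δ * toL f b))

/-- There is at most one prime ideal of `O = F[t][x]/(f)` above `p ∈ F[t]`. -/
def Nonsplit {F : Type} [Field F] (f : F[X][X]) (p : F[X]) : Prop :=
  ∀ w w' : Ideal (AdjoinRoot f), w.IsPrime → w'.IsPrime →
    algebraMap F[X] (AdjoinRoot f) p ∈ w → algebraMap F[X] (AdjoinRoot f) p ∈ w' → w = w'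

/-- The exponent of `π` in `D` is positive and prime to `n`, `f` modulo `π` is a product of different
irreducible factors, and all factors but one are the reductions of monic polynomials
`P i ∈ F[t][x]` dividing `D (Q i) ^ n - f`. -/
structure Lifts {F : Type} [Field F] (n : ℕ) (D : F[X]) (f : F[X][X]) {r : ℕ}
    (P Q : Fin r → F[X][X]) (π : F[X]) : Prop where
  irreducible : Irreducible π
  exact : ∃ e : ℕ, e ≠ 0 ∧ e.Coprime n ∧ π ^ e ∣ D ∧ ¬ π ^ (e + 1) ∣ D
  squarefree : Squarefree (f.map (AdjoinRoot.mk π))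
  factor : ∀ i, (P i).Monic ∧ Irreducible ((P i).map (AdjoinRoot.mk π)) ∧
    P i ∣ C D * Q i ^ n - f
  last : ∃ h : (AdjoinRoot π)[X], Irreducible h ∧
    f.map (AdjoinRoot.mk π) = (∏ i, (P i).map (AdjoinRoot.mk π)) * h

/-- Either `r = 0` and all prime factors of `D` are nonsplit, or this holds except for one prime
factor `π` with `Lifts n D f P Q π`. -/
def IsLifted {F : Type} [Field F] (n : ℕ) (D : F[X]) (f : F[X][X]) {r : ℕ}
    (P Q : Fin r → F[X][X]) : Prop :=
  (r = 0 ∧ ∀ p, Prime p → p ∣ D → Nonsplit f p) ∨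
    ∃ π, Lifts n D f P Q π ∧ ∀ p, Prime p → p ∣ D → ¬ Associated p π → Nonsplit f p

/-- The smallest class of polynomials `f ∈ F[t][x]` (`x` is the outer variable) which contains `x`,
is closed under the automorphisms of the `F`-algebra `F[t, x]`, and contains with `f(t, x)` also
`f(t, x ^ l)`, provided that `f(t, 0) ∈ F[t]` is irreducible of degree prime to `l`. -/
inductive Tower {F : Type} [Field F] (l : ℕ) : F[X][X] → Prop
  | line : Tower l X
  | aut (f : F[X][X]) (σ : F[X][X] ≃ₐ[F] F[X][X]) : Tower l f → Tower l (σ f)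
  | root (f : F[X][X]) : Tower l f → Irreducible (f.eval 0) →
      Nat.Coprime (f.eval 0).natDegree l → Tower l (f.comp (X ^ l))

section values

variable {k : Type} [Field k]

theorem descent_isUnit (a : ℕ) (c : k) (hc : c ≠ 0) (g P : k[X]) (hP : IsCoprime P g) :
    IsUnit (descent a c g P) := by
  refine IsUnit.mul (IsUnit.pow _ ?_) ?_
  · have h1 : IsUnit (C (-c ^ a) : k[X]) := by
      rw [isUnit_C, isUnit_iff_ne_zero]
      exact neg_ne_zero.2 (pow_ne_zero _ hc)
    exact h1.map _
  · obtain ⟨s, t, hst⟩ := hP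
    refine IsUnit.of_mul_eq_one (AdjoinRoot.mk g s) ?_
    rw [← map_mul, ← map_one (AdjoinRoot.mk g), ← hst, map_add, map_mul (AdjoinRoot.mk g) t g,
      AdjoinRoot.mk_self, mul_zero, add_zero, mul_comm]

theorem isUnit_of_isValue {n a : ℕ} (hn : n ≠ 0) {c : k} (hc : c ≠ 0) {g : k[X]}
    {δ γ : AdjoinRoot g} {r : ℕ} {m : Fin r → ℕ} {P Q : Fin r → k[X]}
    (hm : ∀ i, m i ∣ n ∧ IsMumford (m i) c g (P i) (Q i))
    (h : δ * γ ^ n = ∏ i, descent a c g (P i) ^ (n / m i)) : IsUnit δ ∧ IsUnit γ := by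
  have h1 : IsUnit (δ * γ ^ n) := by
    rw [h]
    refine (Finset.univ.prod_induction _ IsUnit (fun _ _ => IsUnit.mul) isUnit_one
      fun i _ => IsUnit.pow _ (descent_isUnit a c hc g (P i) (hm i).2.2.1))
  rw [IsUnit.mul_iff, isUnit_pow_iff hn] at h1
  exact h1

theorem norm_descent (a : ℕ) {n : ℕ} (c : k) (g : k[X]) (hg : g.Monic)
    (ha : n ∣ a * g.natDegree + 1) (m : ℕ) (hm : m ∣ n) (P Q : k[X])
    (h : IsMumford m c g P Q) :
    ∃ y : k, Algebra.norm k (descent a c g P ^ (n / m)) = y ^ n := by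
  obtain ⟨y, hy⟩ := H94.TL.norm_descent c g hg m a (hm.trans ha) P Q h.1 h.2.2
  refine ⟨y, ?_⟩
  have h1 : Algebra.norm k (descent a c g P) = y ^ m := hy
  rw [map_pow, h1, ← pow_mul, Nat.mul_div_cancel' hm]

theorem norm_of_isValue {n a : ℕ} (hn : n ≠ 0) {c : k} (hc : c ≠ 0) {g : k[X]} (hg : g.Monic)
    (ha : n ∣ a * g.natDegree + 1) {δ : AdjoinRoot g} (h : IsValue n a c g δ) :
    ∃ y : k, Algebra.norm k δ = y ^ n := by
  obtain ⟨r, m, P, Q, γ, hm, h⟩ := h
  have hu := isUnit_of_isValue hn hc hm h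
  choose y hy using fun i => norm_descent a c g hg ha (m i) (hm i).1 (P i) (Q i) (hm i).2
  have h1 := congrArg (Algebra.norm k) h
  rw [map_mul, map_pow, map_prod] at h1
  simp only [hy] at h1
  rw [Finset.prod_pow] at h1
  have h2 : Algebra.norm k γ ≠ 0 := (hu.2.map (Algebra.norm k)).ne_zero
  exact ⟨(∏ i, y i) / Algebra.norm k γ, by rw [div_pow, eq_div_iff (pow_ne_zero _ h2), h1]⟩

theorem isValue_one (n a : ℕ) (c : k) (g : k[X]) : IsValue n a c g 1 :=
  ⟨0, Fin.elim0, Fin.elim0, Fin.elim0, 1, fun i => i.elim0, by simp⟩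

/-- values are compatible with extensions of the field -/
theorem isValue_map {k' : Type} [Field k'] (φ : k →+* k') {n a : ℕ} {c : k} {g : k[X]}
    {δ : AdjoinRoot g} (h : IsValue n a c g δ) :
    IsValue n a (φ c) (g.map φ) (AdjoinRoot.map φ g (g.map φ) dvd_rfl δ) := by
  obtain ⟨r, m, P, Q, γ, hm, h⟩ := h
  refine ⟨r, m, fun i => (P i).map φ, fun i => (Q i).map φ,
    AdjoinRoot.map φ g (g.map φ) dvd_rfl γ, fun i => ⟨(hm i).1, (hm i).2.1.map _,
      (hm i).2.2.1.map (mapRingHom φ), ?_⟩, ?_⟩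
  · have := Polynomial.map_dvd φ (hm i).2.2.2
    rwa [Polynomial.map_sub, Polynomial.map_mul, Polynomial.map_pow, Polynomial.map_C] at this
  · have hmk : ∀ R : k[X], AdjoinRoot.map φ g (g.map φ) dvd_rfl (AdjoinRoot.mk g R) =
        AdjoinRoot.mk (g.map φ) (R.map φ) := by
      intro R
      induction R using Polynomial.induction_on' with
      | add p q hp hq => rw [map_add, map_add, hp, hq, Polynomial.map_add, map_add]
      | monomial n a =>
        rw [Polynomial.map_monomial, ← C_mul_X_pow_eq_monomial, ← C_mul_X_pow_eq_monomial]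
        simp only [map_mul, map_pow, AdjoinRoot.mk_C, AdjoinRoot.mk_X]
        rw [AdjoinRoot.map_of, AdjoinRoot.map_root]
    have h1 := congrArg (AdjoinRoot.map φ g (g.map φ) dvd_rfl) h
    rw [map_mul, map_pow, map_prod] at h1
    rw [h1]
    refine Finset.prod_congr rfl fun i _ => ?_
    rw [map_pow, descent, descent, map_mul, map_pow, hmk, hmk, natDegree_map, Polynomial.map_C,
      map_neg, map_pow]

end values

theorem isSelmer_of_isValue {F : Type} [Field F] {n a : ℕ} (hn : n ≠ 0) {D : F[X]} (hD : D ≠ 0)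
    {f : F[X][X]} (hf : f.Monic) [IsDomain (AdjoinRoot f)] (ha : n ∣ a * f.natDegree + 1)
    {δ : AdjoinRoot (overK f)}
    (h : IsValue n a (algebraMap F[X] (RatFunc F) D) (overK f) δ) : IsSelmer n a D f δ := by
  have hDK : algebraMap F[X] (RatFunc F) D ≠ 0 := by
    rw [Ne, FaithfulSMul.algebraMap_eq_zero_iff]; exact hD
  have hmonic : (overK f).Monic := hf.map _
  have hdeg : (overK f).natDegree = f.natDegree := hf.natDegree_map _
  let _ : Fact (Irreducible (overK f)) := ⟨H94.TC.irreducible_map (RatFunc F) f hf⟩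
  refine ⟨?_, norm_of_isValue hn hDK hmonic (by rwa [hdeg]) h, fun v _ => ⟨1, ?_, ?_⟩⟩
  · obtain ⟨r, m, P, Q, γ, hm, h⟩ := h
    exact (isUnit_of_isValue hn hDK hm h).1.ne_zero
  · intro w hw _ h1
    exact hw.ne_top ((Ideal.eq_top_iff_one _).2 h1)
  · rw [map_one, mul_one]
    exact isValue_map (algebraMap (RatFunc F) (v.adicCompletion (RatFunc F))) h

section mul

variable {k : Type} [Field k]

theorem isValue_mul {n a : ℕ} {c : k} {g : k[X]} {δ δ' : AdjoinRoot g} (h : IsValue n a c g δ)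
    (h' : IsValue n a c g δ') : IsValue n a c g (δ * δ') := by
  obtain ⟨r, m, P, Q, γ, hm, h⟩ := h
  obtain ⟨r', m', P', Q', γ', hm', h'⟩ := h'
  refine ⟨r + r', Fin.append m m', Fin.append P P', Fin.append Q Q', γ * γ', fun i => ?_, ?_⟩
  · refine Fin.addCases (fun i => ?_) (fun i => ?_) i
    · rw [Fin.append_left, Fin.append_left, Fin.append_left]
      exact hm i
    · rw [Fin.append_right, Fin.append_right, Fin.append_right]
      exact hm' i
  · rw [Fin.prod_univ_add]
    simp only [Fin.append_left, Fin.append_right]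
    rw [← h, ← h', mul_pow]
    ring

theorem isValue_pow {n a : ℕ} {c : k} {g : k[X]} {δ : AdjoinRoot g} (h : IsValue n a c g δ)
    (s : ℕ) : IsValue n a c g (δ ^ s) := by
  induction s with
  | zero => rw [pow_zero]; exact isValue_one n a c g
  | succ s ih => rw [pow_succ]; exact isValue_mul ih h

theorem isValue_prod {n a : ℕ} {c : k} {g : k[X]} {ι : Type} (S : Finset ι)
    (δ : ι → AdjoinRoot g) (h : ∀ i ∈ S, IsValue n a c g (δ i)) :
    IsValue n a c g (∏ i ∈ S, δ i) := by
  classical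
  induction S using Finset.induction_on with
  | empty => rw [Finset.prod_empty]; exact isValue_one n a c g
  | insert i S hi ih =>
    rw [Finset.prod_insert hi]
    exact isValue_mul (h i (Finset.mem_insert_self _ _))
      (ih fun j hj => h j (Finset.mem_insert_of_mem hj))

theorem isValue_descent {n a : ℕ} (hn : n ≠ 0) {c : k} {g P Q : k[X]} (h : IsMumford n c g P Q) :
    IsValue n a c g (descent a c g P) := by
  refine ⟨1, fun _ => n, fun _ => P, fun _ => Q, 1, fun _ => ⟨dvd_rfl, h⟩, ?_⟩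
  rw [one_pow, mul_one, Fin.prod_univ_one, Nat.div_self (Nat.pos_of_ne_zero hn), pow_one]

end mul

/-- `IsSelmer` is stable under multiplication by values over `K` -/
theorem isSelmer_mul {F : Type} [Field F] {n a : ℕ} (hn : n ≠ 0) {D : F[X]} (hD : D ≠ 0)
    {f : F[X][X]} (hf : f.Monic) [IsDomain (AdjoinRoot f)] (ha : n ∣ a * f.natDegree + 1)
    {δ γ : AdjoinRoot (overK f)} (hδ : IsSelmer n a D f δ)
    (hγ : IsValue n a (algebraMap F[X] (RatFunc F) D) (overK f) γ) :
    IsSelmer n a D f (δ * γ) := by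
  have hDK : algebraMap F[X] (RatFunc F) D ≠ 0 := by
    rw [Ne, FaithfulSMul.algebraMap_eq_zero_iff]; exact hD
  let _ : Fact (Irreducible (overK f)) := ⟨H94.TC.irreducible_map (RatFunc F) f hf⟩
  have hγs := isSelmer_of_isValue hn hD hf ha hγ
  refine ⟨mul_ne_zero hδ.ne_zero hγs.ne_zero, ?_, fun v hv => ?_⟩
  · obtain ⟨y, hy⟩ := hδ.norm
    obtain ⟨y', hy'⟩ := hγs.norm
    exact ⟨y * y', by rw [map_mul, hy, hy', mul_pow]⟩
  · obtain ⟨b, hb, hval⟩ := hδ.locally v hv
    refine ⟨b, hb, ?_⟩
    rw [mul_right_comm, map_mul]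
    exact isValue_mul hval (isValue_map (algebraMap (RatFunc F) (v.adicCompletion (RatFunc F))) hγ)

section lifts

variable {F : Type} [Field F] {n : ℕ} {D : F[X]} {f : F[X][X]} {r : ℕ} {P Q : Fin r → F[X][X]}
  {π : F[X]}

/-- the last factor is the reduction of a polynomial -/
theorem Lifts.splits (h : Lifts n D f P Q π) [Fact (Irreducible π)] :
    ∃ e H, H80.CC.G.Splits (AdjoinRoot.mk π) π f n e D P Q H := by
  obtain ⟨h1, h2, h3⟩ := h.last
  obtain ⟨e, he, hen, hdvd, hnd⟩ := h.exact
  obtain ⟨H, rfl⟩ := Polynomial.map_surjective (AdjoinRoot.mk π) AdjoinRoot.mk_surjective h1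
  refine ⟨e, H, ⟨AdjoinRoot.mk_surjective, fun a => AdjoinRoot.mk_eq_zero⟩, he, hen, ?_,
    h.squarefree, fun i => (h.factor i).2.1, h2, h3, fun i => (h.factor i).2.2⟩
  obtain ⟨u, hu⟩ := hdvd
  refine ⟨u, ?_, by rw [hu, mul_comm]⟩
  rintro ⟨v, rfl⟩
  apply hnd
  exact ⟨v, by rw [hu]; ring⟩

theorem Lifts.not_dvd (h : Lifts n D f P Q π) (i : Fin r) : ¬ f ∣ P i := by
  have : Fact (Irreducible π) := ⟨h.irreducible⟩
  obtain ⟨e, H, hH⟩ := h.splits
  exact hH.not_dvd i

theorem overK_monic {f : F[X][X]} (hf : f.Monic) : (overK f).Monic := hf.map _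

/-- the `P i`, `Q i` are Mumford representations -/
theorem Lifts.mumford (h : Lifts n D f P Q π) (hf : f.Monic) [IsDomain (AdjoinRoot f)]
    (i : Fin r) : IsMumford n (algebraMap F[X] (RatFunc F) D) (overK f) (overK (P i))
      (overK (Q i)) := by
  have hirr : Irreducible (overK f) := H94.TC.irreducible_map (RatFunc F) f hf
  refine ⟨(h.factor i).1.map _, ?_, ?_⟩
  · refine IsCoprime.symm ((hirr.coprime_iff_not_dvd).2 fun h0 => ?_)
    apply h.not_dvd i
    rw [← AdjoinRoot.mk_eq_zero] at h0 ⊢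
    apply H94.TC.toField_injective (RatFunc F) f hf
    rw [map_zero, H94.TC.toField_mk]
    exact h0
  · have h1 := Polynomial.map_dvd (algebraMap F[X] (RatFunc F)) (h.factor i).2.2
    rwa [Polynomial.map_sub, Polynomial.map_mul, Polynomial.map_pow, Polynomial.map_C] at h1

theorem toL_mk (f g : F[X][X]) : toL f (AdjoinRoot.mk f g) = AdjoinRoot.mk (overK f) (overK g) :=
  H94.TC.toField_mk (RatFunc F) f g

theorem overK_C (c : F[X]) : overK (C c : F[X][X]) = C (algebraMap F[X] (RatFunc F) c) := by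
  rw [overK, Polynomial.map_C]

/-- the value of the descent map at `P i`, `Q i` comes from an element of `O` -/
theorem descent_eq (a : ℕ) (D : F[X]) (f P : F[X][X]) (hP : P.Monic) :
    descent a (algebraMap F[X] (RatFunc F) D) (overK f) (overK P) =
      toL f (H80.CC.valE a D f P) := by
  have h1 : (overK P).natDegree = P.natDegree := hP.natDegree_map _
  have h2 : algebraMap F[X] (RatFunc F) (-D ^ a) = -(algebraMap F[X] (RatFunc F) D) ^ a := by
    rw [map_neg, map_pow]
  rw [descent, H80.CC.valE, map_mul, map_pow, toL_mk, toL_mk, overK_C, h2, h1]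

/-- `H80.CC.sel_split` in the present notation -/
theorem exists_ideal {a e : ℕ} (hn : n ≠ 0) (hf : f.Monic) [IsDedekindDomain (AdjoinRoot f)]
    [Fact (Irreducible π)] (ha : n ∣ a * f.natDegree + 1) {H : F[X][X]}
    (hsp : H80.CC.G.Splits (AdjoinRoot.mk π) π f n e D P Q H)
    (hns : ∀ p, Prime p → p ∣ D → ¬ Associated p π → Nonsplit f p) (δ : AdjoinRoot (overK f))
    (hδ : ∀ s : Fin r → ℕ, IsSelmer n a D f
      (δ * ∏ i, toL f (H80.CC.valE a D f (P i)) ^ s i)) :
    ∃ (s : Fin r → ℕ) (I : Ideal (AdjoinRoot f)) (b c : AdjoinRoot f), I ≠ ⊥ ∧ c ≠ 0 ∧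
      δ * (∏ i, toL f (H80.CC.valE a D f (P i)) ^ s i) * toL f c ^ n = toL f b ∧
      Ideal.span {b} = I ^ n :=
  H80.CC.sel_split (RatFunc F) f hf a hn ha D π Fact.out P Q H hsp
    (fun p hp hpD hpπ w w' hw hw' h h' => hns p hp hpD hpπ w w' hw hw' h h') δ
    (fun s => (hδ s).ne_zero) (fun s => (hδ s).norm) (fun s v hv => by
      obtain ⟨b, hb, r, m, P, Q, γ, hm, hγ⟩ := (hδ s).locally v hv
      exact ⟨b, hb, r, m, P, Q, γ,
        fun i => ⟨(hm i).1, (hm i).2.1, (hm i).2.2.1, (hm i).2.2.2⟩, hγ⟩)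

/-- the values are independent -/
theorem independent {a e : ℕ} (hn : n ≠ 0) (hf : f.Monic) [IsDedekindDomain (AdjoinRoot f)]
    [hπ : Fact (Irreducible π)] {H : F[X][X]}
    (hsp : H80.CC.G.Splits (AdjoinRoot.mk π) π f n e D P Q H) (s : Fin r → ℕ) (z : AdjoinRoot (overK f))
    (hz : ∏ i, toL f (H80.CC.valE a D f (P i)) ^ s i = z ^ n) (i : Fin r) : n ∣ s i := by
  let _ : Fact (Irreducible (overK f)) := ⟨H94.TC.irreducible_map (RatFunc F) f hf⟩
  let _ : Algebra (AdjoinRoot f) (AdjoinRoot (overK f)) := (toL f).toAlgebra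
  have : IsFractionRing (AdjoinRoot f) (AdjoinRoot (overK f)) :=
    H94.TC.isFractionRing_toField (RatFunc F) f hf
  have := H94.TC.torsionFree_adjoinRoot f hf
  have hπ0 : AdjoinRoot.mk f (C π) ≠ 0 := by
    have h1 : AdjoinRoot.mk f (C π) = algebraMap F[X] (AdjoinRoot f) π := rfl
    rw [h1, Ne, FaithfulSMul.algebraMap_eq_zero_iff]
    exact hπ.out.ne_zero
  exact hsp.indep (AdjoinRoot (overK f)) hn hπ0 a s z hz i

end lifts

/-- a constant unit in front -/
theorem const_unit {F : Type} [Field F] {n a : ℕ} (hn : n ≠ 0) {f : F[X][X]} (hf : f.Monic)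
    [IsDomain (AdjoinRoot f)] (ha : n ∣ a * f.natDegree + 1) {δ δ' z : AdjoinRoot (overK f)}
    (hδ : δ ≠ 0) (u : AdjoinRoot f) (c : F) (hu : u = algebraMap F (AdjoinRoot f) c)
    (h : δ = toL f u * δ' * z ^ n) (hN : ∃ y : RatFunc F, Algebra.norm (RatFunc F) δ = y ^ n)
    (hN' : ∃ y : RatFunc F, Algebra.norm (RatFunc F) δ' = y ^ n) :
    ∃ z' : AdjoinRoot (overK f), δ = δ' * z' ^ n := by
  have hmonic : (overK f).Monic := hf.map _
  let _ : Fact (Irreducible (overK f)) := ⟨H94.TC.irreducible_map (RatFunc F) f hf⟩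
  have hfree : Module.Free (RatFunc F) (AdjoinRoot (overK f)) := hmonic.free_adjoinRoot
  have hfinite : Module.Finite (RatFunc F) (AdjoinRoot (overK f)) := hmonic.finite_adjoinRoot
  have hfin : Module.finrank (RatFunc F) (AdjoinRoot (overK f)) = f.natDegree := by
    rw [← hf.natDegree_map (algebraMap F[X] (RatFunc F))]
    exact finrank_quotient_span_eq_natDegree' hmonic
  have hcopn : n.Coprime f.natDegree := by
    have h1 : Nat.gcd n f.natDegree ∣ a * f.natDegree + 1 := (Nat.gcd_dvd_left _ _).trans ha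
    have h2 : Nat.gcd n f.natDegree ∣ a * f.natDegree := (Nat.gcd_dvd_right _ _).mul_left _
    exact Nat.dvd_one.1 ((Nat.dvd_add_right h2).1 h1)
  have h3 : toL f u = algebraMap (RatFunc F) (AdjoinRoot (overK f))
      (algebraMap F[X] (RatFunc F) (C c)) := by
    rw [hu]
    have h4 : algebraMap F (AdjoinRoot f) c = AdjoinRoot.mk f (C (C c)) := rfl
    have h5 := H94.TC.toField_mk (RatFunc F) f (C (C c))
    rw [Polynomial.map_C] at h5
    rw [h4]
    exact h5
  set c' := algebraMap F[X] (RatFunc F) (C c) with hc'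
  obtain ⟨y, hy⟩ := hN
  obtain ⟨y', hy'⟩ := hN'
  rw [h3] at h
  have h6 := hy
  rw [h, map_mul, map_mul, map_pow, Algebra.norm_algebraMap, hfin, hy'] at h6
  have hc0 : c' ≠ 0 := by
    intro h0
    rw [h0, map_zero, zero_mul, zero_mul] at h
    exact hδ h
  have hz0 : z ≠ 0 := by
    rintro rfl
    rw [zero_pow hn, mul_zero] at h
    exact hδ h
  have hNz : Algebra.norm (RatFunc F) z ≠ 0 := by
    rw [Ne, Algebra.norm_eq_zero_iff]
    exact hz0
  have hy0 : y ≠ 0 := by
    rintro rfl
    rw [zero_pow hn, Algebra.norm_eq_zero_iff] at hy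
    exact hδ hy
  have hy'0 : y' ≠ 0 := by
    rintro rfl
    rw [zero_pow hn, mul_zero, zero_mul] at h6
    exact pow_ne_zero n hy0 h6.symm
  have h8 : c' ^ f.natDegree = (y / (y' * Algebra.norm (RatFunc F) z)) ^ n := by
    rw [div_pow, eq_div_iff (pow_ne_zero _ (mul_ne_zero hy'0 hNz)), ← h6, mul_pow]
    ring
  obtain ⟨k', hk'0, hk'⟩ := H94.TL.root_of_pow_eq (K := RatFunc F) hcopn c' _ hc0
    (div_ne_zero hy0 (mul_ne_zero hy'0 hNz)) h8
  refine ⟨algebraMap (RatFunc F) (AdjoinRoot (overK f)) k' * z, ?_⟩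
  rw [h, hk', map_pow, mul_pow]
  ring

/-- the general form: `O` is a Dedekind domain without classes of order dividing `n` and with
constant units -/
theorem main {F : Type} [Field F] {f : F[X][X]} (hf : f.Monic) [IsDedekindDomain (AdjoinRoot f)]
    {n a : ℕ} (hn : n ≠ 0) (ha : n ∣ a * f.natDegree + 1) {D : F[X]} (hD : D ≠ 0)
    (hu : ∀ u : (AdjoinRoot f)ˣ, ∃ c : F, (u : AdjoinRoot f) = algebraMap F (AdjoinRoot f) c)
    (hcl : ∀ C : ClassGroup (AdjoinRoot f), C ^ n = 1 → C = 1)
    {r : ℕ} {P Q : Fin r → F[X][X]} (hPQ : IsLifted n D f P Q) :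
    (∀ i, IsValue n a (algebraMap F[X] (RatFunc F) D) (overK f)
      (descent a (algebraMap F[X] (RatFunc F) D) (overK f) (overK (P i)))) ∧
    (∀ δ, (IsSelmer n a D f δ ∨
        IsValue n a (algebraMap F[X] (RatFunc F) D) (overK f) δ) →
      ∃ (s : Fin r → ℕ) (z : AdjoinRoot (overK f)),
        δ = (∏ i, descent a (algebraMap F[X] (RatFunc F) D) (overK f) (overK (P i)) ^ s i) *
          z ^ n) ∧
    (∀ (s : Fin r → ℕ) (z : AdjoinRoot (overK f)),
      ∏ i, descent a (algebraMap F[X] (RatFunc F) D) (overK f) (overK (P i)) ^ s i = z ^ n →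
        ∀ i, n ∣ s i) := by
  classical
  let _ : Fact (Irreducible (overK f)) := ⟨H94.TC.irreducible_map (RatFunc F) f hf⟩
  -- an element whose divisor is an `n`-th power
  have key : ∀ (δ : AdjoinRoot (overK f)) (I : Ideal (AdjoinRoot f)) (b c : AdjoinRoot f),
      IsSelmer n a D f δ → I ≠ ⊥ → c ≠ 0 → δ * toL f c ^ n = toL f b → Ideal.span {b} = I ^ n →
      ∃ z : AdjoinRoot (overK f), δ = z ^ n := by
    intro δ I b c hδ hI hc h1 h2
    have hI' : I ∈ nonZeroDivisors (Ideal (AdjoinRoot f)) := mem_nonZeroDivisors_of_ne_zero hI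
    have h3 : ClassGroup.mk0 ⟨I, hI'⟩ = 1 := by
      apply hcl
      rw [← map_pow, ClassGroup.mk0_eq_one_iff]
      exact ⟨b, by
        show I ^ n = _
        rw [← h2]⟩
    have h4 : Ideal.span {(1 : AdjoinRoot f)} =
        ((1 : nonZeroDivisors (Ideal (AdjoinRoot f))) : Ideal (AdjoinRoot f)) ^ n := by
      rw [Ideal.span_singleton_one, OneMemClass.coe_one, one_pow, Ideal.one_eq_top]
    have h5 : ∃ (u : (AdjoinRoot f)ˣ) (z : AdjoinRoot (overK f)),
        δ = toL f u * (1 : AdjoinRoot (overK f)) * z ^ n :=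
      H80.CC.same_class (RatFunc F) f hf δ 1 ⟨I, hI'⟩ 1 b c 1 1 hc h1
        (by rw [map_one, one_pow, one_mul]) h2 h4 (by rw [h3, map_one])
    obtain ⟨u, z, huz⟩ := h5
    obtain ⟨c', hc'⟩ := hu u
    obtain ⟨z', hz'⟩ := const_unit (δ' := (1 : AdjoinRoot (overK f))) hn hf ha hδ.ne_zero u c' hc'
      huz hδ.norm (isSelmer_of_isValue hn hD hf ha (isValue_one n a _ _)).norm
    exact ⟨z', by rw [hz', one_mul]⟩
  rcases hPQ with ⟨hr, hns⟩ | ⟨π, hL, hns⟩
  · subst hr
    refine ⟨fun i => i.elim0, fun δ hδ => ?_, fun s z _ i => i.elim0⟩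
    have hδ' : IsSelmer n a D f δ := hδ.elim id (isSelmer_of_isValue hn hD hf ha)
    obtain ⟨I, b, c, hI, hc, h1, h2⟩ := H80.CC.sel_ideal (RatFunc F) f hf a hn ha D
      (fun p hp hpD w w' hw hw' h h' => hns p hp hpD w w' hw hw' h h') δ hδ'.ne_zero
      hδ'.norm (fun v hv => by
        obtain ⟨b, hb, r, m, P, Q, γ, hm, hγ⟩ := hδ'.locally v hv
        exact ⟨b, hb, r, m, P, Q, γ, fun i => ⟨(hm i).1, (hm i).2.1, (hm i).2.2.1, (hm i).2.2.2⟩,
          hγ⟩)
    obtain ⟨z, hz⟩ := key δ I b c hδ' hI hc h1 h2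
    exact ⟨Fin.elim0, z, by rw [hz, Finset.univ_eq_empty, Finset.prod_empty, one_mul]⟩
  · have hval : ∀ i, IsValue n a (algebraMap F[X] (RatFunc F) D) (overK f)
        (descent a (algebraMap F[X] (RatFunc F) D) (overK f) (overK (P i))) := fun i =>
      isValue_descent hn (hL.mumford hf i)
    have hvalp : ∀ s : Fin r → ℕ, IsValue n a (algebraMap F[X] (RatFunc F) D) (overK f)
        (∏ i, descent a (algebraMap F[X] (RatFunc F) D) (overK f) (overK (P i)) ^ s i) :=
      fun s => isValue_prod _ _ fun i _ => isValue_pow (hval i) _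
    have heq : ∀ s : Fin r → ℕ,
        ∏ i, descent a (algebraMap F[X] (RatFunc F) D) (overK f) (overK (P i)) ^ s i =
        ∏ i, toL f (H80.CC.valE a D f (P i)) ^ s i := fun s =>
      Finset.prod_congr rfl fun i _ => by rw [descent_eq a D f (P i) (hL.factor i).1]
    have : Fact (Irreducible π) := ⟨hL.irreducible⟩
    obtain ⟨e, H, hsp⟩ := hL.splits
    refine ⟨hval, fun δ hδ => ?_, fun s z hz i => ?_⟩
    · have hδ' : IsSelmer n a D f δ := hδ.elim id (isSelmer_of_isValue hn hD hf ha)
      have hδs : ∀ s : Fin r → ℕ, IsSelmer n a D f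
          (δ * ∏ i, toL f (H80.CC.valE a D f (P i)) ^ s i) := by
        intro s
        rw [← heq s]
        exact isSelmer_mul hn hD hf ha hδ' (hvalp s)
      obtain ⟨s, I, b, c, hI, hc, h1, h2⟩ := exists_ideal hn hf ha hsp hns δ hδs
      obtain ⟨z, hz⟩ := key _ I b c (hδs s) hI hc h1 h2
      have hE0 : ∏ i, toL f (H80.CC.valE a D f (P i)) ^ s i ≠ 0 :=
        right_ne_zero_of_mul (hδs s).ne_zero
      refine ⟨fun i => (n - 1) * s i,
        z / ∏ i, toL f (H80.CC.valE a D f (P i)) ^ s i, ?_⟩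
      have h5 : ∏ i, toL f (H80.CC.valE a D f (P i)) ^ ((n - 1) * s i) =
          (∏ i, toL f (H80.CC.valE a D f (P i)) ^ s i) ^ (n - 1) := by
        rw [← Finset.prod_pow]
        refine Finset.prod_congr rfl fun i _ => ?_
        rw [← pow_mul, mul_comm]
      rw [heq, h5, div_pow, ← hz]
      set E := ∏ i, toL f (H80.CC.valE a D f (P i)) ^ s i with hE
      have h6 : E ^ n = E ^ (n - 1) * E := by
        rw [← pow_succ]; congr 1; omega
      rw [h6]
      field_simp
    · rw [heq] at hz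
      exact independent hn hf hsp s z hz i

theorem cov {F : Type} [Field F] {l : ℕ} {f : F[X][X]} (h : Tower l f) : H28.KL.Cov l f := by
  induction h with
  | line => exact H28.KL.Cov.line
  | aut f σ _ ih => exact H28.KL.Cov.aut f σ ih
  | root f _ h1 h2 ih => exact H28.KL.Cov.root f ih h1 h2

theorem tower {F : Type} [Field F] {l : ℕ} {f : F[X][X]} (h : H28.KL.Cov l f) : Tower l f := by
  induction h with
  | line => exact Tower.line
  | aut f σ _ ih => exact Tower.aut f σ ih
  | root f _ h1 h2 ih => exact Tower.root f ih h1 h2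

/-- Example: `g(x) - T(t)`, where `g` has degree prime to `l`, `T` is a composition of polynomials
`e (t + m) ^ l + c` and `g - b` is irreducible for each critical value `b` of `T`. -/
theorem tower_sub {F : Type} [Field F] {l : ℕ} (hl : 2 ≤ l) {g T : F[X]}
    (hg : Nat.Coprime g.natDegree l) (hT : H28.KL.IterPow l T)
    (hirr : ∀ b : F, ¬ (T - C b).Separable → Irreducible (g - C b)) :
    Tower l (g.map C - C T : F[X][X]) :=
  tower (H28.KL.cov_iter' hl hg hT hirr)

/-- Example: `f = g(x) + D(t)`, that is, the surface `D(t) (z ^ n - 1) = g(x)`, where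
`g = ∏ (x - b i)` with different `b i` has degree `r + 1` prime to `l`, `D` is irreducible, `-D` is a
composition of polynomials `e (t + m) ^ l + c`, and `g - c` is irreducible for each critical value
`c` of `-D`. The points `(b i, 1)`, `i < r`, are a basis. -/
theorem isLifted_add {F : Type} [Field F] {l : ℕ} (hl : 2 ≤ l) (n : ℕ) {r : ℕ}
    (b : Fin (r + 1) → F) (hb : Function.Injective b) (hr : Nat.Coprime (r + 1) l) {D : F[X]}
    (hD : Irreducible D) (hT : H28.KL.IterPow l (-D))
    (hirr : ∀ c : F, ¬ (-D - C c).Separable → Irreducible ((∏ i, (X - C (b i))) - C c)) :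
    Tower l ((∏ i, (X - C (b i)) : F[X]).map C + C D : F[X][X]) ∧
      IsLifted n D ((∏ i, (X - C (b i)) : F[X]).map C + C D : F[X][X])
        (fun i : Fin r => X - C (C (b i.castSucc))) (fun _ => 1) := by
  have hfact : Fact (Irreducible D) := ⟨hD⟩
  set g : F[X] := ∏ i, (X - C (b i)) with hg
  have hgdeg : g.natDegree = r + 1 := by
    rw [hg, natDegree_prod_of_monic _ _ fun i _ => monic_X_sub_C _]
    simp
  have hgC : (g.map C : F[X][X]) = ∏ i, (X - C (C (b i))) := by
    rw [hg, Polynomial.map_prod]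
    refine Finset.prod_congr rfl fun i _ => ?_
    rw [Polynomial.map_sub, map_X, Polynomial.map_C]
  have hmap : ((g.map C + C D : F[X][X])).map (AdjoinRoot.mk D) =
      ∏ i, (X - C (AdjoinRoot.of D (b i))) := by
    rw [Polynomial.map_add, Polynomial.map_C, AdjoinRoot.mk_self, C_0, add_zero, hgC,
      Polynomial.map_prod]
    refine Finset.prod_congr rfl fun i _ => ?_
    rw [Polynomial.map_sub, map_X, Polynomial.map_C, AdjoinRoot.mk_C]
  refine ⟨?_, Or.inr ⟨D, ⟨hD, ⟨1, one_ne_zero, Nat.coprime_one_left n, by rw [pow_one], ?_⟩, ?_,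
    fun i => ⟨monic_X_sub_C _, ?_, ?_⟩, ?_⟩, ?_⟩⟩
  · have h1 := tower_sub hl (g := g) (by rw [hgdeg]; exact hr) hT hirr
    rwa [C_neg, sub_neg_eq_add] at h1
  · intro h1
    have h2 := hD.not_isUnit
    obtain ⟨c, hc⟩ := h1
    apply h2
    refine IsUnit.of_mul_eq_one c ?_
    apply mul_left_cancel₀ hD.ne_zero
    rw [mul_one]
    linear_combination -hc
  · rw [hmap]
    refine Separable.squarefree ?_
    rw [separable_prod_X_sub_C_iff]
    intro i j hij
    exact hb ((AdjoinRoot.of D).injective hij)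
  · rw [Polynomial.map_sub, map_X, Polynomial.map_C, AdjoinRoot.mk_C]
    exact irreducible_X_sub_C _
  · have h1 : (C D * 1 ^ n - (g.map C + C D) : F[X][X]) = -(g.map C) := by
      rw [one_pow]; ring
    rw [h1, hgC]
    exact (dvd_neg (α := F[X][X])).2 (Finset.dvd_prod_of_mem _ (Finset.mem_univ _))
  · refine ⟨X - C (AdjoinRoot.of D (b (Fin.last r))), irreducible_X_sub_C _, ?_⟩
    rw [hmap, Fin.prod_univ_castSucc]
    congr 1
    refine Finset.prod_congr rfl fun i _ => ?_
    rw [Polynomial.map_sub, map_X, Polynomial.map_C, AdjoinRoot.mk_C]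
  · intro p hp hpD hpD'
    exact absurd ((hp.irreducible.associated_of_dvd hD hpD)) hpD'

/-- no elements of order `l ^ k` if there are none of order `l` -/
theorem pow_class {G : Type} [Group G] {l : ℕ} (h : ∀ c : G, c ^ l = 1 → c = 1) (k : ℕ) :
    ∀ c : G, c ^ l ^ k = 1 → c = 1 := by
  induction k with
  | zero =>
    intro c hc
    rwa [pow_zero, pow_one] at hc
  | succ k ih =>
    intro c hc
    refine ih c (h _ ?_)
    rw [← pow_mul, ← pow_succ]
    exact hc

theorem result (F : Type) [Field F] (l : ℕ) (hl : l.Prime) (ζ : F) (hζ : IsPrimitiveRoot ζ l)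
    (f : F[X][X]) (hf : f.Monic) (ht : Tower l f) (k a : ℕ) (ha : l ^ k ∣ a * f.natDegree + 1)
    (D : F[X]) (hD : D ≠ 0) (r : ℕ) (P Q : Fin r → F[X][X]) (hPQ : IsLifted (l ^ k) D f P Q) :
    (∀ i, IsValue (l ^ k) a (algebraMap F[X] (RatFunc F) D) (overK f)
      (descent a (algebraMap F[X] (RatFunc F) D) (overK f) (overK (P i)))) ∧
    (∀ δ, (IsSelmer (l ^ k) a D f δ ∨
        IsValue (l ^ k) a (algebraMap F[X] (RatFunc F) D) (overK f) δ) →
      ∃ (s : Fin r → ℕ) (z : AdjoinRoot (overK f)),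
        δ = (∏ i, descent a (algebraMap F[X] (RatFunc F) D) (overK f) (overK (P i)) ^ s i) *
          z ^ l ^ k) ∧
    (∀ (s : Fin r → ℕ) (z : AdjoinRoot (overK f)),
      ∏ i, descent a (algebraMap F[X] (RatFunc F) D) (overK f) (overK (P i)) ^ s i = z ^ l ^ k →
        ∀ i, l ^ k ∣ s i) := by
  obtain ⟨hded, hcl, hu⟩ := H28.KL.coordinateRing hl hζ (cov ht)
  exact main hf (pow_ne_zero k hl.ne_zero) ha hD hu (pow_class hcl k) hPQ

end Pool.Agent.H80.TowerSections
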