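import Pool.Agent.H80.Col2d

set_option autoImplicit false

namespace Pool.Agent.H80

open Equiv
open scoped commutatorElement

section
variable {G : Type*} [Group G] [Finite G] [Group.IsSolvable G]

theorem exists_cover {L K : Subgroup G} (h : L < K) : ∃ H : Subgroup G, L ⋖ H ∧ H ≤ K := by
  obtain ⟨H, ⟨h1, h2⟩, hmin⟩ := WellFounded.has_min (wellFounded_lt (α := Subgroup G))
    {H : Subgroup G | L < H ∧ H ≤ K} ⟨K, h, le_rfl⟩
  refine ⟨H, ⟨h1, ?_⟩, h2⟩
  intro c hc1 hc2
  exact hmin c ⟨hc1, hc2.le.trans h2⟩ hc2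

theorem N5 (K : Subgroup G) : ∀ L : Subgroup G, L ≤ K → NT K L 5 0 5 := by
  intro L
  induction L using WellFoundedGT.induction with
  | ind L ih =>
  intro hLK
  rcases hLK.eq_or_lt with rfl | hlt
  · exact NT_refl _ 5 0
  · obtain ⟨H, hH, hHK⟩ := exists_cover hlt
    obtain ⟨p, k, hp, hk, hN⟩ := exists_aff_of_covBy hH
    haveI : Fact p.Prime := ⟨hp⟩
    exact NT.comp hH.le hHK (hN 5 0 5 (NTaff5 hk)) (ih H hH.lt hHK)

theorem N4 {K L : Subgroup G} (h : L < K) : NT K L 4 1 5 := by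
  obtain ⟨H, hH, hHK⟩ := exists_cover h
  obtain ⟨p, k, hp, hk, hN⟩ := exists_aff_of_covBy hH
  haveI : Fact p.Prime := ⟨hp⟩
  exact NT.comp hH.le hHK (hN 4 1 5 (NTaff4 hk)) (N5 K H hHK)

theorem N3 {K L : Subgroup G} (h : L < K) : NT K L 3 2 5 := by
  obtain ⟨H, hH, hHK⟩ := exists_cover h
  obtain ⟨p, k, hp, hk, hN⟩ := exists_aff_of_covBy hH
  haveI : Fact p.Prime := ⟨hp⟩
  exact NT.comp hH.le hHK (hN 3 2 5 (NTaff3 hk)) (N5 K H hHK)

theorem N2 {K L : Subgroup G} (h : L ≤ K) : NT K L 2 3 1 := by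
  rcases h.eq_or_lt with rfl | hlt
  · exact (NT_refl _ 2 3).weaken (by norm_num)
  obtain ⟨H, hH, hHK⟩ := exists_cover hlt
  obtain ⟨p, k, hp, hk, hN⟩ := exists_aff_of_covBy hH
  haveI : Fact p.Prime := ⟨hp⟩
  by_cases h4 : 4 ≤ p ^ k
  · exact (NT.comp hH.le hHK (hN 2 3 5 (NTaff2 hk h4)) (N5 K H hHK)).weaken (by norm_num)
  · have hp2 : p ≤ p ^ k := Nat.le_self_pow (by omega) p
    have hk1 : k = 1 := by
      by_contra hne
      have : 2 ^ 2 ≤ p ^ k := (Nat.pow_le_pow_left hp.two_le 2).trans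
        (Nat.pow_le_pow_right (by have := hp.two_le; omega) (by omega))
      omega
    subst hk1
    rw [pow_one] at h4
    have h23 : p = 2 ∨ p = 3 := by have := hp.two_le; omega
    rcases h23 with rfl | rfl
    · have h1 : NT H L 2 1 3 := hN 2 1 3 (NTaff2_small (n := 1) (by norm_num)
        (by rw [card_VV]; norm_num))
      rcases hHK.eq_or_lt with rfl | hlt2
      · exact (h1.weaken_d (by norm_num)).weaken (by norm_num)
      · exact (NT.comp hH.le hHK h1 (N3 hlt2)).weaken (by norm_num)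
    · have h1 : NT H L 2 2 4 := hN 2 2 4 (NTaff2_small (n := 2) (by norm_num)
        (by rw [card_VV]; norm_num))
      rcases hHK.eq_or_lt with rfl | hlt2
      · exact (h1.weaken_d (by norm_num)).weaken (by norm_num)
      · exact (NT.comp hH.le hHK h1 (N4 hlt2)).weaken (by norm_num)

end

/-- the colour preserving subgroup -/
def pst {Ω α : Type*} (G : Subgroup (Perm Ω)) (γ : Ω → α) : Subgroup (Perm Ω) where
  carrier := {g | g ∈ G ∧ ∀ ω, γ (g ω) = γ ω}
  mul_mem' := by
    rintro a b ⟨ha, ha'⟩ ⟨hb, hb'⟩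
    exact ⟨G.mul_mem ha hb, fun ω => by rw [Perm.mul_apply, ha', hb']⟩
  one_mem' := ⟨G.one_mem, fun ω => rfl⟩
  inv_mem' := by
    rintro a ⟨ha, ha'⟩
    refine ⟨G.inv_mem ha, fun ω => ?_⟩
    have := ha' (a⁻¹ ω)
    rw [← Perm.mul_apply, mul_inv_cancel, Perm.one_apply] at this
    exact this.symm

/-- upper bound -/
theorem upper {Ω : Type*} [Finite Ω] (G : Subgroup (Perm Ω)) [Group.IsSolvable G] :
    ∃ γ : Ω → Fin 2, D (pst G γ) 3 = ⊥ := by
  classical
  haveI : Finite G := inferInstance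
  -- for each point a colouring of the group
  have hpt : ∀ ω : Ω, ∃ c : G → Fin 2, (∀ g l : G, l • ω = ω → c (g * l) = c g) ∧
      ∀ x ∈ D (cst (⊤ : Subgroup G) c) 3, ∀ g : G, x • g • ω = g • ω := by
    intro ω
    obtain ⟨c, h1, _, h3⟩ := N2 (G := G) (K := ⊤) (L := MulAction.stabilizer G ω) le_top
    refine ⟨c 0, ?_, ?_⟩
    · intro g l hl
      exact h1 0 g trivial l hl
    · intro x hx g
      have := h3 0 x hx g trivial
      rw [MulAction.mem_stabilizer_iff, mul_smul, mul_smul, inv_smul_eq_iff] at this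
      exact this
  choose c hc1 hc2 using hpt
  -- orbit representatives
  let r : Ω → Ω := fun x => (Quotient.mk (MulAction.orbitRel G Ω) x).out
  have hr : ∀ x, ∃ g : G, g • r x = x := by
    intro x
    have h1 : (MulAction.orbitRel G Ω).r (r x) x := Quotient.exact (Quotient.out_eq _)
    have h2 : x ∈ MulAction.orbit G (r x) := by
      rw [MulAction.orbit_eq_iff.2 ((MulAction.orbitRel_apply).1 h1)]
      exact MulAction.mem_orbit_self x
    exact h2
  have hrg : ∀ (g : G) x, r (g • x) = r x := by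
    intro g x
    have : (Quotient.mk (MulAction.orbitRel G Ω) (g • x)) = Quotient.mk _ x := by
      apply Quotient.sound
      exact (MulAction.orbitRel_apply).2 ⟨g, rfl⟩
    simp only [r]
    rw [this]
  choose t ht using hr
  let γ : Ω → Fin 2 := fun x => c (r x) (t x)
  refine ⟨γ, ?_⟩
  -- value of γ
  have hγ : ∀ (g : G) (x : Ω), γ (g • r x) = c (r x) g := by
    intro g x
    have e1 : r (g • r x) = r x := by
      have h1 : r (g • r x) = r (r x) := hrg g (r x)
      have h2 : r (r x) = r x := by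
        have := hrg (t x) (r x)
        rw [ht] at this
        exact this.symm
      rw [h1, h2]
    have e2 : t (g • r x) • r x = g • r x := by
      have := ht (g • r x)
      rwa [e1] at this
    change c (r (g • r x)) (t (g • r x)) = c (r x) g
    rw [e1]
    have := hc1 (r x) g (g⁻¹ * t (g • r x)) (by rw [mul_smul, e2, inv_smul_smul])
    rwa [mul_inv_cancel_left] at this
  rw [eq_bot_iff]
  intro x hx
  rw [Subgroup.mem_bot]
  set S := pst G γ with hS
  have hSG : S ≤ G := fun y hy => hy.1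
  have hmap : (S.subgroupOf G).map G.subtype = S := by
    rw [Subgroup.map_subgroupOf_eq_of_le hSG]
  rw [← hmap, ← D_map] at hx
  obtain ⟨y, hy, rfl⟩ := hx
  ext ω
  change (y : Perm Ω) ω = ω
  have hle : S.subgroupOf G ≤ cst (⊤ : Subgroup G) (c (r ω)) := by
    intro z hz
    have hz' : (z : Perm Ω) ∈ S := Subgroup.mem_subgroupOf.1 hz
    refine ⟨trivial, fun g _ => ?_⟩
    rw [← hγ, ← hγ, mul_smul]
    exact hz'.2 (g • r ω)
  have := hc2 (r ω) y (D_mono hle 3 hy) (t ω)
  rw [ht] at this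
  exact this

end Pool.Agent.H80
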